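import Pool.Agent.H6.RA.Stm2

/-!
# Project RA: the full subcomplex (stub ACI)
-/

set_option autoImplicit false

noncomputable section

namespace Pool.Agent.H6.RA

open Pool.Agent.W907.SG Pool.Agent.W461.SGN Pool.Agent.N496.LT Pool.Agent.Helper655.VN Pool.Agent.RK
open Pool.Agent.N496.CV

namespace ACI

variable {V : Type} [Fintype V] [LinearOrder V] (C : Set V) [Fintype C]

/-- the embedding -/
def em : C ↪ V := Function.Embedding.subtype (fun x => x ∈ C)

omit [Fintype V] [LinearOrder V] [Fintype C] in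
theorem em_apply (v : C) : em C v = (v : V) := rfl

omit [Fintype V] [LinearOrder V] [Fintype C] in
theorem map_sub (σ : Finset C) : ((σ.map (em C) : Finset V) : Set V) ⊆ C := by
  intro x hx
  rw [Finset.mem_coe, Finset.mem_map] at hx
  obtain ⟨y, _, rfl⟩ := hx
  exact y.2

theorem key (c : Finset V → ℚ) (hc : ∀ T : Finset V, ¬ (T : Set V) ⊆ C → c T = 0) (σ : Finset C) :
    bq c (σ.map (em C)) = bq (fun τ : Finset C => c (τ.map (em C))) σ := by
  have hs : ∀ v : C, sg v σ = sg (em C v) (σ.map (em C)) := by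
    intro v
    unfold sg
    rw [Finset.filter_map, Finset.card_map]
    rfl
  have h2 : bq (fun τ : Finset C => c (τ.map (em C))) σ =
      ∑ w ∈ (σᶜ).map (em C), ((sg w (σ.map (em C)) : ℤ) : ℚ) * c (insert w (σ.map (em C))) := by
    rw [Finset.sum_map]
    unfold bq
    refine Finset.sum_congr (by ext x; rw [Finset.mem_compl, Finset.mem_compl]) fun v _ => ?_
    have h3 : (insert v σ).map (em C) = insert (em C v) (σ.map (em C)) := by
      ext x
      simp only [Finset.mem_map, Finset.mem_insert]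
      constructor
      · rintro ⟨y, rfl | hy, rfl⟩
        · exact Or.inl rfl
        · exact Or.inr ⟨y, hy, rfl⟩
      · rintro (rfl | ⟨y, hy, rfl⟩)
        · exact ⟨v, Or.inl rfl, rfl⟩
        · exact ⟨y, Or.inr hy, rfl⟩
    rw [← hs]
    congr 1
    exact congrArg c h3
  rw [h2]
  unfold bq
  symm
  refine Finset.sum_subset ?_ ?_
  · intro w hw
    rw [Finset.mem_map] at hw
    obtain ⟨v, hv, rfl⟩ := hw
    rw [Finset.mem_compl] at hv ⊢
    rw [Finset.mem_map' (em C)]
    exact hv
  · intro w hw hw'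
    rw [hc, mul_zero]
    intro hsub
    have hwC : w ∈ C := hsub (by simp)
    apply hw'
    rw [Finset.mem_map]
    refine ⟨⟨w, hwC⟩, ?_, rfl⟩
    rw [Finset.mem_compl] at hw ⊢
    intro h
    exact hw (Finset.mem_map.2 ⟨_, h, rfl⟩)

end ACI

open ACI in
theorem aci : S_ACI := by
  classical
  intro V _ _ G C _ i h a ha hda
  have ha0 : ∀ T : Finset V, ¬ (T : Set V) ⊆ C → a T = 0 := fun T hT => ha T (fun h' => hT h'.2.1)
  have hcl : ∀ σ : Finset C, (G.IsClique ((σ.map (em C) : Finset V) : Set V)) ↔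
      (G.induce C).IsClique (σ : Set C) := by
    intro σ
    rw [Finset.coe_map]
    constructor
    · intro h1 x hx y hy hxy
      exact h1 ⟨x, hx, rfl⟩ ⟨y, hy, rfl⟩ (fun h => hxy (Subtype.ext h))
    · rintro h1 _ ⟨x, hx, rfl⟩ _ ⟨y, hy, rfl⟩ hxy
      exact h1 hx hy (fun h => hxy (by rw [h]))
  obtain ⟨b', hb', hdb'⟩ := h (fun σ => a (σ.map (em C)))
    (by
      intro σ hσ
      apply ha
      rintro ⟨h1, _, h3⟩
      rw [Finset.card_map] at h3
      exact hσ ⟨(hcl σ).1 h1, Set.subset_univ _, h3⟩)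
    (by
      funext σ
      rw [← key C a ha0 σ, hda]
      rfl)
  set b : Finset V → ℚ := fun T => if (T : Set V) ⊆ C then b' (T.subtype (fun x => x ∈ C)) else 0
    with hb
  have hb0 : ∀ T : Finset V, ¬ (T : Set V) ⊆ C → b T = 0 := fun T hT => by rw [hb]; exact if_neg hT
  have hbm : ∀ σ : Finset C, b (σ.map (em C)) = b' σ := by
    intro σ
    have h1 : b (σ.map (em C)) = b' ((σ.map (em C)).subtype (fun x => x ∈ C)) :=
      if_pos (map_sub C σ)
    rw [h1]
    congr 1
    ext x
    rw [Finset.mem_subtype, Finset.mem_map]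
    constructor
    · rintro ⟨y, hy, hyx⟩
      have : y = x := Subtype.ext hyx
      rwa [← this]
    · intro hx
      exact ⟨x, hx, rfl⟩
  have hsub : ∀ T : Finset V, (T : Set V) ⊆ C → (T.subtype (fun x => x ∈ C)).map (em C) = T := by
    intro T hT
    ext x
    rw [Finset.mem_map]
    constructor
    · rintro ⟨y, hy, rfl⟩
      exact Finset.mem_subtype.1 hy
    · intro hx
      exact ⟨⟨x, hT hx⟩, Finset.mem_subtype.2 hx, rfl⟩
  refine ⟨b, ?_, ?_⟩
  · intro T hT
    by_cases hTC : (T : Set V) ⊆ C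
    · rw [← hsub T hTC, hbm]
      apply hb'
      rintro ⟨h1, _, h3⟩
      apply hT
      refine ⟨?_, hTC, ?_⟩
      · rw [← hsub T hTC]
        exact (hcl _).2 h1
      · rw [← hsub T hTC, Finset.card_map]
        exact h3
    · exact hb0 T hTC
  · funext T
    by_cases hTC : (T : Set V) ⊆ C
    · rw [← hsub T hTC, key C b hb0]
      have h1 : (fun τ : Finset C => b (τ.map (em C))) = b' := by
        funext τ
        exact hbm τ
      rw [h1, hdb']
    · rw [ha0 T hTC]
      unfold bq
      refine Finset.sum_eq_zero fun v _ => ?_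
      rw [hb0, mul_zero]
      intro h1
      apply hTC
      intro x hx
      apply h1
      rw [Finset.coe_insert]
      exact Set.mem_insert_of_mem _ hx

end Pool.Agent.H6.RA
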