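import Pool.Agent.H6.RA.Stm

/-! BASE (helper48): all the vertices in `Z`. -/

set_option autoImplicit false

noncomputable section

namespace Pool.Agent.H6.RA.BA

open Pool.Agent.W907.SG Pool.Agent.W461.SGN Pool.Agent.N496.CV Finset

section lin

variable {V : Type} [Fintype V] [LinearOrder V]

/-- the boundary as a linear map -/
def D : (Finset V → ℚ) →ₗ[ℚ] (Finset V → ℚ) where
  toFun a := bq a
  map_add' a b := by
    funext T
    simp only [bq, Pi.add_apply, mul_add, Finset.sum_add_distrib]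
  map_smul' r a := by
    funext T
    simp only [bq, Pi.smul_apply, smul_eq_mul, RingHom.id_apply, Finset.mul_sum]
    exact Finset.sum_congr rfl fun v _ => by ring

/-- the chains as a submodule -/
def Cs (G : SimpleGraph V) (C : Set V) (i : ℕ) : Submodule ℚ (Finset V → ℚ) where
  carrier := {a | IsQ G C i a}
  add_mem' := by
    intro a b ha hb T hT
    rw [Pi.add_apply, ha T hT, hb T hT, add_zero]
  zero_mem' := fun T _ => rfl
  smul_mem' := by
    intro r a ha T hT
    rw [Pi.smul_apply, ha T hT, smul_zero]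

theorem exists_HK (G : SimpleGraph V) (C : Set V) (i : ℕ) (hA : Ac G C i) :
    ∃ H K : (Finset V → ℚ) →ₗ[ℚ] (Finset V → ℚ), (∀ a, H a ∈ Cs G C (i + 1)) ∧
      ∀ a ∈ Cs G C i, a = D (H a) + K (D a) := by
  set Z : Submodule ℚ (Finset V → ℚ) := Cs G C i ⊓ LinearMap.ker (D (V := V)) with hZ
  obtain ⟨P, hP⟩ := LinearMap.exists_leftInverse_of_injective Z.subtype (Submodule.ker_subtype Z)
  have hPz : ∀ z : Z, P z = z := fun z => by
    have := LinearMap.congr_fun hP z
    simpa using this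
  set f : Cs G C (i + 1) →ₗ[ℚ] (Finset V → ℚ) := (D (V := V)).domRestrict (Cs G C (i + 1)) with hf
  obtain ⟨g, hg⟩ := LinearMap.exists_rightInverse_of_surjective f.rangeRestrict
    (LinearMap.range_rangeRestrict f)
  have hle : Z ≤ LinearMap.range f := by
    intro z hz
    obtain ⟨b, hb1, hb2⟩ := hA z hz.1 (LinearMap.mem_ker.1 hz.2)
    exact ⟨⟨b, hb1⟩, hb2⟩
  set f' : Cs G C i →ₗ[ℚ] (Finset V → ℚ) := (D (V := V)).domRestrict (Cs G C i) with hf'
  obtain ⟨g', hg'⟩ := LinearMap.exists_rightInverse_of_surjective f'.rangeRestrict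
    (LinearMap.range_rangeRestrict f')
  obtain ⟨g'', hg''⟩ := LinearMap.exists_extend g'
  refine ⟨(Cs G C (i + 1)).subtype ∘ₗ g ∘ₗ (Submodule.inclusion hle) ∘ₗ P,
    (LinearMap.id - Z.subtype ∘ₗ P) ∘ₗ (Cs G C i).subtype ∘ₗ g'', fun a => ?_, fun a ha => ?_⟩
  · exact (g (Submodule.inclusion hle (P a))).2
  · have h1 : D ((Cs G C (i + 1)).subtype (g (Submodule.inclusion hle (P a)))) = (P a : Finset V → ℚ) := by
      have := LinearMap.congr_fun hg (Submodule.inclusion hle (P a))
      exact congrArg Subtype.val this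
    have h3 : g'' (D a) = g' ⟨D a, ⟨⟨a, ha⟩, rfl⟩⟩ := by
      have := LinearMap.congr_fun hg'' ⟨D a, ⟨⟨a, ha⟩, rfl⟩⟩
      simpa using this
    set a' : Cs G C i := g'' (D a) with ha'
    have h4 : D (a' : Finset V → ℚ) = D a := by
      have := LinearMap.congr_fun hg' ⟨D a, ⟨⟨a, ha⟩, rfl⟩⟩
      have h2 := congrArg Subtype.val this
      rw [h3]
      exact h2
    have h5 : a - a' ∈ Z := by
      refine ⟨Submodule.sub_mem _ ha a'.2, LinearMap.mem_ker.2 ?_⟩
      rw [map_sub, h4, sub_self]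
    have h6 : (P (a - a') : Finset V → ℚ) = a - a' := congrArg Subtype.val (hPz ⟨a - a', h5⟩)
    rw [map_sub] at h6
    have h7 : (P a : Finset V → ℚ) - (P (a' : Finset V → ℚ) : Finset V → ℚ) = a - a' := h6
    show a = D ((Cs G C (i + 1)).subtype (g (Submodule.inclusion hle (P a)))) +
      ((a' : Finset V → ℚ) - (P (a' : Finset V → ℚ) : Finset V → ℚ))
    rw [h1]
    have h8 : (P a : Finset V → ℚ) = a - a' + (P (a' : Finset V → ℚ) : Finset V → ℚ) := by
      rw [← h7]; abel
    rw [h8]; abel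

theorem den_aux {ι : Type} [Fintype ι] (f : ι → ℚ) :
    ∃ N : ℕ, 0 < N ∧ ∀ i, ∃ z : ℤ, (z : ℚ) = N * f i := by
  classical
  refine ⟨∏ i, (f i).den, Finset.prod_pos fun i _ => (f i).den_pos, fun i => ?_⟩
  obtain ⟨m, hm⟩ := Finset.dvd_prod_of_mem (fun i => (f i).den) (mem_univ i)
  refine ⟨m * (f i).num, ?_⟩
  rw [hm]
  have h1 : ((f i).den : ℚ) * f i = (f i).num := by
    rw [mul_comm]; exact Rat.mul_den_eq_num (f i)
  push_cast
  rw [mul_comm ((f i).den : ℚ), mul_assoc, h1]

/-- integer matrices -/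
theorem exists_int (G : SimpleGraph V) (C : Set V) (i : ℕ) (hA : Ac G C i) :
    ∃ (N : ℕ) (h k : Finset V → Finset V → ℤ), 0 < N ∧
      (∀ T σ : Finset V, ¬ (G.IsClique (T : Set V) ∧ (T : Set V) ⊆ C ∧ T.card = i + 1) → h T σ = 0) ∧
      ∀ σ : Finset V, (G.IsClique (σ : Set V) ∧ (σ : Set V) ⊆ C ∧ σ.card = i) → ∀ S : Finset V,
        (if S = σ then (N : ℤ) else 0) = ∑ v ∈ Sᶜ, sg v S * h (insert v S) σ +
          ∑ ρ : Finset V, k S ρ * ∑ v ∈ ρᶜ, sg v ρ * (if insert v ρ = σ then 1 else 0) := by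
  obtain ⟨H, K, hH, hK⟩ := exists_HK G C i hA
  obtain ⟨N, hN, hz⟩ := den_aux (ι := (Finset V × Finset V) ⊕ (Finset V × Finset V))
    (Sum.elim (fun p => H (Pi.single p.2 1) p.1) (fun p => K (Pi.single p.2 1) p.1))
  choose z hz using hz
  have hh : ∀ T σ, (z (Sum.inl (T, σ)) : ℚ) = N * H (Pi.single σ 1) T := fun T σ => by
    simpa using hz (Sum.inl (T, σ))
  have hk : ∀ T σ, (z (Sum.inr (T, σ)) : ℚ) = N * K (Pi.single σ 1) T := fun T σ => by
    simpa using hz (Sum.inr (T, σ))
  refine ⟨N, fun T σ => z (Sum.inl (T, σ)), fun T σ => z (Sum.inr (T, σ)), hN, ?_, ?_⟩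
  · intro T σ hT
    have h1 := hH (Pi.single σ 1) T hT
    have h2 := hh T σ
    rw [h1, mul_zero] at h2
    exact_mod_cast h2
  · intro σ hσ S
    have hmem : (Pi.single σ 1 : Finset V → ℚ) ∈ Cs G C i := by
      intro T hT
      rw [Pi.single_apply, if_neg]
      rintro rfl
      exact hT hσ
    have h1 := congrFun (hK _ hmem) S
    rw [Pi.add_apply] at h1
    -- expand K
    have h2 : K (D (Pi.single σ 1)) = ∑ ρ : Finset V, (D (Pi.single σ 1) : Finset V → ℚ) ρ •
        K (Pi.single ρ 1) := by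
      conv_lhs => rw [show (D (Pi.single σ 1) : Finset V → ℚ) = ∑ ρ : Finset V,
        (D (Pi.single σ 1) : Finset V → ℚ) ρ • (Pi.single ρ 1 : Finset V → ℚ) from by
          funext T
          rw [Finset.sum_apply]
          simp [Pi.single_apply]]
      rw [map_sum]
      exact Finset.sum_congr rfl fun ρ _ => by rw [map_smul]
    rw [h2, Finset.sum_apply] at h1
    have h3 : ∀ ρ : Finset V, (D (Pi.single σ 1) : Finset V → ℚ) ρ =
        ∑ v ∈ ρᶜ, (sg v ρ : ℚ) * (if insert v ρ = σ then 1 else 0) := by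
      intro ρ
      show bq _ ρ = _
      unfold bq
      exact Finset.sum_congr rfl fun v _ => by rw [Pi.single_apply]
    have h4 : (D (H (Pi.single σ 1)) : Finset V → ℚ) S =
        ∑ v ∈ Sᶜ, (sg v S : ℚ) * H (Pi.single σ 1) (insert v S) := rfl
    rw [h4] at h1
    have h5 : ((if S = σ then (N : ℤ) else 0 : ℤ) : ℚ) = N * (Pi.single σ 1 : Finset V → ℚ) S := by
      rw [Pi.single_apply]
      split_ifs <;> simp
    have h6 : (((if S = σ then (N : ℤ) else 0) : ℤ) : ℚ) =
        ((∑ v ∈ Sᶜ, sg v S * z (Sum.inl (insert v S, σ)) +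
          ∑ ρ : Finset V, z (Sum.inr (S, ρ)) * ∑ v ∈ ρᶜ, sg v ρ * (if insert v ρ = σ then 1 else 0) : ℤ) : ℚ) := by
      rw [h5, h1, mul_add, Finset.mul_sum, Finset.mul_sum]
      push_cast
      congr 1
      · exact Finset.sum_congr rfl fun v _ => by rw [hh]; ring
      · refine Finset.sum_congr rfl fun ρ _ => ?_
        rw [hk, Pi.smul_apply, smul_eq_mul, h3]
        ring
    exact_mod_cast h6

/-- the identity with coefficients in an additive group -/
theorem apply_group {A : Type} [AddCommGroup A] (G : SimpleGraph V) (C : Set V) (i : ℕ)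
    {N : ℕ} {h k : Finset V → Finset V → ℤ}
    (hid : ∀ σ : Finset V, (G.IsClique (σ : Set V) ∧ (σ : Set V) ⊆ C ∧ σ.card = i) → ∀ S : Finset V,
        (if S = σ then (N : ℤ) else 0) = ∑ v ∈ Sᶜ, sg v S * h (insert v S) σ +
          ∑ ρ : Finset V, k S ρ * ∑ v ∈ ρᶜ, sg v ρ * (if insert v ρ = σ then 1 else 0))
    (a : Finset V → A)
    (ha : ∀ σ : Finset V, ¬ (G.IsClique (σ : Set V) ∧ (σ : Set V) ⊆ C ∧ σ.card = i) → a σ = 0)
    (hda : ∀ ρ : Finset V, ∑ v ∈ ρᶜ, sg v ρ • a (insert v ρ) = 0) (S : Finset V) :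
    N • a S = ∑ v ∈ Sᶜ, sg v S • ∑ σ : Finset V, h (insert v S) σ • a σ := by
  have h1 : ∀ σ : Finset V, (if S = σ then (N : ℤ) else 0) • a σ =
      (∑ v ∈ Sᶜ, sg v S * h (insert v S) σ) • a σ +
        (∑ ρ : Finset V, k S ρ * ∑ v ∈ ρᶜ, sg v ρ * (if insert v ρ = σ then 1 else 0)) • a σ := by
    intro σ
    by_cases hσ : G.IsClique (σ : Set V) ∧ (σ : Set V) ⊆ C ∧ σ.card = i
    · rw [← add_smul, ← hid σ hσ S]
    · rw [ha σ hσ]; simp
  have h2 : ∑ σ : Finset V, (if S = σ then (N : ℤ) else 0) • a σ = N • a S := by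
    rw [Finset.sum_eq_single S]
    · rw [if_pos rfl, natCast_zsmul]
    · intro b _ hb
      rw [if_neg (Ne.symm hb), zero_smul]
    · intro hb; exact absurd (mem_univ S) hb
  have h3 : ∑ σ : Finset V, (∑ ρ : Finset V, k S ρ * ∑ v ∈ ρᶜ, sg v ρ *
      (if insert v ρ = σ then 1 else 0)) • a σ = 0 := by
    have h4 : ∀ σ : Finset V, (∑ ρ : Finset V, k S ρ * ∑ v ∈ ρᶜ, sg v ρ *
        (if insert v ρ = σ then 1 else 0)) • a σ =
        ∑ ρ : Finset V, k S ρ • ∑ v ∈ ρᶜ, sg v ρ • (if insert v ρ = σ then a σ else 0) := by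
      intro σ
      rw [Finset.sum_smul]
      refine Finset.sum_congr rfl fun ρ _ => ?_
      rw [mul_smul, Finset.sum_smul]
      congr 1
      refine Finset.sum_congr rfl fun v _ => ?_
      rw [mul_smul]
      congr 1
      split_ifs <;> simp
    rw [Finset.sum_congr rfl fun σ _ => h4 σ, Finset.sum_comm]
    refine Finset.sum_eq_zero fun ρ _ => ?_
    rw [← Finset.smul_sum, Finset.sum_comm]
    have h5 : ∑ v ∈ ρᶜ, ∑ σ : Finset V, sg v ρ • (if insert v ρ = σ then a σ else 0) =
        ∑ v ∈ ρᶜ, sg v ρ • a (insert v ρ) := by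
      refine Finset.sum_congr rfl fun v _ => ?_
      rw [← Finset.smul_sum, Finset.sum_ite_eq, if_pos (mem_univ _)]
    rw [h5, hda ρ, smul_zero]
  rw [← h2, Finset.sum_congr rfl fun σ _ => h1 σ, Finset.sum_add_distrib, h3, add_zero]
  have h6 : ∀ σ : Finset V, (∑ v ∈ Sᶜ, sg v S * h (insert v S) σ) • a σ =
      ∑ v ∈ Sᶜ, sg v S • h (insert v S) σ • a σ := by
    intro σ
    rw [Finset.sum_smul]
    exact Finset.sum_congr rfl fun v _ => mul_smul _ _ _
  rw [Finset.sum_congr rfl fun σ _ => h6 σ, Finset.sum_comm]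
  exact Finset.sum_congr rfl fun v _ => by rw [Finset.smul_sum]

end lin

section tr

variable {V : Type} [Fintype V] [LinearOrder V]

/-- the first copy -/
def io : V ↪ V ×ₗ Bool := ⟨fun v => toLex (v, false), fun a b h => by
  have := congrArg (fun x => (ofLex x).1) h
  simpa using this⟩

/-- the vertices under a cell -/
def dn (T : Finset (V ×ₗ Bool)) : Finset V := T.image fun x => (ofLex x).1

/-- only first copies -/
def pure' (T : Finset (V ×ₗ Bool)) : Prop := ∀ x ∈ T, (ofLex x).2 = false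

theorem mem_map_io {σ : Finset V} {v : V} : io v ∈ σ.map io ↔ v ∈ σ := by
  rw [Finset.mem_map' io]

theorem pure_map (σ : Finset V) : pure' (σ.map io) := by
  intro x hx
  obtain ⟨v, _, rfl⟩ := Finset.mem_map.1 hx
  rfl

theorem dn_map (σ : Finset V) : dn (σ.map io) = σ := by
  ext v
  simp only [dn, mem_image, Finset.mem_map]
  constructor
  · rintro ⟨x, ⟨w, hw, rfl⟩, rfl⟩; exact hw
  · intro hv; exact ⟨io v, ⟨v, hv, rfl⟩, rfl⟩

theorem map_dn {T : Finset (V ×ₗ Bool)} (hT : pure' T) : (dn T).map io = T := by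
  ext x
  simp only [dn, mem_image, Finset.mem_map]
  constructor
  · rintro ⟨v, ⟨y, hy, rfl⟩, rfl⟩
    have h1 := hT y hy
    have : io (ofLex y).1 = y := by
      show toLex ((ofLex y).1, false) = y
      rw [← h1]; rfl
    rw [this]; exact hy
  · intro hx
    refine ⟨(ofLex x).1, ⟨x, hx, rfl⟩, ?_⟩
    show toLex ((ofLex x).1, false) = x
    rw [← hT x hx]; rfl

theorem sg_io (v : V) (σ : Finset V) : sg (io v) (σ.map io) = sg v σ := by
  unfold sg
  congr 1
  have h1 : (σ.map io).filter (fun u => u < io v) = (σ.filter (fun u => u < v)).map io := by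
    ext x
    simp only [mem_filter, Finset.mem_map]
    constructor
    · rintro ⟨⟨w, hw, rfl⟩, hx⟩
      refine ⟨w, ⟨hw, ?_⟩, rfl⟩
      have h2 : toLex (w, false) < toLex (v, false) := hx
      rw [Prod.Lex.toLex_lt_toLex] at h2
      rcases h2 with h2 | ⟨_, h2⟩
      · exact h2
      · exact absurd h2 (lt_irrefl _)
    · rintro ⟨w, ⟨hw, hlt⟩, rfl⟩
      refine ⟨⟨w, hw, rfl⟩, ?_⟩
      show toLex (w, false) < toLex (v, false)
      rw [Prod.Lex.toLex_lt_toLex]
      exact Or.inl hlt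
  rw [h1, Finset.card_map]

theorem bdf_map (G : SimpleGraph V) {R : Type} [Ring R] (F : Finset (V ×ₗ Bool) → W (Oc G) → R)
    (hF : ∀ T, ¬ pure' T → F T = 0) (σ : Finset V) (w : W (Oc G)) :
    bdf (Oc G) F (σ.map io) w = ∑ v ∈ σᶜ, sg v σ • F ((insert v σ).map io) w := by
  unfold bdf
  have h1 : ∑ x ∈ (σ.map io)ᶜ, sg x (σ.map io) • F (insert x (σ.map io)) w =
      ∑ x ∈ (σᶜ).map io, sg x (σ.map io) • F (insert x (σ.map io)) w := by
    symm
    apply Finset.sum_subset
    · intro x hx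
      obtain ⟨v, hv, rfl⟩ := Finset.mem_map.1 hx
      rw [mem_compl, mem_map_io]
      exact mem_compl.1 hv
    · intro x hx hx2
      have h2 : ¬ pure' (insert x (σ.map io)) := by
        intro hp
        have h3 : (ofLex x).2 = false := hp x (mem_insert_self _ _)
        have h4 : x = io (ofLex x).1 := by
          show x = toLex ((ofLex x).1, false)
          rw [← h3]; rfl
        apply hx2
        rw [h4]
        rw [h4, mem_compl, mem_map_io] at hx
        exact Finset.mem_map_of_mem io (mem_compl.2 hx)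
      rw [hF _ h2]
      simp
  rw [h1, Finset.sum_map]
  refine Finset.sum_congr rfl fun v _ => ?_
  rw [sg_io, Finset.map_insert]

end tr

section mem

variable {V : Type} [Fintype V] [LinearOrder V] {G : SimpleGraph V} {R : Type} [Ring R]
  {K : Subgroup (W G)} {u : K →* R} {Y : Set (W G)} {E : Subgroup (W G × ℤˣ)}

/-- closure under combinations -/
theorem mem_comb {ι : Type} [Fintype ι] (z : ι → ℤ) (f : ι → W G → R) (hf : ∀ j, InM K u Y E (f j))
    (r : R) (hr : ∀ x : R, x * r = r * x) :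
    InM K u Y E (fun w => (∑ j, z j • f j w) * r) := by
  classical
  have hne : ∀ w, (∑ j, z j • f j w) * r ≠ 0 → ∃ j, f j w ≠ 0 := by
    intro w hw
    by_contra hcon
    push Not at hcon
    apply hw
    rw [Finset.sum_eq_zero fun j _ => by rw [hcon j, smul_zero], zero_mul]
  refine ⟨fun w hw => ?_, fun p hp w => ?_, fun h w => ?_, ?_⟩
  · obtain ⟨j, hj⟩ := hne w hw
    exact (hf j).supp w hj
  · show (∑ j, z j • f j (w * p.1)) * r = ((p.2 : ℤˣ) : ℤ) • ((∑ j, z j • f j w) * r)
    rw [← smul_mul_assoc, Finset.smul_sum]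
    congr 1
    refine Finset.sum_congr rfl fun j _ => ?_
    rw [(hf j).eqE p hp w, smul_comm]
  · show (∑ j, z j • f j (h * w)) * r = (∑ j, z j • f j w) * r * u h⁻¹
    rw [mul_assoc, ← hr (u h⁻¹), ← mul_assoc]
    congr 1
    rw [Finset.sum_mul]
    refine Finset.sum_congr rfl fun j _ => ?_
    rw [(hf j).eqK h w, smul_mul_assoc]
  · choose S hS using fun j => (hf j).fin
    refine ⟨Finset.univ.biUnion S, fun w hw => ?_⟩
    obtain ⟨j, hj⟩ := hne w hw
    obtain ⟨h, x, hx, p, hp, e⟩ := hS j w hj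
    exact ⟨h, x, mem_biUnion.2 ⟨j, mem_univ j, hx⟩, p, hp, e⟩

end mem

end Pool.Agent.H6.RA.BA

namespace Pool.Agent.H6.RA

open Pool.Agent.W907.SG Pool.Agent.W461.SGN Pool.Agent.N496.CV Finset BA

theorem base : S_BASE := by
  intro V _ _ G R _ K u Y E C i hR hA c hc hbc
  classical
  obtain ⟨N, h, k, hN, hsupp, hid⟩ := exists_int G C i hA
  obtain ⟨r, hr⟩ := hR N hN
  have hrc : ∀ x : R, x * (↑r⁻¹ : R) = (↑r⁻¹ : R) * x := by
    intro x
    have h1 : Commute (r : R) x := by rw [hr]; exact Nat.cast_commute N x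
    exact (h1.units_inv_left).symm.eq
  -- the new chain
  set b : Finset V → W (Oc G) → R := fun S w => (∑ σ : Finset V, h S σ • c (σ.map io) w) * (↑r⁻¹ : R) with hb
  have hb0 : ∀ S : Finset V, ¬ (G.IsClique (S : Set V) ∧ (S : Set V) ⊆ C ∧ S.card = i + 1) → b S = 0 := by
    intro S hS
    funext w
    simp only [hb]
    rw [Finset.sum_eq_zero fun σ _ => by rw [hsupp S σ hS, zero_smul], zero_mul]
    rfl
  have hbm : ∀ S, InM K u Y E (b S) := fun S =>
    mem_comb (fun σ => h S σ) (fun σ => c (σ.map io)) (fun σ => hc.mem _) _ hrc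
  have hb00 : InM K u Y E (0 : W (Oc G) → R) := by
    have := mem_comb (K := K) (u := u) (Y := Y) (E := E) (ι := Empty) (fun _ => 0) (fun _ => 0)
      (fun j => j.elim) (1 : R) (fun x => by simp)
    have h2 : (fun w : W (Oc G) => (∑ j : Empty, (0 : ℤ) • (0 : W (Oc G) → R) w) * (1 : R)) = 0 := by
      funext w; simp
    rw [← h2]; exact this
  set e : Finset (V ×ₗ Bool) → W (Oc G) → R := fun T => if pure' T then b (dn T) else 0 with he
  have hcp : ∀ T, ¬ pure' T → c T = 0 := by
    intro T hT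
    apply hc.supp
    rintro ⟨_, h2, _⟩
    exact hT fun x hx => (h2 x hx).2 (h2 x hx).1
  have hep : ∀ T, ¬ pure' T → e T = 0 := fun T hT => by
    simp only [he]; rw [if_neg hT]
  have hemap : ∀ σ : Finset V, e (σ.map io) = b σ := fun σ => by
    simp only [he]; rw [if_pos (pure_map σ), dn_map]
  refine ⟨e, ⟨?_, ?_, ?_⟩, ?_⟩
  · intro T hT
    by_cases hp : pure' T
    · simp only [he]
      rw [if_pos hp]
      apply hb0
      rintro ⟨h1, h2, h3⟩
      apply hT
      have hTm := map_dn hp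
      refine ⟨?_, ?_, ?_⟩
      · intro x hx y hy hxy
        show G.Adj (ofLex x).1 (ofLex y).1
        apply h1
        · exact mem_coe.2 (mem_image_of_mem _ (mem_coe.1 hx))
        · exact mem_coe.2 (mem_image_of_mem _ (mem_coe.1 hy))
        · intro hne
          apply hxy
          have e1 := hp x (mem_coe.1 hx)
          have e2 := hp y (mem_coe.1 hy)
          apply ofLex.injective
          exact Prod.ext hne (e1.trans e2.symm)
      · intro x hx
        exact ⟨h2 (mem_coe.2 (mem_image_of_mem _ hx)), fun _ => hp x hx⟩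
      · rw [← hTm, Finset.card_map]; exact h3
    · exact hep T hp
  · intro T
    by_cases hp : pure' T
    · simp only [he]; rw [if_pos hp]; exact hbm _
    · rw [hep T hp]; exact hb00
  · intro T x hx hxC w
    have h0 : e T = 0 := by
      by_cases hp : pure' T
      · simp only [he]
        rw [if_pos hp]
        apply hb0
        rintro ⟨_, h2, _⟩
        exact hxC (h2 (mem_coe.2 (mem_image_of_mem _ hx)))
      · exact hep T hp
    rw [h0]; simp
  · funext T w
    by_cases hp : pure' T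
    · obtain ⟨S, rfl⟩ : ∃ S : Finset V, T = S.map io := ⟨dn T, (map_dn hp).symm⟩
      rw [bdf_map G e hep]
      have key := apply_group (A := R) G C i (N := N) (h := h) (k := k) hid
        (fun σ => c (σ.map io) w) ?_ ?_ S
      · have e1 : ∑ v ∈ Sᶜ, sg v S • e ((insert v S).map io) w =
            (∑ v ∈ Sᶜ, sg v S • ∑ σ : Finset V, h (insert v S) σ • c (σ.map io) w) * (↑r⁻¹ : R) := by
          rw [Finset.sum_mul]
          refine Finset.sum_congr rfl fun v _ => ?_
          rw [hemap, smul_mul_assoc]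
        rw [e1, ← key, nsmul_eq_mul, ← hr, hrc, ← mul_assoc]
        simp
      · intro σ hσ
        show c (σ.map io) w = 0
        rw [hc.supp]
        · rfl
        rintro ⟨h1, h2, h3⟩
        apply hσ
        refine ⟨?_, ?_, ?_⟩
        · intro x hx y hy hxy
          have := h1 (mem_coe.2 (mem_map_io.2 (mem_coe.1 hx))) (mem_coe.2 (mem_map_io.2 (mem_coe.1 hy)))
            (fun he => hxy (io.injective he))
          exact this
        · intro x hx
          exact (h2 (io x) (mem_map_io.2 (mem_coe.1 hx))).1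
        · rw [Finset.card_map] at h3; exact h3
      · intro ρ
        have h1 := bdf_map G c hcp ρ w
        rw [hbc] at h1
        exact h1.symm
    · have h1 : c T = 0 := hcp T hp
      rw [h1]
      show ∑ x ∈ Tᶜ, sg x T • e (insert x T) w = 0
      refine Finset.sum_eq_zero fun x _ => ?_
      rw [hep]
      · simp
      · intro hp2
        exact hp fun y hy => hp2 y (mem_insert_of_mem hy)

end Pool.Agent.H6.RA
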