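import Pool.Agent.H6.RA.Stm
import Pool.Agent.H15.L.N496_CV_P_SUS

/-!
# Project RA (helper6): elementary lemmas on mixed chains
-/

set_option autoImplicit false
set_option linter.unusedSectionVars false

noncomputable section

namespace Pool.Agent.H6.RA

open Pool.Agent.W907.SG Pool.Agent.W461.SGN Pool.Agent.N496.CV
open Pool.Agent.N496.CV.PSUS (IM mem_IM bdf_apply bdf_bdf bdf_add bdf_sub)

section lex

variable {V : Type}

theorem eq_or {x : V ×ₗ Bool} {v : V} (h : (ofLex x).1 = v) : x = toLex (v, false) ∨ x = toLex (v, true) := by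
  have h1 : x = toLex ((ofLex x).1, (ofLex x).2) := rfl
  cases hb : (ofLex x).2 with
  | false => left; rw [h1, h, hb]
  | true => right; rw [h1, h, hb]

theorem ne_fst {x : V ×ₗ Bool} {v : V} (hs : x ≠ toLex (v, false)) (ht : x ≠ toLex (v, true)) : (ofLex x).1 ≠ v := by
  intro h
  rcases eq_or h with h | h
  · exact hs h
  · exact ht h

theorem s_ne_t (v : V) : (toLex (v, false) : V ×ₗ Bool) ≠ toLex (v, true) := by
  intro h
  have := congrArg (fun x : V ×ₗ Bool => (ofLex x).2) h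
  simp at this

variable [LinearOrder V]

theorem lt_iff {x : V ×ₗ Bool} {v : V} (hs : x ≠ toLex (v, false)) (ht : x ≠ toLex (v, true)) :
    (x < toLex (v, false) ↔ x < toLex (v, true)) ∧ (toLex (v, false) < x ↔ toLex (v, true) < x) := by
  have h := ne_fst hs ht
  have h1 : x = toLex ((ofLex x).1, (ofLex x).2) := rfl
  rw [h1, Prod.Lex.toLex_lt_toLex, Prod.Lex.toLex_lt_toLex, Prod.Lex.toLex_lt_toLex, Prod.Lex.toLex_lt_toLex]
  simp only [h, Ne.symm h, false_and, or_false, and_self]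

theorem sg_st {v : V} {T : Finset (V ×ₗ Bool)} (hs : toLex (v, false) ∉ T) (ht : toLex (v, true) ∉ T) :
    sg (toLex (v, true)) T = sg (toLex (v, false)) T := by
  unfold sg
  congr 2
  refine Finset.filter_congr fun x hx => ?_
  exact (lt_iff (fun h => hs (h ▸ hx)) (fun h => ht (h ▸ hx))).1.symm

theorem sg_ins_st {v : V} {x : V ×ₗ Bool} {T : Finset (V ×ₗ Bool)} (hs : toLex (v, false) ∉ T)
    (ht : toLex (v, true) ∉ T) (hx : x ≠ toLex (v, false)) (hx' : x ≠ toLex (v, true)) :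
    sg x (insert (toLex (v, true)) T) = sg x (insert (toLex (v, false)) T) := by
  rw [sg_insert _ _ _ hs, sg_insert _ _ _ ht]
  congr 1
  have h := (lt_iff hx hx').2
  by_cases h1 : (toLex (v, false) : V ×ₗ Bool) < x
  · rw [if_pos h1, if_pos (h.1 h1)]
  · rw [if_neg h1, if_neg (fun h2 => h1 (h.2 h2))]

end lex

section sums

variable {X : Type} [Fintype X] [DecidableEq X] {M : Type} [AddCommGroup M]

theorem sum_st {s t : X} {T : Finset X} (hst : s ≠ t) (hs : s ∉ T) (ht : t ∉ T) (f : X → M) :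
    ∑ x ∈ Tᶜ, f x = f s + (f t + ∑ x ∈ (Tᶜ.erase s).erase t, f x) := by
  rw [← Finset.add_sum_erase Tᶜ f (a := s) (by simpa using hs),
    ← Finset.add_sum_erase (Tᶜ.erase s) f (a := t) (by simpa using ⟨fun h => hst h.symm, ht⟩)]

theorem compl_ins {s : X} {T : Finset X} : (insert s T)ᶜ = Tᶜ.erase s := by
  ext x
  simp

theorem sum_s {s t : X} {T : Finset X} (hst : s ≠ t) (ht : t ∉ T) (f : X → M) :
    ∑ x ∈ (insert s T)ᶜ, f x = f t + ∑ x ∈ (Tᶜ.erase s).erase t, f x := by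
  rw [compl_ins, ← Finset.add_sum_erase (Tᶜ.erase s) f (a := t) (by simpa using ⟨fun h => hst h.symm, ht⟩)]

theorem sum_t {s t : X} {T : Finset X} (hst : s ≠ t) (hs : s ∉ T) (f : X → M) :
    ∑ x ∈ (insert t T)ᶜ, f x = f s + ∑ x ∈ (Tᶜ.erase s).erase t, f x := by
  rw [compl_ins, Finset.erase_right_comm,
    ← Finset.add_sum_erase (Tᶜ.erase t) f (a := s) (by simpa using ⟨hst, hs⟩)]

theorem mem_B {s t : X} {T : Finset X} {x : X} (hx : x ∈ (Tᶜ.erase s).erase t) : x ∉ T ∧ x ≠ s ∧ x ≠ t := by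
  simp only [Finset.mem_erase, Finset.mem_compl] at hx
  exact ⟨hx.2.2, hx.2.1, hx.1⟩

end sums

section ty

variable {V : Type}

/-- the cells of the mixed chains -/
def Ty (G : SimpleGraph V) (C Z : Set V) (i : ℕ) (T : Finset (V ×ₗ Bool)) : Prop :=
  (Oc G).IsClique (T : Set (V ×ₗ Bool)) ∧ (∀ x ∈ T, (ofLex x).1 ∈ C ∧
    ((ofLex x).1 ∈ Z → (ofLex x).2 = false)) ∧ T.card = i

theorem Ty.mono {G : SimpleGraph V} {C C' Z Z' : Set V} {i : ℕ} {T : Finset (V ×ₗ Bool)} (h : Ty G C Z i T)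
    (hC : C ⊆ C') (hZ : Z' ⊆ Z) : Ty G C' Z' i T :=
  ⟨h.1, fun x hx => ⟨hC (h.2.1 x hx).1, fun hz => (h.2.1 x hx).2 (hZ hz)⟩, h.2.2⟩

variable [DecidableEq (V ×ₗ Bool)]

theorem Ty_ins {G : SimpleGraph V} {C Z : Set V} {i : ℕ} {v : V} {b : Bool} {T : Finset (V ×ₗ Bool)}
    (hs : toLex (v, false) ∉ T) (ht : toLex (v, true) ∉ T) (hv : v ∈ C) (hb : v ∈ Z → b = false) :
    Ty G C Z (i + 1) (insert (toLex (v, b)) T) ↔ Ty G (C ∩ G.neighborSet v) Z i T := by
  have hbT : toLex (v, b) ∉ T := by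
    cases b
    · exact hs
    · exact ht
  unfold Ty
  rw [Finset.coe_insert, SimpleGraph.isClique_insert, Finset.card_insert_of_notMem hbT]
  constructor
  · rintro ⟨⟨h1, h2⟩, h3, h4⟩
    refine ⟨h1, fun x hx => ⟨⟨(h3 x (Finset.mem_insert_of_mem hx)).1, ?_⟩, (h3 x (Finset.mem_insert_of_mem hx)).2⟩,
      by omega⟩
    exact h2 x hx (fun h => hbT (h ▸ hx))
  · rintro ⟨h1, h3, h4⟩
    refine ⟨⟨h1, fun x hx _ => (h3 x hx).1.2⟩, fun x hx => ?_, by omega⟩
    rcases Finset.mem_insert.1 hx with rfl | hx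
    · exact ⟨hv, hb⟩
    · exact ⟨(h3 x hx).1.1, (h3 x hx).2⟩

theorem Ty_not {G : SimpleGraph V} {C Z : Set V} {i : ℕ} {v : V} {T : Finset (V ×ₗ Bool)}
    (hs : toLex (v, false) ∈ T) (ht : toLex (v, true) ∈ T) : ¬ Ty G C Z i T := by
  intro h
  have h1 : (Oc G).Adj (toLex (v, false)) (toLex (v, true)) := h.1 hs ht (s_ne_t v)
  exact G.loopless.irrefl v h1

theorem Ty_not_nb {G : SimpleGraph V} {C Z : Set V} {i : ℕ} {v : V} {T : Finset (V ×ₗ Bool)}
    (h : toLex (v, false) ∈ T ∨ toLex (v, true) ∈ T) : ¬ Ty G (C ∩ G.neighborSet v) Z i T := by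
  intro h1
  rcases h with h | h
  · exact G.loopless.irrefl v (h1.2.1 _ h).1.2
  · exact G.loopless.irrefl v (h1.2.1 _ h).1.2

theorem Ty_Z {G : SimpleGraph V} {C Z : Set V} {i : ℕ} {v : V} {T : Finset (V ×ₗ Bool)}
    (h : toLex (v, true) ∈ T) (hv : v ∈ Z) : ¬ Ty G C Z i T := by
  intro h1
  have := (h1.2.1 _ h).2 hv
  simp at this

end ty

section link

variable {V : Type} [Fintype V] [LinearOrder V] {G : SimpleGraph V} {R : Type} [AddCommGroup R]

/-- the part of a chain at `(v, b)`, as a chain of the link -/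
def lkc (v : V) (b : Bool) (e : Finset (V ×ₗ Bool) → W (Oc G) → R) (T : Finset (V ×ₗ Bool)) : W (Oc G) → R :=
  if toLex (v, false) ∈ T ∨ toLex (v, true) ∈ T then 0 else sg (toLex (v, false)) T • e (insert (toLex (v, b)) T)

theorem lkc_of {v : V} {b : Bool} {e : Finset (V ×ₗ Bool) → W (Oc G) → R} {T : Finset (V ×ₗ Bool)}
    (hs : toLex (v, false) ∉ T) (ht : toLex (v, true) ∉ T) :
    lkc v b e T = sg (toLex (v, false)) T • e (insert (toLex (v, b)) T) := by
  unfold lkc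
  rw [if_neg]
  rintro (h | h)
  · exact hs h
  · exact ht h

theorem lkc_not {v : V} {b : Bool} {e : Finset (V ×ₗ Bool) → W (Oc G) → R} {T : Finset (V ×ₗ Bool)}
    (h : toLex (v, false) ∈ T ∨ toLex (v, true) ∈ T) : lkc v b e T = 0 := if_pos h

theorem bdf_lkc {v : V} {b : Bool} {e : Finset (V ×ₗ Bool) → W (Oc G) → R}
    (he : ∀ T : Finset (V ×ₗ Bool), toLex (v, false) ∈ T → toLex (v, true) ∈ T → e T = 0)
    {T : Finset (V ×ₗ Bool)} (hs : toLex (v, false) ∉ T) (ht : toLex (v, true) ∉ T) :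
    bdf (Oc G) (lkc v b e) T = - (sg (toLex (v, false)) T • bdf (Oc G) e (insert (toLex (v, b)) T)) := by
  classical
  have hst := s_ne_t v
  rw [bdf_apply, bdf_apply, sum_st hst hs ht, lkc_not (Or.inl (Finset.mem_insert_self _ _)),
    lkc_not (Or.inr (Finset.mem_insert_self _ _)), smul_zero, smul_zero, zero_add, zero_add]
  have key : ∑ x ∈ (insert (toLex (v, b)) T)ᶜ, sg x (insert (toLex (v, b)) T) • e (insert x (insert (toLex (v, b)) T)) =
      ∑ x ∈ (Tᶜ.erase (toLex (v, false))).erase (toLex (v, true)),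
        sg x (insert (toLex (v, b)) T) • e (insert x (insert (toLex (v, b)) T)) := by
    cases b with
    | false =>
      rw [sum_s hst ht, he _ (by simp) (by simp), smul_zero, zero_add]
    | true =>
      rw [sum_t hst hs, he _ (by simp) (by simp), smul_zero, zero_add]
  rw [key, Finset.smul_sum, ← Finset.sum_neg_distrib]
  refine Finset.sum_congr rfl fun x hx => ?_
  obtain ⟨hxT, hxs, hxt⟩ := mem_B hx
  have hsx : toLex (v, false) ∉ insert x T := by
    rw [Finset.mem_insert, not_or]; exact ⟨hxs.symm, hs⟩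
  have htx : toLex (v, true) ∉ insert x T := by
    rw [Finset.mem_insert, not_or]; exact ⟨hxt.symm, ht⟩
  rw [lkc_of hsx htx, smul_smul, smul_smul, Finset.insert_comm, ← neg_smul]
  congr 1
  have h1 := sg_swap (toLex (v, false)) x T hxs.symm hs hxT
  have h2 : sg x (insert (toLex (v, b)) T) = sg x (insert (toLex (v, false)) T) := by
    cases b with
    | false => rfl
    | true => exact sg_ins_st hs ht hxs hxt
  rw [h2, mul_comm (sg x T), h1, mul_comm (sg (toLex (v, false)) T)]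

theorem bdf_lkc_not {v : V} {b : Bool} {e : Finset (V ×ₗ Bool) → W (Oc G) → R}
    {T : Finset (V ×ₗ Bool)} (h : toLex (v, false) ∈ T ∨ toLex (v, true) ∈ T) :
    bdf (Oc G) (lkc v b e) T = 0 := by
  rw [bdf_apply]
  refine Finset.sum_eq_zero fun x _ => ?_
  rw [lkc_not, smul_zero]
  rcases h with h | h
  · exact Or.inl (Finset.mem_insert_of_mem h)
  · exact Or.inr (Finset.mem_insert_of_mem h)

end link

end Pool.Agent.H6.RA
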