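import Pool.Agent.H6.RA.Bas

/-!
# Project RA (helper6): removing a vertex from `Z`
-/

set_option autoImplicit false
set_option linter.unusedSectionVars false

noncomputable section

namespace Pool.Agent.H6.RA

open Pool.Agent.W907.SG Pool.Agent.W461.SGN Pool.Agent.N496.CV
open Pool.Agent.N496.CV.PSUS (IM mem_IM bdf_apply bdf_bdf bdf_add bdf_sub half anti_split anti_lift phi_sum
  ker_split)

section facts

variable {V : Type} [Fintype V] [LinearOrder V] {G : SimpleGraph V} {R : Type} [Ring R]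
  {K : Subgroup (W (Oc G))} {u : K →* R} {Y : Set (W (Oc G))} {E : Subgroup (W (Oc G) × ℤˣ)} {C Z : Set V} {i : ℕ}
  {c : Finset (V ×ₗ Bool) → W (Oc G) → R}

theorem ChZ.zero (h : ChZ K u Y E C Z i c) {T : Finset (V ×ₗ Bool)} (hT : ¬ Ty G C Z i T) : c T = 0 := h.supp T hT

theorem ChZ.bd_mem (h : ChZ K u Y E C Z i c) (T : Finset (V ×ₗ Bool)) : InM K u Y E (bdf (Oc G) c T) := by
  rw [bdf_apply]
  exact (IM K u Y E).sum_mem fun x _ => (IM K u Y E).zsmul_mem (mem_IM.2 (h.mem _)) _

theorem ChZ.bd_anti (h : ChZ K u Y E C Z i c) (T : Finset (V ×ₗ Bool)) {x : V ×ₗ Bool} (hx : x ∈ T)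
    (hZ : (ofLex x).1 ∉ Z) (w : W (Oc G)) :
    bdf (Oc G) c T (w * (cox (Oc G)).simple x) = - bdf (Oc G) c T w := by
  simp only [bdf]
  rw [← Finset.sum_neg_distrib]
  refine Finset.sum_congr rfl fun y _ => ?_
  rw [h.anti (insert y T) x (Finset.mem_insert_of_mem hx) hZ w, smul_neg]

theorem ChZ.bd_supp (h : ChZ K u Y E C Z (i + 1) c) {T : Finset (V ×ₗ Bool)} (hT : ¬ Ty G C Z i T) :
    bdf (Oc G) c T = 0 := by
  rw [bdf_apply]
  refine Finset.sum_eq_zero fun x hx => ?_
  rw [h.zero, smul_zero]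
  rintro ⟨h1, h2, h3⟩
  apply hT
  refine ⟨h1.subset (by simp), fun y hy => h2 y (Finset.mem_insert_of_mem hy), ?_⟩
  rw [Finset.card_insert_of_notMem (by simpa using hx)] at h3
  omega

end facts

/-- the step, with the pair `(Y', E')` of the orbits of the infinite dihedral group at the vertex -/
theorem step2 (h1 : INJ) (h2 : FINP) (h3 : FREEP) (h4 : GDD) (V : Type) [Fintype V] [LinearOrder V]
    (G : SimpleGraph V) (R : Type) [Ring R] (K : Subgroup (W (Oc G))) (u : K →* R) (Y : Set (W (Oc G)))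
    (E : Subgroup (W (Oc G) × ℤˣ)) (C Z : Set V) (i : ℕ) (v : V) (hR : Rg K u) (hG : Good K (up C) Y E) (hvC : v ∈ C)
    (hvZ : v ∉ Z) (IH1 : HvZ K u Y E C (insert v Z) i)
    (IH2 : HvZ K u (fr K Y (addD E (toLex (v, false)) (toLex (v, true)))) (addD E (toLex (v, false)) (toLex (v, true)))
      (C ∩ G.neighborSet v) Z i) : HvZ K u Y E C Z i := by
  classical
  intro c hc hbc
  obtain ⟨s, hs⟩ : ∃ s : V ×ₗ Bool, s = toLex (v, false) := ⟨_, rfl⟩
  obtain ⟨t, ht⟩ : ∃ t : V ×ₗ Bool, t = toLex (v, true) := ⟨_, rfl⟩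
  rw [← hs, ← ht] at IH2
  have hst : s ≠ t := by rw [hs, ht]; exact s_ne_t v
  have hsv : (ofLex s).1 = v := by rw [hs]; rfl
  have htv : (ofLex t).1 = v := by rw [ht]; rfl
  have hna : ¬ (Oc G).Adj s t := by
    intro h
    have h' : G.Adj (ofLex s).1 (ofLex t).1 := h
    rw [hsv, htv] at h'
    exact G.loopless.irrefl v h'
  have hsL : s ∈ up C := by show (ofLex s).1 ∈ C; rw [hsv]; exact hvC
  have htL : t ∈ up C := by show (ofLex t).1 ∈ C; rw [htv]; exact hvC
  have hN : ∀ x ∈ up (C ∩ G.neighborSet v), x ∈ up C ∧ (Oc G).Adj s x ∧ (Oc G).Adj t x := by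
    intro x hx
    refine ⟨hx.1, ?_, ?_⟩
    · show G.Adj (ofLex s).1 _
      rw [hsv]; exact hx.2
    · show G.Adj (ofLex t).1 _
      rw [htv]; exact hx.2
  obtain ⟨Φ, Φmem, Φadd, Φneg, Φ0, Φcomm, Φkill, Φsurj, Φker⟩ :=
    h3 (V ×ₗ Bool) (Oc G) K R u (up C) Y E s t hR hG hsL htL hst hna
  obtain ⟨k, hk, hk2⟩ := half hR
  have hG' := h4 (V ×ₗ Bool) (Oc G) K (up C) (up (C ∩ G.neighborSet v)) Y E s t hG hsL htL
    (fun x hx => (hN x hx).1) (fun x hx => (hN x hx).2)
  have hcz : ∀ T : Finset (V ×ₗ Bool), s ∈ T → t ∈ T → c T = 0 := fun T h5 h6 =>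
    hc.zero (Ty_not (hs ▸ h5) (ht ▸ h6))
  -- the image in the chains with `v` in `Z`
  let φ : Finset (V ×ₗ Bool) → W (Oc G) → R := fun T =>
    if s ∈ T then (if t ∈ T then 0 else c T + c (insert t (T.erase s))) else if t ∈ T then 0 else c T
  have φst : ∀ T : Finset (V ×ₗ Bool), t ∈ T → φ T = 0 := by
    intro T h5
    show (if s ∈ T then (if t ∈ T then 0 else c T + c (insert t (T.erase s))) else if t ∈ T then 0 else c T) = 0
    rw [if_pos h5, if_pos h5, ite_self]
  have φs : ∀ T : Finset (V ×ₗ Bool), s ∉ T → t ∉ T → φ (insert s T) = c (insert s T) + c (insert t T) := by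
    intro T h5 h6
    show (if s ∈ insert s T then (if t ∈ insert s T then 0 else c (insert s T) + c (insert t ((insert s T).erase s)))
      else if t ∈ insert s T then 0 else c (insert s T)) = _
    rw [if_pos (Finset.mem_insert_self _ _), if_neg, Finset.erase_insert h5]
    rw [Finset.mem_insert, not_or]
    exact ⟨hst.symm, h6⟩
  have φn : ∀ T : Finset (V ×ₗ Bool), s ∉ T → t ∉ T → φ T = c T := by
    intro T h5 h6
    show (if s ∈ T then (if t ∈ T then 0 else c T + c (insert t (T.erase s))) else if t ∈ T then 0 else c T) = _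
    rw [if_neg h5, if_neg h6]
  have hφ : ChZ K u Y E C (insert v Z) i φ := by
    refine ⟨fun T hT => ?_, fun T => ?_, fun T x hx hxZ w => ?_⟩
    · by_cases h6 : t ∈ T
      · exact φst T h6
      · by_cases h5 : s ∈ T
        · obtain ⟨ρ, hρ⟩ : ∃ ρ, ρ = T.erase s := ⟨_, rfl⟩
          have hsρ : s ∉ ρ := by rw [hρ]; simp
          have htρ : t ∉ ρ := by rw [hρ]; simp [h6]
          have hTρ : T = insert s ρ := by rw [hρ, Finset.insert_erase h5]
          rw [hTρ, φs ρ hsρ htρ]
          rcases Nat.eq_zero_or_pos i with h0 | h0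
          · rw [hc.zero, hc.zero, add_zero]
            · intro h7
              have := h7.2.2
              rw [Finset.card_insert_of_notMem htρ] at this
              omega
            · intro h7
              have := h7.2.2
              rw [Finset.card_insert_of_notMem hsρ] at this
              omega
          · obtain ⟨j, rfl⟩ : ∃ j, i = j + 1 := ⟨i - 1, by omega⟩
            have h7 : ¬ Ty G (C ∩ G.neighborSet v) Z j ρ := by
              intro h8
              apply hT
              rw [hTρ, hs]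
              rw [hs] at hsρ
              rw [ht] at htρ
              refine (Ty_ins hsρ htρ hvC (fun _ => rfl)).2 ⟨h8.1, fun x hx => ⟨(h8.2.1 x hx).1, ?_⟩, h8.2.2⟩
              rintro (h9 | h9)
              · exact absurd h9 (ne_fst (fun h => hsρ (h ▸ hx)) (fun h => htρ (h ▸ hx)))
              · exact (h8.2.1 x hx).2 h9
            rw [hc.zero, hc.zero, add_zero]
            · rw [ht]
              rw [hs] at hsρ
              rw [ht] at htρ
              exact fun h8 => h7 ((Ty_ins hsρ htρ hvC (fun h => absurd h hvZ)).1 h8)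
            · rw [hs]
              rw [hs] at hsρ
              rw [ht] at htρ
              exact fun h8 => h7 ((Ty_ins hsρ htρ hvC (fun h => absurd h hvZ)).1 h8)
        · rw [φn T h5 h6]
          refine hc.zero fun h7 => hT ⟨h7.1, fun x hx => ⟨(h7.2.1 x hx).1, ?_⟩, h7.2.2⟩
          rintro (h9 | h9)
          · exact absurd h9 (ne_fst (fun h => h5 (by rw [hs, ← h]; exact hx)) (fun h => h6 (by rw [ht, ← h]; exact hx)))
          · exact (h7.2.1 x hx).2 h9
    · show InM K u Y E (if s ∈ T then (if t ∈ T then 0 else c T + c (insert t (T.erase s))) else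
        if t ∈ T then 0 else c T)
      split_ifs
      · exact mem_IM.1 (IM K u Y E).zero_mem
      · exact mem_IM.1 ((IM K u Y E).add_mem (mem_IM.2 (hc.mem _)) (mem_IM.2 (hc.mem _)))
      · exact mem_IM.1 (IM K u Y E).zero_mem
      · exact hc.mem _
    · have hxv : (ofLex x).1 ≠ v := fun h => hxZ (Or.inl h)
      have hxZ' : (ofLex x).1 ∉ Z := fun h => hxZ (Or.inr h)
      have hxs : x ≠ s := fun h => hxv (by rw [h, hsv])
      by_cases h6 : t ∈ T
      · rw [φst T h6]; simp
      · by_cases h5 : s ∈ T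
        · obtain ⟨ρ, hρ⟩ : ∃ ρ, ρ = T.erase s := ⟨_, rfl⟩
          have hsρ : s ∉ ρ := by rw [hρ]; simp
          have htρ : t ∉ ρ := by rw [hρ]; simp [h6]
          have hTρ : T = insert s ρ := by rw [hρ, Finset.insert_erase h5]
          have hxρ : x ∈ ρ := by rw [hρ]; exact Finset.mem_erase.2 ⟨hxs, hx⟩
          rw [hTρ, φs ρ hsρ htρ, Pi.add_apply, Pi.add_apply,
            hc.anti (insert s ρ) x (Finset.mem_insert_of_mem hxρ) hxZ' w,
            hc.anti (insert t ρ) x (Finset.mem_insert_of_mem hxρ) hxZ' w]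
          abel
        · rw [φn T h5 h6]
          exact hc.anti T x hx hxZ' w
  have hsg : ∀ ρ : Finset (V ×ₗ Bool), s ∉ ρ → t ∉ ρ → sg t ρ = sg s ρ := by
    intro ρ h5 h6
    rw [hs, ht]
    rw [hs] at h5
    rw [ht] at h6
    exact sg_st h5 h6
  have hsgx : ∀ (ρ : Finset (V ×ₗ Bool)) (x : V ×ₗ Bool), s ∉ ρ → t ∉ ρ → x ≠ s → x ≠ t →
      sg x (insert t ρ) = sg x (insert s ρ) := by
    intro ρ x h5 h6 h7 h8
    rw [hs, ht]
    rw [hs] at h5 h7
    rw [ht] at h6 h8
    exact sg_ins_st h5 h6 h7 h8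
  have hbφ : bdf (Oc G) φ = 0 := by
    funext T
    show bdf (Oc G) φ T = 0
    by_cases h6 : t ∈ T
    · rw [bdf_apply]
      exact Finset.sum_eq_zero fun x _ => by rw [φst _ (Finset.mem_insert_of_mem h6), smul_zero]
    · by_cases h5 : s ∈ T
      · obtain ⟨ρ, hρ⟩ : ∃ ρ, ρ = T.erase s := ⟨_, rfl⟩
        have hsρ : s ∉ ρ := by rw [hρ]; simp
        have htρ : t ∉ ρ := by rw [hρ]; simp [h6]
        have hTρ : T = insert s ρ := by rw [hρ, Finset.insert_erase h5]
        have e1 : bdf (Oc G) c (insert s ρ) = 0 := by rw [hbc]; rfl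
        have e2 : bdf (Oc G) c (insert t ρ) = 0 := by rw [hbc]; rfl
        rw [bdf_apply, sum_s hst htρ, hcz _ (by simp) (by simp), smul_zero, zero_add] at e1
        rw [bdf_apply, sum_t hst hsρ, hcz _ (by simp) (by simp), smul_zero, zero_add] at e2
        rw [hTρ, bdf_apply, sum_s hst htρ, φst _ (by simp), smul_zero, zero_add]
        have e3 : ∑ x ∈ (ρᶜ.erase s).erase t, sg x (insert s ρ) • φ (insert x (insert s ρ)) =
            ∑ x ∈ (ρᶜ.erase s).erase t, sg x (insert s ρ) • c (insert x (insert s ρ)) +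
            ∑ x ∈ (ρᶜ.erase s).erase t, sg x (insert t ρ) • c (insert x (insert t ρ)) := by
          rw [← Finset.sum_add_distrib]
          refine Finset.sum_congr rfl fun x hx => ?_
          obtain ⟨hxρ, hxs, hxt⟩ := mem_B hx
          rw [Finset.insert_comm x s, φs (insert x ρ) (by simp [hxs.symm, hsρ]) (by simp [hxt.symm, htρ]),
            hsgx ρ x hsρ htρ hxs hxt, smul_add, Finset.insert_comm t x]
        rw [e3, e1, e2, add_zero]
      · have e1 : bdf (Oc G) c T = 0 := by rw [hbc]; rfl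
        rw [bdf_apply, sum_st hst h5 h6, hsg T h5 h6, ← add_assoc, ← smul_add] at e1
        rw [bdf_apply, sum_st hst h5 h6, φs T h5 h6, φst _ (Finset.mem_insert_self _ _), smul_zero, zero_add]
        rw [← e1]
        congr 1
        refine Finset.sum_congr rfl fun x hx => ?_
        obtain ⟨hxρ, hxs, hxt⟩ := mem_B hx
        rw [φn (insert x T) (by simp [hxs.symm, h5]) (by simp [hxt.symm, h6])]
  obtain ⟨e', he', hbe'⟩ := IH1 φ hφ hbφ
  have he't : ∀ T : Finset (V ×ₗ Bool), t ∈ T → e' T = 0 := fun T h5 =>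
    he'.zero (Ty_Z (ht ▸ h5) (Or.inl rfl))
  have hbe'T : ∀ T, bdf (Oc G) e' T = φ T := fun T => by rw [hbe']
  -- the chain of the link
  obtain ⟨eb, heb⟩ : ∃ eb, eb = lkc v false e' := ⟨_, rfl⟩
  have heb1 : ∀ T : Finset (V ×ₗ Bool), s ∉ T → t ∉ T → eb T = sg s T • e' (insert s T) := by
    intro T h5 h6
    rw [heb, hs]
    rw [hs] at h5
    rw [ht] at h6
    exact lkc_of h5 h6
  have heb0 : ∀ T : Finset (V ×ₗ Bool), s ∈ T ∨ t ∈ T → eb T = 0 := by
    intro T h5
    rw [hs, ht] at h5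
    rw [heb]
    exact lkc_not h5
  have hbeb1 : ∀ T : Finset (V ×ₗ Bool), s ∉ T → t ∉ T →
      bdf (Oc G) eb T = - (sg s T • (c (insert s T) + c (insert t T))) := by
    intro T h5 h6
    have h7 := φs T h5 h6
    rw [← hbe'T] at h7
    rw [← h7, heb, hs]
    rw [hs] at h5
    rw [ht] at h6
    exact bdf_lkc (fun T' _ h9 => he't T' (ht ▸ h9)) h5 h6
  have hbeb0 : ∀ T : Finset (V ×ₗ Bool), s ∈ T ∨ t ∈ T → bdf (Oc G) eb T = 0 := by
    intro T h5
    rw [hs, ht] at h5
    rw [heb]
    exact bdf_lkc_not h5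
  have hebc : ChZ K u Y E (C ∩ G.neighborSet v) Z i eb := by
    refine ⟨fun T hT => ?_, fun T => ?_, fun T x hx hxZ w => ?_⟩
    · by_cases h5 : s ∈ T ∨ t ∈ T
      · exact heb0 T h5
      · rw [not_or] at h5
        rw [heb1 T h5.1 h5.2, he'.zero, smul_zero]
        rw [hs]
        intro h6
        apply hT
        have h7 := (Ty_ins (by rw [← hs]; exact h5.1) (by rw [← ht]; exact h5.2) hvC (fun _ => rfl)).1 h6
        exact h7.mono (Set.Subset.refl _) (fun x hx => Or.inr hx)
    · by_cases h5 : s ∈ T ∨ t ∈ T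
      · rw [heb0 T h5]
        exact mem_IM.1 (IM K u Y E).zero_mem
      · rw [not_or] at h5
        rw [heb1 T h5.1 h5.2]
        exact mem_IM.1 ((IM K u Y E).zsmul_mem (mem_IM.2 (he'.mem _)) _)
    · by_cases h5 : s ∈ T ∨ t ∈ T
      · rw [heb0 T h5]; simp
      · rw [not_or] at h5
        have hxv : (ofLex x).1 ≠ v := ne_fst (fun h => h5.1 (by rw [hs, ← h]; exact hx))
          (fun h => h5.2 (by rw [ht, ← h]; exact hx))
        rw [heb1 T h5.1 h5.2, Pi.smul_apply, Pi.smul_apply, he'.anti _ x (Finset.mem_insert_of_mem hx) (by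
          rintro (h6 | h6)
          · exact hxv h6
          · exact hxZ h6) w, smul_neg]
  -- its image
  have hTy : ∀ {j : ℕ} {T : Finset (V ×ₗ Bool)}, Ty G (C ∩ G.neighborSet v) Z j T → ∀ x ∈ T,
      x ∈ up C ∧ (Oc G).Adj s x ∧ (Oc G).Adj t x := fun {j T} h x hx => hN x (h.2.1 x hx).1
  have hΦch : ChZ K u (fr K Y (addD E s t)) (addD E s t) (C ∩ G.neighborSet v) Z i (fun T => Φ (eb T)) := by
    refine ⟨fun T hT => ?_, fun T => Φmem _ (hebc.mem T), fun T x hx hxZ w => ?_⟩
    · show Φ (eb T) = 0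
      rw [hebc.zero hT, Φ0]
    · show Φ (eb T) (w * (cox (Oc G)).simple x) = - Φ (eb T) w
      by_cases hT : Ty G (C ∩ G.neighborSet v) Z i T
      · obtain ⟨h5, h6, h7⟩ := hTy hT x hx
        rw [← Φcomm _ (hebc.mem T) x h5 h6 h7 w]
        have h8 : (fun y => eb T (y * (cox (Oc G)).simple x)) = - eb T := by
          funext y
          rw [hebc.anti T x hx hxZ y, Pi.neg_apply]
        rw [h8, Φneg _ (hebc.mem T), Pi.neg_apply]
      · rw [hebc.zero hT, Φ0]; simp
  have hbΦ : ∀ (d : Finset (V ×ₗ Bool) → W (Oc G) → R), (∀ T, InM K u Y E (d T)) → ∀ T,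
      bdf (Oc G) (fun T => Φ (d T)) T = Φ (bdf (Oc G) d T) := by
    intro d hd T
    rw [bdf_apply, bdf_apply, phi_sum Φ Φadd Φneg Φ0 T (fun x => d (insert x T)) (fun x => hd _)]
  have hsmem : ∀ (n : ℤ) (f : W (Oc G) → R), InM K u Y E f → InM K u Y E (n • f) := fun n f hf =>
    mem_IM.1 ((IM K u Y E).zsmul_mem (mem_IM.2 hf) n)
  have hΦb : bdf (Oc G) (fun T => Φ (eb T)) = 0 := by
    funext T
    show bdf (Oc G) (fun T => Φ (eb T)) T = 0
    rw [hbΦ eb hebc.mem]
    by_cases h5 : s ∈ T ∨ t ∈ T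
    · rw [hbeb0 T h5, Φ0]
    · rw [not_or] at h5
      rw [hbeb1 T h5.1 h5.2]
      have h6 : -(sg s T • (c (insert s T) + c (insert t T))) =
          (- sg s T) • c (insert s T) + (- sg s T) • c (insert t T) := by
        rw [neg_smul, neg_smul, smul_add, neg_add]
      rw [h6, Φadd _ _ (hsmem _ _ (hc.mem _)) (hsmem _ _ (hc.mem _)), Φkill _ (hsmem _ _ (hc.mem _)) (Or.inl ?_),
        Φkill _ (hsmem _ _ (hc.mem _)) (Or.inr ?_), add_zero]
      · intro w
        rw [Pi.smul_apply, Pi.smul_apply, hc.anti (insert t T) t (Finset.mem_insert_self _ _) (by rw [htv]; exact hvZ),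
          smul_neg]
      · intro w
        rw [Pi.smul_apply, Pi.smul_apply, hc.anti (insert s T) s (Finset.mem_insert_self _ _) (by rw [hsv]; exact hvZ),
          smul_neg]
  obtain ⟨g', hg', hbg'⟩ := IH2 _ hΦch hΦb
  -- the lift
  have hlift : ∀ T : Finset (V ×ₗ Bool), ∃ f : W (Oc G) → R, InM K u Y E f ∧ Φ f = g' T ∧
      (∀ x ∈ T, (ofLex x).1 ∉ Z → ∀ w, f (w * (cox (Oc G)).simple x) = - f w) ∧
      (¬ Ty G (C ∩ G.neighborSet v) Z (i + 1) T → f = 0) := by
    intro T
    by_cases hT : Ty G (C ∩ G.neighborSet v) Z (i + 1) T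
    · obtain ⟨f, hf, hfe⟩ := Φsurj (g' T) (hg'.mem T)
      obtain ⟨f', hf', hfe', hfa⟩ := anti_lift hG hk hk2 Φ Φadd Φneg Φcomm (g' T)
        (T.filter (fun x => (ofLex x).1 ∉ Z)) (fun x hx => hTy hT x (Finset.mem_filter.1 hx).1)
        (hT.1.subset (by intro x hx; exact (Finset.mem_filter.1 (Finset.mem_coe.1 hx)).1))
        (fun x hx => hg'.anti T x (Finset.mem_filter.1 hx).1 (Finset.mem_filter.1 hx).2) f hf hfe
      exact ⟨f', hf', hfe', fun x hx hxZ => hfa x (Finset.mem_filter.2 ⟨hx, hxZ⟩), fun h => absurd hT h⟩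
    · refine ⟨0, mem_IM.1 (IM K u Y E).zero_mem, ?_, fun x _ _ w => by simp, fun _ => rfl⟩
      rw [Φ0, hg'.zero hT]
  choose g hgm hgΦ hga hgs using hlift
  have hg : ChZ K u Y E (C ∩ G.neighborSet v) Z (i + 1) g := ⟨fun T hT => hgs T hT, hgm, hga⟩
  have hg0 : ∀ T : Finset (V ×ₗ Bool), s ∈ T ∨ t ∈ T → g T = 0 := by
    intro T h5
    rw [hs, ht] at h5
    exact hg.zero (Ty_not_nb h5)
  -- the difference
  obtain ⟨d, hd⟩ : ∃ d, d = eb - bdf (Oc G) g := ⟨_, rfl⟩
  have hdT : ∀ T, d T = eb T - bdf (Oc G) g T := fun T => by rw [hd]; rfl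
  have hdm : ∀ T, InM K u Y E (d T) := fun T => by
    rw [hdT]
    exact mem_IM.1 ((IM K u Y E).sub_mem (mem_IM.2 (hebc.mem T)) (mem_IM.2 (hg.bd_mem T)))
  have hda : ∀ T, ∀ x ∈ T, (ofLex x).1 ∉ Z → ∀ w, d T (w * (cox (Oc G)).simple x) = - d T w := by
    intro T x hx hxZ w
    rw [hdT, Pi.sub_apply, Pi.sub_apply, hebc.anti T x hx hxZ w, hg.bd_anti T hx hxZ w]
    abel
  have hd0 : ∀ T, ¬ Ty G (C ∩ G.neighborSet v) Z i T → d T = 0 := by
    intro T hT
    rw [hdT, hebc.zero hT, hg.bd_supp hT, sub_zero]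
  have hdΦ : ∀ T, Φ (d T) = 0 := by
    intro T
    have h5 : d T = eb T + - bdf (Oc G) g T := by rw [hdT, sub_eq_add_neg]
    have h6 := hg.bd_mem T
    have h7 : Φ (bdf (Oc G) g T) = Φ (eb T) := by
      rw [← hbΦ g hgm T]
      have h8 : (fun T => Φ (g T)) = g' := by
        funext T
        exact hgΦ T
      rw [h8, hbg']
    rw [h5, Φadd _ _ (hebc.mem T) (mem_IM.1 ((IM K u Y E).neg_mem (mem_IM.2 h6))), Φneg _ h6, h7, add_neg_cancel]
  have hsplit : ∀ T : Finset (V ×ₗ Bool), ∃ p q : W (Oc G) → R, InM K u Y E p ∧ InM K u Y E q ∧ d T = p + q ∧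
      (∀ w, p (w * (cox (Oc G)).simple s) = - p w) ∧ (∀ w, q (w * (cox (Oc G)).simple t) = - q w) ∧
      (∀ x ∈ T, (ofLex x).1 ∉ Z → ∀ w, p (w * (cox (Oc G)).simple x) = - p w) ∧
      (∀ x ∈ T, (ofLex x).1 ∉ Z → ∀ w, q (w * (cox (Oc G)).simple x) = - q w) ∧
      (¬ Ty G (C ∩ G.neighborSet v) Z i T → p = 0 ∧ q = 0) := by
    intro T
    by_cases hT : Ty G (C ∩ G.neighborSet v) Z i T
    · obtain ⟨p, q, hp, hq, hpq, hps, hqt⟩ := ker_split h2 hR hG hsL htL hst hna Φ Φadd Φkill Φker (d T)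
        (hdm T) (hdΦ T)
      obtain ⟨p', q', hp', hq', hpq', hps', hqt', hpT, hqT⟩ := anti_split hG hk hk2 (d T)
        (T.filter (fun x => (ofLex x).1 ∉ Z)) (fun x hx => hTy hT x (Finset.mem_filter.1 hx).1)
        (hT.1.subset (by intro x hx; exact (Finset.mem_filter.1 (Finset.mem_coe.1 hx)).1))
        (fun x hx => hda T x (Finset.mem_filter.1 hx).1 (Finset.mem_filter.1 hx).2) p q hp hq hpq hps hqt
      exact ⟨p', q', hp', hq', hpq', hps', hqt', fun x hx hxZ => hpT x (Finset.mem_filter.2 ⟨hx, hxZ⟩),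
        fun x hx hxZ => hqT x (Finset.mem_filter.2 ⟨hx, hxZ⟩), fun h => absurd hT h⟩
    · refine ⟨0, 0, mem_IM.1 (IM K u Y E).zero_mem, mem_IM.1 (IM K u Y E).zero_mem, ?_,
        fun w => by simp, fun w => by simp, fun x _ _ w => by simp, fun x _ _ w => by simp, fun _ => ⟨rfl, rfl⟩⟩
      rw [hd0 T hT, add_zero]
  choose p q hpm hqm hpq hps hqt hpx hqx hpq0 using hsplit
  -- the chain
  let e : Finset (V ×ₗ Bool) → W (Oc G) → R := fun T =>
    if s ∈ T then (if t ∈ T then 0 else sg s (T.erase s) • p (T.erase s))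
    else if t ∈ T then sg t (T.erase t) • q (T.erase t) else e' T + g T
  have est : ∀ T : Finset (V ×ₗ Bool), s ∈ T → t ∈ T → e T = 0 := by
    intro T h5 h6
    show (if s ∈ T then (if t ∈ T then 0 else sg s (T.erase s) • p (T.erase s))
      else if t ∈ T then sg t (T.erase t) • q (T.erase t) else e' T + g T) = 0
    rw [if_pos h5, if_pos h6]
  have es : ∀ T : Finset (V ×ₗ Bool), s ∉ T → t ∉ T → e (insert s T) = sg s T • p T := by
    intro T h5 h6
    show (if s ∈ insert s T then (if t ∈ insert s T then 0 else sg s ((insert s T).erase s) • p ((insert s T).erase s))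
      else if t ∈ insert s T then sg t ((insert s T).erase t) • q ((insert s T).erase t) else
        e' (insert s T) + g (insert s T)) = _
    rw [if_pos (Finset.mem_insert_self _ _), if_neg, Finset.erase_insert h5]
    rw [Finset.mem_insert, not_or]
    exact ⟨hst.symm, h6⟩
  have et : ∀ T : Finset (V ×ₗ Bool), s ∉ T → t ∉ T → e (insert t T) = sg t T • q T := by
    intro T h5 h6
    show (if s ∈ insert t T then (if t ∈ insert t T then 0 else sg s ((insert t T).erase s) • p ((insert t T).erase s))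
      else if t ∈ insert t T then sg t ((insert t T).erase t) • q ((insert t T).erase t) else
        e' (insert t T) + g (insert t T)) = _
    rw [if_neg, if_pos (Finset.mem_insert_self _ _), Finset.erase_insert h6]
    rw [Finset.mem_insert, not_or]
    exact ⟨hst, h5⟩
  have en : ∀ T : Finset (V ×ₗ Bool), s ∉ T → t ∉ T → e T = e' T + g T := by
    intro T h5 h6
    show (if s ∈ T then (if t ∈ T then 0 else sg s (T.erase s) • p (T.erase s))
      else if t ∈ T then sg t (T.erase t) • q (T.erase t) else e' T + g T) = _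
    rw [if_neg h5, if_neg h6]
  have hech : ChZ K u Y E C Z (i + 1) e := by
    refine ⟨fun T hT => ?_, fun T => ?_, fun T x hx hxZ w => ?_⟩
    · change ¬ Ty G C Z (i + 1) T at hT
      by_cases h5 : s ∈ T
      · by_cases h6 : t ∈ T
        · exact est T h5 h6
        · obtain ⟨ρ, hρ⟩ : ∃ ρ, ρ = T.erase s := ⟨_, rfl⟩
          have hsρ : s ∉ ρ := by rw [hρ]; simp
          have htρ : t ∉ ρ := by rw [hρ]; simp [h6]
          have hTρ : T = insert s ρ := by rw [hρ, Finset.insert_erase h5]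
          rw [hTρ, es ρ hsρ htρ, (hpq0 ρ ?_).1, smul_zero]
          intro h7
          apply hT
          rw [hTρ, hs]
          exact (Ty_ins (by rw [← hs]; exact hsρ) (by rw [← ht]; exact htρ) hvC (fun h => absurd h hvZ)).2 h7
      · by_cases h6 : t ∈ T
        · obtain ⟨ρ, hρ⟩ : ∃ ρ, ρ = T.erase t := ⟨_, rfl⟩
          have htρ : t ∉ ρ := by rw [hρ]; simp
          have hsρ : s ∉ ρ := by rw [hρ]; simp [h5]
          have hTρ : T = insert t ρ := by rw [hρ, Finset.insert_erase h6]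
          rw [hTρ, et ρ hsρ htρ, (hpq0 ρ ?_).2, smul_zero]
          intro h7
          apply hT
          rw [hTρ, ht]
          exact (Ty_ins (by rw [← hs]; exact hsρ) (by rw [← ht]; exact htρ) hvC (fun h => absurd h hvZ)).2 h7
        · rw [en T h5 h6, he'.zero, hg.zero, add_zero]
          · intro h7
            exact hT (h7.mono (fun x hx => hx.1) (Set.Subset.refl _))
          · intro h7
            exact hT (h7.mono (Set.Subset.refl _) (fun x hx => Or.inr hx))
    · show InM K u Y E (if s ∈ T then (if t ∈ T then 0 else sg s (T.erase s) • p (T.erase s))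
        else if t ∈ T then sg t (T.erase t) • q (T.erase t) else e' T + g T)
      split_ifs
      · exact mem_IM.1 (IM K u Y E).zero_mem
      · exact hsmem _ _ (hpm _)
      · exact hsmem _ _ (hqm _)
      · exact mem_IM.1 ((IM K u Y E).add_mem (mem_IM.2 (he'.mem _)) (mem_IM.2 (hgm _)))
    · by_cases h5 : s ∈ T
      · by_cases h6 : t ∈ T
        · rw [est T h5 h6]; simp
        · obtain ⟨ρ, hρ⟩ : ∃ ρ, ρ = T.erase s := ⟨_, rfl⟩
          have hsρ : s ∉ ρ := by rw [hρ]; simp
          have htρ : t ∉ ρ := by rw [hρ]; simp [h6]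
          have hTρ : T = insert s ρ := by rw [hρ, Finset.insert_erase h5]
          rw [hTρ, es ρ hsρ htρ, Pi.smul_apply, Pi.smul_apply, ← smul_neg]
          congr 1
          rw [hTρ] at hx
          rcases Finset.mem_insert.1 hx with rfl | hx
          · exact hps ρ w
          · exact hpx ρ x hx hxZ w
      · by_cases h6 : t ∈ T
        · obtain ⟨ρ, hρ⟩ : ∃ ρ, ρ = T.erase t := ⟨_, rfl⟩
          have htρ : t ∉ ρ := by rw [hρ]; simp
          have hsρ : s ∉ ρ := by rw [hρ]; simp [h5]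
          have hTρ : T = insert t ρ := by rw [hρ, Finset.insert_erase h6]
          rw [hTρ, et ρ hsρ htρ, Pi.smul_apply, Pi.smul_apply, ← smul_neg]
          congr 1
          rw [hTρ] at hx
          rcases Finset.mem_insert.1 hx with rfl | hx
          · exact hqt ρ w
          · exact hqx ρ x hx hxZ w
        · have hxv : (ofLex x).1 ≠ v := ne_fst (fun h => h5 (by rw [hs, ← h]; exact hx))
            (fun h => h6 (by rw [ht, ← h]; exact hx))
          rw [en T h5 h6, Pi.add_apply, Pi.add_apply, he'.anti T x hx (by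
            rintro (h7 | h7)
            · exact hxv h7
            · exact hxZ h7) w, hga T x hx hxZ w]
          abel
  refine ⟨e, hech, ?_⟩
  have hlks : ∀ T, s ∉ T → t ∉ T → bdf (Oc G) (lkc v false e) T = - (sg s T • bdf (Oc G) e (insert s T)) := by
    intro T h5 h6
    rw [hs]
    rw [hs] at h5
    rw [ht] at h6
    exact bdf_lkc (fun T' h8 h9 => est T' (hs ▸ h8) (ht ▸ h9)) h5 h6
  have hlkt : ∀ T, s ∉ T → t ∉ T → bdf (Oc G) (lkc v true e) T = - (sg s T • bdf (Oc G) e (insert t T)) := by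
    intro T h5 h6
    rw [hs, ht]
    rw [hs] at h5
    rw [ht] at h6
    exact bdf_lkc (fun T' h8 h9 => est T' (hs ▸ h8) (ht ▸ h9)) h5 h6
  have hlk : lkc v false e + lkc v true e = d := by
    funext T
    show lkc v false e T + lkc v true e T = d T
    by_cases h5 : s ∈ T ∨ t ∈ T
    · have h5' := h5
      rw [hs, ht] at h5'
      rw [lkc_not h5', lkc_not h5', add_zero, hd0]
      exact Ty_not_nb h5'
    · rw [not_or] at h5
      have h6 := h5
      rw [hs, ht] at h6
      rw [lkc_of h6.1 h6.2, lkc_of h6.1 h6.2, ← hs, ← ht, es T h5.1 h5.2, et T h5.1 h5.2, hsg T h5.1 h5.2, smul_smul,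
        smul_smul, sg_mul_self, one_smul, one_smul, hpq T]
  have hbd : bdf (Oc G) d = bdf (Oc G) eb := by
    rw [hd, bdf_sub, bdf_bdf, sub_zero]
  -- the two parts
  have hsum : ∀ T, s ∉ T → t ∉ T →
      bdf (Oc G) e (insert s T) + bdf (Oc G) e (insert t T) = c (insert s T) + c (insert t T) := by
    intro T h5 h6
    have h7 : bdf (Oc G) (lkc v false e) T + bdf (Oc G) (lkc v true e) T = bdf (Oc G) eb T := by
      rw [← hbd, ← hlk, bdf_add]; rfl
    rw [hlks T h5 h6, hlkt T h5 h6, hbeb1 T h5 h6, ← neg_add, ← smul_add, neg_inj] at h7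
    have h8 := congrArg (fun f => sg s T • f) h7
    simp only [smul_smul, sg_mul_self, one_smul] at h8
    exact h8
  have hzero : ∀ T, s ∉ T → t ∉ T → bdf (Oc G) e (insert s T) = c (insert s T) ∧
      bdf (Oc G) e (insert t T) = c (insert t T) := by
    intro T h5 h6
    have h7 := hsum T h5 h6
    have h8 : bdf (Oc G) e (insert s T) - c (insert s T) = c (insert t T) - bdf (Oc G) e (insert t T) := by
      rw [sub_eq_sub_iff_add_eq_add, h7, add_comm]
    have h9 : bdf (Oc G) e (insert s T) - c (insert s T) = 0 := by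
      refine h1 (V ×ₗ Bool) (Oc G) K R u (up C) Y E s t _ hR hG hsL htL hst hna
        (mem_IM.1 ((IM K u Y E).sub_mem (mem_IM.2 (hech.bd_mem _)) (mem_IM.2 (hc.mem _)))) (fun w => ?_) (fun w => ?_)
      · rw [Pi.sub_apply, Pi.sub_apply, hech.bd_anti _ (Finset.mem_insert_self _ _) (by rw [hsv]; exact hvZ),
          hc.anti _ s (Finset.mem_insert_self _ _) (by rw [hsv]; exact hvZ)]
        abel
      · rw [h8, Pi.sub_apply, Pi.sub_apply, hech.bd_anti _ (Finset.mem_insert_self _ _) (by rw [htv]; exact hvZ),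
          hc.anti _ t (Finset.mem_insert_self _ _) (by rw [htv]; exact hvZ)]
        abel
    refine ⟨sub_eq_zero.1 h9, ?_⟩
    rw [h8] at h9
    exact (sub_eq_zero.1 h9).symm
  funext T
  show bdf (Oc G) e T = c T
  by_cases h5 : s ∈ T
  · by_cases h6 : t ∈ T
    · rw [hcz T h5 h6, bdf_apply]
      exact Finset.sum_eq_zero fun x _ => by
        rw [est _ (Finset.mem_insert_of_mem h5) (Finset.mem_insert_of_mem h6), smul_zero]
    · have h7 := (hzero (T.erase s) (by simp) (by simp [h6])).1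
      rwa [Finset.insert_erase h5] at h7
  · by_cases h6 : t ∈ T
    · have h7 := (hzero (T.erase t) (by simp [h5]) (by simp)).2
      rwa [Finset.insert_erase h6] at h7
    · rw [bdf_apply, sum_st hst h5 h6, es T h5 h6, et T h5 h6, smul_smul, smul_smul, sg_mul_self, sg_mul_self,
        one_smul, one_smul, ← add_assoc, ← hpq T, hdT T]
      have e1 := hbe'T T
      rw [φn T h5 h6, bdf_apply, sum_st hst h5 h6, he't (insert t T) (Finset.mem_insert_self _ _), smul_zero,
        zero_add] at e1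
      have e2 : bdf (Oc G) g T = ∑ x ∈ (Tᶜ.erase s).erase t, sg x T • g (insert x T) := by
        rw [bdf_apply, sum_st hst h5 h6, hg0 _ (Or.inl (Finset.mem_insert_self _ _)),
          hg0 _ (Or.inr (Finset.mem_insert_self _ _)), smul_zero, smul_zero, zero_add, zero_add]
      have e3 : ∑ x ∈ (Tᶜ.erase s).erase t, sg x T • e (insert x T) =
          ∑ x ∈ (Tᶜ.erase s).erase t, sg x T • e' (insert x T) + bdf (Oc G) g T := by
        rw [e2, ← Finset.sum_add_distrib]
        refine Finset.sum_congr rfl fun x hx => ?_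
        obtain ⟨hxρ, hxs, hxt⟩ := mem_B hx
        rw [en (insert x T) (by simp [hxs.symm, h5]) (by simp [hxt.symm, h6]), smul_add]
      rw [e3, ← e1, heb1 T h5 h6]
      abel

theorem step (h1 : INJ) (h2 : FINP) (h3 : FREEP) (h4 : GDD) : S_STEP := by
  intro V _ _ G R _ K u Y E C Z i v hR hG hvC hvZ IH1 IH2
  refine step2 h1 h2 h3 h4 V G R K u Y E C Z i v hR hG hvC hvZ IH1 (IH2 _ _ ?_)
  refine h4 (V ×ₗ Bool) (Oc G) K (up C) (up (C ∩ G.neighborSet v)) Y E _ _ hG hvC hvC (fun x hx => hx.1) ?_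
  intro x hx
  exact ⟨hx.2, hx.2⟩

end Pool.Agent.H6.RA
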