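import Pool.Agent.H6.RA.IND
import Pool.Agent.H6.RA.STEP
import Pool.Agent.H15.L.N496_CV_P_INJ
import Pool.Agent.H15.L.N496_CV_P_FINP
import Pool.Agent.H15.L.N496_CV_P_FREEP
import Pool.Agent.H15.L.N496_CV_P_GDD
import Pool.Agent.H7.L.N496_CV_P_SPEC
import Pool.Agent.H7.L.N496_CV_P_TF
import Pool.Agent.H7.L.N496_CV_P_RU
import Pool.Agent.H7.L.N496_CV_P_LEN
import Pool.Agent.H7.L.N496_CV_P_DAC
import Pool.Agent.H7.L.N496_CV_ConvB
import Pool.Agent.H7.L.N496_CV_P_RES
import Pool.Agent.H7.L.N496_CV_P_FINAL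
import Pool.Agent.H7.L.N496_CV_L2Pf
import Pool.Agent.H7.L.W907_SG_All

/-!
# Project RA (helper6): `L²`-Betti numbers of all subgroups of right-angled Artin groups: the vanishing theorem
-/

set_option autoImplicit false
set_option linter.unusedSectionVars false

noncomputable section

namespace Pool.Agent.H6.RA

open Pool.Agent.W907.SG Pool.Agent.W461.SGN Pool.Agent.N496.LT Pool.Agent.Helper655.VN Pool.Agent.RK
open Pool.Agent.N496.CV

attribute [local instance] VN831.bcFunctor_additive VN831.viaAdd VN831.viaMod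

/-- common denominators for a finite family -/
theorem common_denominator {R U : Type} [Ring R] [Ring U] {ι : R →+* U} (hι : Loc ι)
    (hmul : ∀ a b : R, Nz a → Nz b → Nz (a * b)) {α : Type} (S : Finset α) (y : α → U) :
    ∃ s : R, Nz s ∧ ∀ a ∈ S, ∃ x : R, ι s * y a = ι x := by
  classical
  induction S using Finset.induction_on with
  | empty => exact ⟨1, fun x hx => by simpa using hx, fun a ha => absurd ha (Finset.notMem_empty a)⟩
  | insert b S hb ih =>
    obtain ⟨s, hs, h⟩ := ih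
    obtain ⟨t, x, ht, hx⟩ := hι.left (ι s * y b)
    refine ⟨t * s, hmul t s ht hs, fun a ha => ?_⟩
    rcases Finset.mem_insert.1 ha with rfl | ha
    · exact ⟨x, by rw [map_mul, mul_assoc, hx]⟩
    · obtain ⟨x', hx'⟩ := h a ha
      exact ⟨t * x', by rw [map_mul, mul_assoc, hx', map_mul]⟩

theorem good_univ {V : Type} [Fintype V] [LinearOrder V] {G : SimpleGraph V} (K : Subgroup (W G)) (L : Set V) :
    Good K L Set.univ (⊥ : Subgroup (W G × ℤˣ)) where
  comm := by
    refine ⟨∅, fun p hp => ?_, fun q hq => absurd hq (Set.notMem_empty q)⟩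
    rw [Subgroup.mem_bot] at hp
    rw [hp]
    exact Subgroup.one_mem _
  YK _ _ _ _ := trivial
  YE _ _ _ _ := trivial
  YL _ _ _ _ := trivial
  free _ _ p hp _ := Subgroup.mem_bot.1 hp

theorem mulD_map {V : Type} [Fintype V] [LinearOrder V] {G : SimpleGraph V} {R U : Type} [Ring R] [Ring U]
    (ι : R →+* U) (v : (davis G).ι → (th G).ker → R) :
    mulD (fun i g => ι (v i g)) = fun i g => ι (mulD v i g) := by
  funext j g
  simp only [mulD, Finsupp.sum, map_sum, map_zsmul]

theorem mulD_mul {V : Type} [Fintype V] [LinearOrder V] {G : SimpleGraph V} {R : Type} [Ring R]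
    (r : R) (v : (davis G).ι → (th G).ker → R) :
    mulD (fun i g => r * v i g) = fun i g => r * mulD v i g := by
  funext j g
  simp only [mulD, Finsupp.sum, Finset.mul_sum, mul_smul_comm]

/-- the general assembly: if the homology with coefficients in every ring of the localisation vanishes then the
`L²`-Betti number vanishes -/
theorem asm {V : Type} [Fintype V] [LinearOrder V] (G : SimpleGraph V) (n : ℕ) (K : Subgroup (W G))
    (hK : K ≤ (th G).ker)
    (H : ∀ (U : Type) [Ring U] (u : K →* U), Rg K u → (∀ n : ℕ, 0 < n → IsUnit (n : U)) →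
      Hv G Set.univ (InM K u Set.univ ⊥) (n + 1)) : VN831.l2Betti K (n + 1) = 0 := by
  classical
  refine final (res (dac len) CB.conv) V G K n hK fun v hv hv0 => ?_
  obtain ⟨U, hU, ι, hloc⟩ := Pool.Agent.RK.LocEx.loc_exists (vn_NG (G := K))
  have htf : ∀ (k : K) (n : ℕ), 0 < n → k ^ n = 1 → k = 1 := by
    intro k m hm hk
    apply Subtype.ext
    exact tf V G k.1 (hK k.2) m hm (by
      have := congrArg Subtype.val hk
      simpa using this)
  obtain ⟨h2, hinv⟩ := ru K U ι hloc htf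
  obtain ⟨u, hu⟩ : ∃ u : K →* U, ∀ h, u h = ι (canL h) := ⟨(ι : NG K →* U).comp canL, fun h => rfl⟩
  have hRg : Rg K u := ⟨htf, h2, fun h hh => by rw [hu]; exact hinv h hh⟩
  have hN : ∀ n : ℕ, 0 < n → IsUnit (n : U) := by
    intro m hm
    have h1 : IsUnit ((algebraMap ℂ (NG K)) (m : ℂ)) :=
      (isUnit_iff_ne_zero.2 (Nat.cast_ne_zero.2 hm.ne' : (m : ℂ) ≠ 0)).map (algebraMap ℂ (NG K))
    rw [map_natCast] at h1
    have h3 := h1.map ι
    rwa [map_natCast] at h3
  have hH := H U u hRg hN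
  obtain ⟨Ψ, p1, p2, p3, p4, p5, p6⟩ := CB.conv V G K U u hK
  have hv' : FV K u (n + 1) (fun i g => ι (v i g)) := by
    refine ⟨fun i hi => ?_, fun i h g g' hg => ?_, ?_⟩
    · funext g
      rw [hv.deg i hi]
      exact map_zero ι
    · rw [hv.eqK i h g g' hg, map_mul, hu]
    · obtain ⟨S, hS⟩ := hv.fin
      refine ⟨S, fun i g hg => hS i g fun h0 => hg (by rw [h0, map_zero])⟩
  have hz : bdf G (Ψ (fun i g => ι (v i g))) = 0 := by
    rw [← p5 (n + 1) _ hv', mulD_map, hv0]
    have h1 : Ψ 0 = 0 := by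
      have := p4 0 0
      rw [add_zero] at this
      exact (left_eq_add.1 this)
    have h3 : (fun (i : (davis G).ι) (g : (th G).ker) => ι ((0 : (davis G).ι → (th G).ker → NG K) i g)) = 0 := by
      funext i g
      exact map_zero ι
    rw [h3, h1]
  obtain ⟨e', he', hbe'⟩ := hH _ (p1 (n + 1) _ hv') hz
  obtain ⟨e2, he2, rfl⟩ := p2 (n + 2) e' he'
  rw [← p5 (n + 2) e2 he2] at hbe'
  have hD2 := p3 hbe'
  -- clear the denominators
  obtain ⟨S, hS⟩ := he2.fin
  obtain ⟨s, hs, hx⟩ := common_denominator hloc (fun a b ha hb => Pool.Agent.RK.Nz.nz_mul a b ha hb)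
    (Finset.univ ×ˢ S : Finset ((davis G).ι × (th G).ker)) (fun a => e2 a.1 a.2)
  have hall : ∀ i g, ∃ x : NG K, ι s * e2 i g = ι x := by
    intro i g
    by_cases h0 : e2 i g = 0
    · exact ⟨0, by rw [h0, mul_zero, map_zero]⟩
    · obtain ⟨h, x, hxS, hgx⟩ := hS i g h0
      obtain ⟨y, hy⟩ := hx (i, x) (Finset.mem_product.2 ⟨Finset.mem_univ _, hxS⟩)
      refine ⟨y * canL h⁻¹, ?_⟩
      rw [he2.eqK i h x g hgx, ← mul_assoc, hy, map_mul, hu]
  choose e he using hall
  refine ⟨s, hs, e, ⟨fun i hi => ?_, fun i h g g' hg => ?_, ⟨S, fun i g hg => hS i g fun h0 => hg ?_⟩⟩, ?_⟩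
  · funext g
    apply hloc.inj
    rw [← he, he2.deg i hi]
    simp
  · apply hloc.inj
    rw [← he, he2.eqK i h g g' hg, ← mul_assoc, he, map_mul, hu]
  · apply hloc.inj
    rw [← he, h0, mul_zero, map_zero]
  · have h3 : mulD (fun i g => ι (e i g)) = fun i g => ι (s * v i g) := by
      have h4 : (fun i g => ι (e i g)) = fun i g => ι s * e2 i g := by
        funext i g
        rw [he]
      rw [h4, mulD_mul, hD2]
      funext i g
      rw [map_mul]
    rw [mulD_map] at h3
    funext i g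
    apply hloc.inj
    exact congrFun (congrFun h3 i) g

theorem step' : S_STEP := step (Pool.Agent.N496.CV.inj PSPEC.spec) (Pool.Agent.N496.CV.finp PSPEC.spec) (Pool.Agent.N496.CV.freep PSPEC.spec)
  Pool.Agent.N496.CV.gdd

theorem main1 (hB : S_BASE) : S_MAIN1 := by
  intro V _ _ G i hi hAc K hK
  obtain ⟨n, rfl⟩ : ∃ n, i = n + 1 := ⟨i - 1, by omega⟩
  have h0 : VN831.l2Betti K (n + 1) = 0 := by
    refine asm (Oc G) n K hK fun U _ u hRg hN => ?_
    have h1 : HvZ K u Set.univ ⊥ Set.univ ∅ (n + 1) := ind hB step' V G U K u (n + 1) hN hRg _ Set.univ le_rfl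
      (fun τ hτ _ => by rw [Set.univ_inter]; exact hAc τ hτ) _ ∅ le_rfl Set.univ ⊥ (good_univ K _)
    intro c hc hc0
    have hc' : ChZ K u Set.univ ⊥ Set.univ ∅ (n + 1) c :=
      ⟨fun T hT => hc.supp T fun hT' => hT ⟨hT'.1, fun x _ => ⟨trivial, fun h => absurd h (Set.notMem_empty _)⟩,
        hT'.2.2⟩, hc.mem, fun T t ht _ w => hc.anti T t ht w⟩
    obtain ⟨e, he, he0⟩ := h1 c hc' hc0
    exact ⟨e, ⟨fun T hT => he.supp T fun hT' => hT ⟨hT'.1, Set.subset_univ _, hT'.2.2⟩, he.mem, fun T t ht w =>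
        he.anti T t ht (Set.notMem_empty _) w⟩, he0⟩
  have h1 := hasL2Betti K (n + 1)
  rwa [h0] at h1

end Pool.Agent.H6.RA
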