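import Pool.Agent.H6.RA.DEC1
import Pool.Agent.H6.RA.MAIN1
import Pool.Agent.H6.RA.BASE

/-!
# Project RA (helper6): for the whole kernel the complex is the complex of the flag complex with coefficients
-/

set_option autoImplicit false
set_option linter.unusedSectionVars false

noncomputable section

namespace Pool.Agent.H6.RA

open Pool.Agent.W907.SG Pool.Agent.W461.SGN Pool.Agent.N496.CV BA
open Pool.Agent.N496.CV.PSUS (IM mem_IM mem_rt)

theorem th_sq {V : Type} (G : SimpleGraph V) (x : W G) : th G (x ^ 2) = 1 := by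
  rw [map_pow]
  funext v
  show (th G x v) ^ 2 = 1
  exact Int.units_sq _

theorem fr_empty {V : Type} [Fintype V] [LinearOrder V] {G : SimpleGraph V} {s t : V} (hst : s ≠ t)
    (hna : ¬ G.Adj s t) (Y : Set (W G)) (E : Subgroup (W G × ℤˣ)) (w : W G) :
    w ∉ fr (th G).ker Y (addD E s t) := by
  rintro ⟨_, h2⟩
  have h1 : ((((cox G).simple s * (cox G).simple t) ^ 2, 1) : W G × ℤˣ) ∈ addD E s t := by
    have e : ((((cox G).simple s * (cox G).simple t) ^ 2, 1) : W G × ℤˣ) =
        (((cox G).simple s, 1) * ((cox G).simple t, 1)) ^ 2 := by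
      rw [Prod.mk_mul_mk, one_mul, Prod.pow_mk, one_pow]
    rw [e]
    refine Subgroup.pow_mem _ (Subgroup.mul_mem _ ?_ ?_) 2
    · exact Subgroup.mem_sup_right (Subgroup.subset_closure (by simp))
    · exact Subgroup.mem_sup_right (Subgroup.subset_closure (by simp))
  have h3 := h2 _ h1 (by
    rw [MonoidHom.mem_ker]
    show th G (w * ((cox G).simple s * (cox G).simple t) ^ 2 * w⁻¹) = 1
    rw [map_mul, map_mul, th_sq, mul_one, ← map_mul, mul_inv_cancel, map_one])
  have h4 : ((cox G).simple s * (cox G).simple t) ^ 2 = 1 := congrArg Prod.fst h3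
  exact (PSPEC.spec V G).2.2 s t hst hna 2 (by norm_num) h4

section

variable {V : Type} [Fintype V] [LinearOrder V] {G : SimpleGraph V} {R : Type} [Ring R]
  {u : (th (Oc G)).ker →* R} {i : ℕ}

theorem na_st (v : V) : ¬ (Oc G).Adj (toLex (v, false)) (toLex (v, true)) := fun h => G.loopless.irrefl v h

theorem dec_v (hR : Rg (th (Oc G)).ker u) (v : V) (f : W (Oc G) → R) (hf : InM (th (Oc G)).ker u Set.univ ⊥ f) :
    ∃ p q, InM (th (Oc G)).ker u Set.univ ⊥ p ∧ InM (th (Oc G)).ker u Set.univ ⊥ q ∧ f = p + q ∧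
      (∀ w, p (w * (cox (Oc G)).simple (toLex (v, false))) = - p w) ∧
      (∀ w, q (w * (cox (Oc G)).simple (toLex (v, true))) = - q w) := by
  obtain ⟨s, hs⟩ : ∃ s : V ×ₗ Bool, s = toLex (v, false) := ⟨_, rfl⟩
  obtain ⟨t, ht⟩ : ∃ t : V ×ₗ Bool, t = toLex (v, true) := ⟨_, rfl⟩
  have hst : s ≠ t := by rw [hs, ht]; exact s_ne_t v
  have hna : ¬ (Oc G).Adj s t := by rw [hs, ht]; exact na_st v
  rw [← hs, ← ht]
  have hG := good_univ (th (Oc G)).ker (up (Set.univ : Set V))
  obtain ⟨g, hg, hg2⟩ := Pool.Agent.N496.CV.finp PSPEC.spec (V ×ₗ Bool) (Oc G) (th (Oc G)).ker R u (up Set.univ)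
    Set.univ ⊥ s t f hR hG trivial trivial hst hna hf (fun w hw => absurd hw (fr_empty hst hna _ _ w))
  have hgt : InM (th (Oc G)).ker u Set.univ ⊥ (fun w => g (w * (cox (Oc G)).simple t)) := mem_rt hG hg trivial
  have hgs : InM (th (Oc G)).ker u Set.univ ⊥ (fun w => g (w * (cox (Oc G)).simple s * (cox (Oc G)).simple t)) :=
    mem_rt hG hgt (v := s) trivial
  refine ⟨fun w => g (w * (cox (Oc G)).simple t) - g (w * (cox (Oc G)).simple s * (cox (Oc G)).simple t),
    fun w => g w - g (w * (cox (Oc G)).simple t), mem_IM.1 ((IM _ u _ _).sub_mem (mem_IM.2 hgt) (mem_IM.2 hgs)),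
    mem_IM.1 ((IM _ u _ _).sub_mem (mem_IM.2 hg) (mem_IM.2 hgt)), ?_, fun w => ?_, fun w => ?_⟩
  · funext w
    rw [hg2 w, Pi.add_apply, ← mul_assoc]
    abel
  · have h5 : w * (cox (Oc G)).simple s * (cox (Oc G)).simple s = w := by rw [mul_assoc, simple_mul_self, mul_one]
    simp only [h5]
    abel
  · have h5 : w * (cox (Oc G)).simple t * (cox (Oc G)).simple t = w := by rw [mul_assoc, simple_mul_self, mul_one]
    simp only [h5]
    abel

theorem ini_v (hR : Rg (th (Oc G)).ker u) (v : V) (f : W (Oc G) → R) (hf : InM (th (Oc G)).ker u Set.univ ⊥ f)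
    (h1 : ∀ w, f (w * (cox (Oc G)).simple (toLex (v, false))) = - f w)
    (h2 : ∀ w, f (w * (cox (Oc G)).simple (toLex (v, true))) = - f w) : f = 0 :=
  Pool.Agent.N496.CV.inj PSPEC.spec (V ×ₗ Bool) (Oc G) (th (Oc G)).ker R u (up (Set.univ : Set V)) Set.univ ⊥
    (toLex (v, false)) (toLex (v, true)) f hR (good_univ _ _) trivial trivial (s_ne_t v) (na_st v) hf h1 h2

theorem hvz_all (hR : Rg (th (Oc G)).ker u) (H : Hv (Oc G) Set.univ (InM (th (Oc G)).ker u Set.univ ⊥) i) :
    ∀ Z : Finset V, HvZ (th (Oc G)).ker u Set.univ ⊥ Set.univ (Z : Set V) i := by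
  intro Z
  induction Z using Finset.induction_on with
  | empty =>
    intro c hc hc0
    obtain ⟨e, he, he0⟩ := H c ⟨fun T hT => hc.supp T fun hT' => hT ⟨hT'.1, Set.subset_univ _, hT'.2.2⟩, hc.mem,
      fun T t ht w => hc.anti T t ht (by simp) w⟩ hc0
    exact ⟨e, ⟨fun T hT => he.supp T fun hT' => hT ⟨hT'.1, fun x _ => ⟨trivial, fun h => absurd h (by simp)⟩,
      hT'.2.2⟩, he.mem, fun T t ht _ w => he.anti T t ht w⟩, he0⟩
  | insert v Z hv ih =>
    rw [Finset.coe_insert]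
    exact iso_step hR (good_univ _ _) trivial (by simpa using hv) (dec_v hR v) (ini_v hR v) ih

/-- chains on the first copies -/
theorem chz_of {K : Subgroup (W (Oc G))} {u : K →* R} {Y : Set (W (Oc G))} {E : Subgroup (W (Oc G) × ℤˣ)} {C : Set V}
    {b : Finset V → W (Oc G) → R} {j : ℕ}
    (hb0 : ∀ S : Finset V, ¬ (G.IsClique (S : Set V) ∧ (S : Set V) ⊆ C ∧ S.card = j) → b S = 0)
    (hbm : ∀ S, InM K u Y E (b S)) [DecidablePred (pure' (V := V))] :
    ChZ K u Y E C C j (fun T => if pure' T then b (dn T) else 0) := by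
  have hb00 : InM K u Y E (0 : W (Oc G) → R) := mem_IM.1 (IM K u Y E).zero_mem
  have h0 : ∀ T : Finset (V ×ₗ Bool), ¬ ((Oc G).IsClique (T : Set (V ×ₗ Bool)) ∧ (∀ x ∈ T, (ofLex x).1 ∈ C ∧
    ((ofLex x).1 ∈ C → (ofLex x).2 = false)) ∧ T.card = j) → (if pure' T then b (dn T) else 0) = 0 := by
    intro T hT
    by_cases hp : pure' T
    · rw [if_pos hp]
      apply hb0
      rintro ⟨h1, h2, h3⟩
      apply hT
      have hTm := map_dn hp
      refine ⟨?_, ?_, ?_⟩
      · intro x hx y hy hxy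
        show G.Adj (ofLex x).1 (ofLex y).1
        apply h1
        · exact Finset.mem_coe.2 (Finset.mem_image_of_mem _ (Finset.mem_coe.1 hx))
        · exact Finset.mem_coe.2 (Finset.mem_image_of_mem _ (Finset.mem_coe.1 hy))
        · intro hne
          apply hxy
          have e1 := hp x (Finset.mem_coe.1 hx)
          have e2 := hp y (Finset.mem_coe.1 hy)
          apply ofLex.injective
          exact Prod.ext hne (e1.trans e2.symm)
      · intro x hx
        exact ⟨h2 (Finset.mem_coe.2 (Finset.mem_image_of_mem _ hx)), fun _ => hp x hx⟩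
      · rw [← hTm, Finset.card_map]; exact h3
    · rw [if_neg hp]
  refine ⟨h0, fun T => ?_, fun T x hx hxC w => ?_⟩
  · by_cases hp : pure' T
    · show InM K u Y E (if pure' T then b (dn T) else 0)
      rw [if_pos hp]; exact hbm _
    · show InM K u Y E (if pure' T then b (dn T) else 0)
      rw [if_neg hp]; exact hb00
  · have h1 : (if pure' T then b (dn T) else 0) = 0 := h0 T fun h => hxC (h.2.1 x hx).1
    simp only [h1]
    simp

/-- the twisted indicator of the kernel -/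
def ind1 (K : Subgroup (W (Oc G))) (u : K →* R) (w : W (Oc G)) : R :=
  open Classical in if h : w ∈ K then u ⟨w, h⟩⁻¹ else 0

theorem ind1_mem (K : Subgroup (W (Oc G))) (u : K →* R) : InM K u Set.univ ⊥ (ind1 K u) := by
  refine ⟨fun _ _ => trivial, fun p hp w => ?_, fun h w => ?_, ⟨{1}, fun w hw => ?_⟩⟩
  · rw [Subgroup.mem_bot] at hp
    rw [hp]
    simp
  · unfold ind1
    by_cases hw : w ∈ K
    · rw [dif_pos hw, dif_pos (K.mul_mem h.2 hw), ← map_mul]
      congr 1
      apply Subtype.ext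
      show (h * w)⁻¹ = w⁻¹ * (h : W (Oc G))⁻¹
      rw [mul_inv_rev]
    · rw [dif_neg hw, dif_neg, zero_mul]
      intro h'
      exact hw ((K.mul_mem_cancel_left h.2).1 h')
  · have hwK : w ∈ K := by
      by_contra h
      exact hw (dif_neg h)
    exact ⟨⟨w, hwK⟩, 1, by simp, 1, Subgroup.one_mem _, by simp⟩

theorem ind1_one (K : Subgroup (W (Oc G))) (u : K →* R) : ind1 K u 1 = 1 := by
  unfold ind1
  rw [dif_pos K.one_mem]
  have : (⟨1, K.one_mem⟩ : K) = 1 := rfl
  rw [this, inv_one, map_one]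

end

theorem exists_fun {R : Type} [Ring R] (φ : ℚ →+* R) (h01 : (1 : R) ≠ 0) :
    ∃ l : R →+ ℚ, l 1 = 1 := by
  letI : Module ℚ R := Module.compHom R φ
  have h1 : ¬ ∀ l : Module.Dual ℚ R, l 1 = 0 := fun h => h01 ((Module.forall_dual_apply_eq_zero_iff ℚ (1 : R)).1 h)
  push Not at h1
  obtain ⟨l, hl⟩ := h1
  refine ⟨((l 1)⁻¹ • l : Module.Dual ℚ R).toAddMonoidHom, ?_⟩
  show (l 1)⁻¹ • l 1 = 1
  rw [smul_eq_mul, inv_mul_cancel₀ hl]

theorem dec (V : Type) [Fintype V] [LinearOrder V] (G : SimpleGraph V) (R : Type) [Ring R]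
    (u : (th (Oc G)).ker →* R) (i : ℕ) (hR : Rg (th (Oc G)).ker u) (φ : ℚ →+* R) (h01 : (1 : R) ≠ 0)
    (H : Hv (Oc G) Set.univ (InM (th (Oc G)).ker u Set.univ ⊥) i) : Ac G Set.univ i := by
  classical
  intro a ha hba
  obtain ⟨l, hl⟩ := exists_fun φ h01
  have H' := hvz_all hR H Finset.univ
  rw [Finset.coe_univ] at H'
  obtain ⟨N, hN, hz⟩ := den_aux a
  choose z hz using hz
  have hN' : (N : ℚ) ≠ 0 := by exact_mod_cast hN.ne'
  have hz0 : ∀ S : Finset V, ¬ (G.IsClique (S : Set V) ∧ (S : Set V) ⊆ Set.univ ∧ S.card = i) → z S = 0 := by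
    intro S hS
    have h1 := hz S
    rw [ha S hS, mul_zero] at h1
    exact_mod_cast h1
  obtain ⟨m, hm⟩ : ∃ m, m = ind1 (th (Oc G)).ker u := ⟨_, rfl⟩
  have hmm : InM (th (Oc G)).ker u Set.univ ⊥ m := by rw [hm]; exact ind1_mem _ _
  have hm1 : m 1 = 1 := by rw [hm]; exact ind1_one _ _
  have hc := chz_of (G := G) (K := (th (Oc G)).ker) (u := u) (Y := Set.univ) (E := ⊥) (C := Set.univ)
    (b := fun S => z S • m) (j := i) (fun S hS => by simp only [hz0 S hS, zero_smul])
    (fun S => mem_IM.1 ((IM _ u _ _).zsmul_mem (mem_IM.2 hmm) _))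
  obtain ⟨c, hcdef⟩ : ∃ c : Finset (V ×ₗ Bool) → W (Oc G) → R, c = fun T => if pure' T then z (dn T) • m else 0 :=
    ⟨_, rfl⟩
  rw [← hcdef] at hc
  have hcp : ∀ T, ¬ pure' T → c T = 0 := fun T hT => by rw [hcdef]; exact if_neg hT
  have hcm : ∀ S : Finset V, c (S.map io) = z S • m := fun S => by
    rw [hcdef]
    simp only []
    rw [if_pos (pure_map S), dn_map]
  have hbc : bdf (Oc G) c = 0 := by
    funext T w
    by_cases hp : pure' T
    · obtain ⟨S, rfl⟩ : ∃ S : Finset V, T = S.map io := ⟨dn T, (map_dn hp).symm⟩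
      rw [bdf_map G c hcp]
      have h1 : ∑ v ∈ Sᶜ, sg v S • c ((insert v S).map io) w = (∑ v ∈ Sᶜ, sg v S * z (insert v S)) • m w := by
        rw [Finset.sum_smul]
        refine Finset.sum_congr rfl fun v _ => ?_
        rw [hcm, Pi.smul_apply, smul_smul]
      have h2 : ∑ v ∈ Sᶜ, sg v S * z (insert v S) = 0 := by
        have h3 := congrFun hba S
        have h4 : ((∑ v ∈ Sᶜ, sg v S * z (insert v S) : ℤ) : ℚ) = N * bq a S := by
          unfold bq
          push_cast
          rw [Finset.mul_sum]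
          refine Finset.sum_congr rfl fun v _ => ?_
          rw [hz]
          ring
        rw [h3, Pi.zero_apply, mul_zero] at h4
        exact_mod_cast h4
      rw [h1, h2, zero_smul]
      rfl
    · show ∑ x ∈ Tᶜ, sg x T • c (insert x T) w = 0
      refine Finset.sum_eq_zero fun x _ => ?_
      rw [hcp]
      · simp
      · intro hp2
        exact hp fun y hy => hp2 y (Finset.mem_insert_of_mem hy)
  obtain ⟨e, he, hbe⟩ := H' c hc hbc
  have hep : ∀ T, ¬ pure' T → e T = 0 := by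
    intro T hT
    apply he.supp
    rintro ⟨_, h2, _⟩
    exact hT fun x hx => (h2 x hx).2 (h2 x hx).1
  refine ⟨fun S => (N : ℚ)⁻¹ * l (e (S.map io) 1), fun S hS => ?_, ?_⟩
  · have h1 : e (S.map io) = 0 := by
      apply he.supp
      rintro ⟨h1, h2, h3⟩
      apply hS
      refine ⟨?_, Set.subset_univ _, by rwa [Finset.card_map] at h3⟩
      intro x hx y hy hxy
      exact h1 (Finset.mem_coe.2 (mem_map_io.2 (Finset.mem_coe.1 hx)))
        (Finset.mem_coe.2 (mem_map_io.2 (Finset.mem_coe.1 hy))) (fun he => hxy (io.injective he))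
    show (N : ℚ)⁻¹ * l (e (S.map io) 1) = 0
    rw [h1]
    simp
  · funext S
    have h1 : (∑ v ∈ Sᶜ, sg v S • e ((insert v S).map io) 1) = z S • (1 : R) := by
      rw [← bdf_map G e hep, hbe, hcm, Pi.smul_apply, hm1]
    have h2 := congrArg l h1
    rw [map_sum, map_zsmul, hl, zsmul_eq_mul, mul_one, hz] at h2
    show ∑ v ∈ Sᶜ, (sg v S : ℚ) * ((N : ℚ)⁻¹ * l (e ((insert v S).map io) 1)) = a S
    have h3 : ∑ v ∈ Sᶜ, (sg v S : ℚ) * ((N : ℚ)⁻¹ * l (e ((insert v S).map io) 1)) =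
        (N : ℚ)⁻¹ * ∑ v ∈ Sᶜ, l (sg v S • e ((insert v S).map io) 1) := by
      rw [Finset.mul_sum]
      refine Finset.sum_congr rfl fun v _ => ?_
      rw [map_zsmul, zsmul_eq_mul]
      ring
    rw [h3, h2, ← mul_assoc, inv_mul_cancel₀ hN', one_mul]

end Pool.Agent.H6.RA
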