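import Pool.Agent.H6.RA.Stm2

/-!
# Project RA: special subgroups (stub SPE)
-/

set_option autoImplicit false

noncomputable section

namespace Pool.Agent.H6.RA

open Pool.Agent.W907.SG Pool.Agent.W461.SGN Pool.Agent.N496.LT Pool.Agent.Helper655.VN Pool.Agent.RK
open Pool.Agent.N496.CV

namespace SPE

variable {V : Type} (G : SimpleGraph V) (C : Set V)

/-- the map of the vertices -/
def inj (x : C ×ₗ Bool) : V ×ₗ Bool := toLex (((ofLex x).1 : V), (ofLex x).2)

/-- the inverse -/
def inv (y : V ×ₗ Bool) (h : (ofLex y).1 ∈ C) : C ×ₗ Bool := toLex (⟨(ofLex y).1, h⟩, (ofLex y).2)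

theorem inj_mem (x : C ×ₗ Bool) : (ofLex (inj C x)).1 ∈ C := (ofLex x).1.2

theorem inv_inj (x : C ×ₗ Bool) : inv C (inj C x) (inj_mem C x) = x := rfl

theorem inj_inv (y : V ×ₗ Bool) (h : (ofLex y).1 ∈ C) : inj C (inv C y h) = y := rfl

theorem inj_injective : Function.Injective (inj C) := by
  intro x x' h
  have h1 : (((ofLex x).1 : V), (ofLex x).2) = (((ofLex x').1 : V), (ofLex x').2) := h
  have h2 : ((ofLex x).1 : V) = ((ofLex x').1 : V) := congrArg (fun p => p.1) h1
  have h3 : (ofLex x).2 = (ofLex x').2 := congrArg (fun p => p.2) h1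
  exact ofLex.injective (Prod.ext (Subtype.ext h2) h3)

theorem adj_iff (x y : C ×ₗ Bool) : (Oc (G.induce C)).Adj x y ↔ (Oc G).Adj (inj C x) (inj C y) :=
  Iff.rfl

/-- the inclusion -/
def F : W (Oc (G.induce C)) →* W (Oc G) :=
  (cox (Oc (G.induce C))).toCoxeterSystem.lift ⟨fun x => (cox (Oc G)).simple (inj C x),
    liftable _ _ (fun _ => simple_mul_self _ _)
      (fun x y h => simple_comm _ _ _ ((adj_iff G C x y).1 h))⟩

theorem F_simple (x : C ×ₗ Bool) :
    F G C ((cox (Oc (G.induce C))).simple x) = (cox (Oc G)).simple (inj C x) :=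
  CoxeterSystem.lift_apply_simple _ _ x

open Classical in
/-- the retraction -/
def R : W (Oc G) →* W (Oc (G.induce C)) :=
  (cox (Oc G)).toCoxeterSystem.lift ⟨fun y => if h : (ofLex y).1 ∈ C then
    (cox (Oc (G.induce C))).simple (inv C y h) else 1,
    liftable _ _ (fun y => by
        split_ifs with h
        · exact simple_mul_self _ _
        · exact mul_one _)
      (fun x y hxy => by
        split_ifs with h1 h2 h2
        · exact simple_comm _ _ _ hxy
        · rw [mul_one, one_mul]
        · rw [mul_one, one_mul]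
        · rfl)⟩

theorem R_simple (y : V ×ₗ Bool) (h : (ofLex y).1 ∈ C) :
    R G C ((cox (Oc G)).simple y) = (cox (Oc (G.induce C))).simple (inv C y h) := by
  have h1 : R G C ((cox (Oc G)).simple y) = _ := CoxeterSystem.lift_apply_simple _ _ y
  rw [h1]
  exact dif_pos h

theorem RF : (R G C).comp (F G C) = MonoidHom.id _ := by
  refine (cox (Oc (G.induce C))).toCoxeterSystem.ext_simple (fun x => ?_)
  have h1 : (R G C).comp (F G C) ((cox (Oc (G.induce C))).toCoxeterSystem.simple x) =
      R G C (F G C ((cox (Oc (G.induce C))).simple x)) := rfl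
  rw [h1, F_simple, R_simple G C _ (inj_mem C x), inv_inj]
  rfl

open Classical in
/-- extension by one -/
def psi : ((C ×ₗ Bool) → ℤˣ) →* ((V ×ₗ Bool) → ℤˣ) where
  toFun f y := if h : (ofLex y).1 ∈ C then f (inv C y h) else 1
  map_one' := by
    funext y
    split_ifs <;> rfl
  map_mul' f g := by
    funext y
    rw [Pi.mul_apply]
    split_ifs
    · rfl
    · rw [mul_one]

theorem thF : (th (Oc G)).comp (F G C) = (psi C).comp (th (Oc (G.induce C))) := by
  classical
  refine (cox (Oc (G.induce C))).toCoxeterSystem.ext_simple (fun x => ?_)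
  have h1 : (th (Oc G)).comp (F G C) ((cox (Oc (G.induce C))).toCoxeterSystem.simple x) =
      th (Oc G) (F G C ((cox (Oc (G.induce C))).simple x)) := rfl
  have h2 : (psi C).comp (th (Oc (G.induce C))) ((cox (Oc (G.induce C))).toCoxeterSystem.simple x) =
      psi C (th (Oc (G.induce C)) ((cox (Oc (G.induce C))).simple x)) := rfl
  rw [h1, h2, F_simple, th_simple, th_simple]
  funext y
  have hpsi : ∀ f : (C ×ₗ Bool) → ℤˣ, psi C f y =
    if h : (ofLex y).1 ∈ C then f (inv C y h) else 1 := fun f => rfl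
  rw [hpsi]
  by_cases hy : (ofLex y).1 ∈ C
  · rw [dif_pos hy]
    by_cases h3 : inv C y hy = x
    · rw [if_pos h3, if_pos (by rw [← h3, inj_inv])]
    · rw [if_neg h3, if_neg]
      intro h4
      apply h3
      apply inj_injective C
      rw [inj_inv, h4]
  · rw [dif_neg hy, if_neg]
    rintro rfl
    exact hy (inj_mem C x)

end SPE

open SPE in
theorem spe : S_SPE := by
  intro V G C
  have hinj : Function.Injective (F G C) := by
    intro x y hxy
    have h1 := congrArg (R G C) hxy
    have h2 : ∀ z, R G C (F G C z) = z := fun z => DFunLike.congr_fun (RF G C) z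
    rwa [h2, h2] at h1
  refine ⟨(th (Oc (G.induce C))).ker.map (F G C), ?_,
    ⟨Subgroup.equivMapOfInjective _ (F G C) hinj⟩⟩
  rintro _ ⟨w, hw, rfl⟩
  rw [MonoidHom.mem_ker]
  have h1 : th (Oc G) (F G C w) = psi C (th (Oc (G.induce C)) w) := DFunLike.congr_fun (thF G C) w
  rw [h1, MonoidHom.mem_ker.1 hw, map_one]

end Pool.Agent.H6.RA
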