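import Pool.Agent.H6.RA.Stm2
import Pool.Agent.H6.RA.DEC
import Pool.Agent.H6.RA.SPE
import Pool.Agent.H6.RA.ACI

/-!
# Project RA (helper6): the converse
-/

set_option autoImplicit false
set_option linter.unusedSectionVars false

noncomputable section

namespace Pool.Agent.H6.RA

open Pool.Agent.W907.SG Pool.Agent.W461.SGN Pool.Agent.N496.LT Pool.Agent.Helper655.VN Pool.Agent.RK
open Pool.Agent.N496.CV

attribute [local instance] VN831.bcFunctor_additive VN831.viaAdd VN831.viaMod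

theorem conv (hRev : S_REV) : S_CONV := by
  classical
  intro V _ _ G i τ hi hτ hAc
  obtain ⟨n, rfl⟩ : ∃ n, i = n + 1 := ⟨i - 1, by omega⟩
  obtain ⟨K, hK, ⟨e⟩⟩ := spe V G (lkS G τ)
  refine ⟨K, hK, VN831.l2Betti K (n + 1), fun h0 => hAc ?_, hasL2Betti K (n + 1)⟩
  obtain ⟨U, hU, ι, hloc⟩ := Pool.Agent.RK.LocEx.loc_exists (vn_NG (G := K))
  have htf : ∀ (k : K) (n : ℕ), 0 < n → k ^ n = 1 → k = 1 := by
    intro k m hm hk
    apply Subtype.ext
    exact tf _ (Oc G) k.1 (hK k.2) m hm (by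
      have := congrArg Subtype.val hk
      simpa using this)
  have htf' : ∀ (k : (th (Oc (G.induce (lkS G τ)))).ker) (n : ℕ), 0 < n → k ^ n = 1 → k = 1 := by
    intro k m hm hk
    have h1 := htf (e k) m hm (by rw [← map_pow, hk, map_one])
    exact e.injective (by rw [h1, map_one])
  obtain ⟨h2, hinv⟩ := ru K U ι hloc htf
  obtain ⟨u, hu⟩ : ∃ u : (th (Oc (G.induce (lkS G τ)))).ker →* U, ∀ h, u h = ι (canL (e h)) :=
    ⟨((ι : NG K →* U).comp canL).comp e.toMonoidHom, fun h => rfl⟩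
  have hRg : Rg (th (Oc (G.induce (lkS G τ)))).ker u := ⟨htf', h2, fun h hh => by
    rw [hu]
    exact hinv (e h) fun h' => hh (e.injective (by rw [h', map_one]))⟩
  haveI : Fintype (lkS G τ) := Fintype.ofFinite _
  have h1 := hRev (lkS G τ ×ₗ Bool) (Oc (G.induce (lkS G τ))) K e U ι u n hloc hu h0
  have h01 : (1 : U) ≠ 0 := by
    intro h
    have h3 : ι 1 = ι 0 := by rw [map_one, map_zero, h]
    have h4 := hloc.inj h3
    have h5 := (vn_NG (G := K)).one
    rw [h4, map_zero] at h5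
    exact zero_ne_one h5
  have h2 := dec (lkS G τ) (G.induce (lkS G τ)) U u (n + 1) hRg
    ((ι.comp (algebraMap ℂ (NG K))).comp (algebraMap ℚ ℂ)) h01 h1
  exact aci V G (lkS G τ) (n + 1) h2

end Pool.Agent.H6.RA
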