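import Pool.Agent.H6.RA.STEP

/-!
# Project RA (helper6): adding a vertex to `Z` when all the functions split
-/

set_option autoImplicit false
set_option linter.unusedSectionVars false

noncomputable section

namespace Pool.Agent.H6.RA

open Pool.Agent.W907.SG Pool.Agent.W461.SGN Pool.Agent.N496.CV
open Pool.Agent.N496.CV.PSUS (IM mem_IM bdf_apply bdf_bdf bdf_add bdf_sub half anti_split)

theorem iso_step {V : Type} [Fintype V] [LinearOrder V] {G : SimpleGraph V} {R : Type} [Ring R]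
    {K : Subgroup (W (Oc G))} {u : K →* R} {Y : Set (W (Oc G))} {E : Subgroup (W (Oc G) × ℤˣ)} {C Z : Set V} {i : ℕ}
    {v : V} (hR : Rg K u) (hG : Good K (up C) Y E) (hvC : v ∈ C) (hvZ : v ∉ Z)
    (D : ∀ f, InM K u Y E f → ∃ p q, InM K u Y E p ∧ InM K u Y E q ∧ f = p + q ∧
      (∀ w, p (w * (cox (Oc G)).simple (toLex (v, false))) = - p w) ∧
      (∀ w, q (w * (cox (Oc G)).simple (toLex (v, true))) = - q w))
    (I : ∀ f, InM K u Y E f → (∀ w, f (w * (cox (Oc G)).simple (toLex (v, false))) = - f w) →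
      (∀ w, f (w * (cox (Oc G)).simple (toLex (v, true))) = - f w) → f = 0)
    (H : HvZ K u Y E C Z i) : HvZ K u Y E C (insert v Z) i := by
  classical
  intro c' hc hbc
  obtain ⟨s, hs⟩ : ∃ s : V ×ₗ Bool, s = toLex (v, false) := ⟨_, rfl⟩
  obtain ⟨t, ht⟩ : ∃ t : V ×ₗ Bool, t = toLex (v, true) := ⟨_, rfl⟩
  rw [← hs, ← ht] at D I
  have hst : s ≠ t := by rw [hs, ht]; exact s_ne_t v
  have hsv : (ofLex s).1 = v := by rw [hs]; rfl
  have htv : (ofLex t).1 = v := by rw [ht]; rfl
  have hN : ∀ x ∈ up (C ∩ G.neighborSet v), x ∈ up C ∧ (Oc G).Adj s x ∧ (Oc G).Adj t x := by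
    intro x hx
    refine ⟨hx.1, ?_, ?_⟩
    · show G.Adj (ofLex s).1 _
      rw [hsv]; exact hx.2
    · show G.Adj (ofLex t).1 _
      rw [htv]; exact hx.2
  obtain ⟨k, hk, hk2⟩ := half hR
  have hsg : ∀ ρ : Finset (V ×ₗ Bool), s ∉ ρ → t ∉ ρ → sg t ρ = sg s ρ := by
    intro ρ h5 h6
    rw [hs, ht]
    rw [hs] at h5
    rw [ht] at h6
    exact sg_st h5 h6
  have hsgx : ∀ (ρ : Finset (V ×ₗ Bool)) (x : V ×ₗ Bool), s ∉ ρ → t ∉ ρ → x ≠ s → x ≠ t →
      sg x (insert t ρ) = sg x (insert s ρ) := by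
    intro ρ x h5 h6 h7 h8
    rw [hs, ht]
    rw [hs] at h5 h7
    rw [ht] at h6 h8
    exact sg_ins_st h5 h6 h7 h8
  have hct : ∀ T : Finset (V ×ₗ Bool), t ∈ T → c' T = 0 := fun T h5 =>
    hc.zero (Ty_Z (ht ▸ h5) (Or.inl rfl))
  have hbT : ∀ T, bdf (Oc G) c' T = 0 := fun T => by rw [hbc]; rfl
  -- the splitting, for the cells `insert s ρ`
  have hsplit : ∀ ρ : Finset (V ×ₗ Bool), ∃ p q : W (Oc G) → R, InM K u Y E p ∧ InM K u Y E q ∧
      (s ∉ ρ → c' (insert s ρ) = p + q) ∧
      (∀ w, p (w * (cox (Oc G)).simple s) = - p w) ∧ (∀ w, q (w * (cox (Oc G)).simple t) = - q w) ∧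
      (∀ x ∈ ρ, (ofLex x).1 ∉ Z → ∀ w, p (w * (cox (Oc G)).simple x) = - p w) ∧
      (∀ x ∈ ρ, (ofLex x).1 ∉ Z → ∀ w, q (w * (cox (Oc G)).simple x) = - q w) ∧
      (¬ (s ∉ ρ ∧ t ∉ ρ ∧ Ty G C (insert v Z) i (insert s ρ)) → p = 0 ∧ q = 0) := by
    intro ρ
    by_cases hT : s ∉ ρ ∧ t ∉ ρ ∧ Ty G C (insert v Z) i (insert s ρ)
    · obtain ⟨hsρ, htρ, hTy⟩ := hT
      obtain ⟨p, q, hp, hq, hpq, hps, hqt⟩ := D _ (hc.mem (insert s ρ))
      obtain ⟨j, rfl⟩ : ∃ j, i = j + 1 := by
        refine ⟨i - 1, ?_⟩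
        have := hTy.2.2
        rw [Finset.card_insert_of_notMem hsρ] at this
        omega
      have hTy' : Ty G (C ∩ G.neighborSet v) (insert v Z) j ρ := by
        rw [hs] at hTy
        exact (Ty_ins (by rw [← hs]; exact hsρ) (by rw [← ht]; exact htρ) hvC (fun _ => rfl)).1 hTy
      have hne : ∀ x ∈ ρ, (ofLex x).1 ≠ v := fun x hx =>
        ne_fst (fun h => hsρ (by rw [hs, ← h]; exact hx)) (fun h => htρ (by rw [ht, ← h]; exact hx))
      obtain ⟨p', q', hp', hq', hpq', hps', hqt', hpT, hqT⟩ := anti_split hG hk hk2 (c' (insert s ρ))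
        (ρ.filter (fun x => (ofLex x).1 ∉ Z))
        (fun x hx => hN x (hTy'.2.1 x (Finset.mem_filter.1 hx).1).1)
        (hTy'.1.subset (by intro x hx; exact (Finset.mem_filter.1 (Finset.mem_coe.1 hx)).1))
        (fun x hx => hc.anti _ x (Finset.mem_insert_of_mem (Finset.mem_filter.1 hx).1) (by
          rintro (h | h)
          · exact hne x (Finset.mem_filter.1 hx).1 h
          · exact (Finset.mem_filter.1 hx).2 h)) p q hp hq hpq hps hqt
      exact ⟨p', q', hp', hq', fun _ => hpq', hps', hqt', fun x hx hxZ => hpT x (Finset.mem_filter.2 ⟨hx, hxZ⟩),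
        fun x hx hxZ => hqT x (Finset.mem_filter.2 ⟨hx, hxZ⟩), fun h => absurd ⟨hsρ, htρ, hTy⟩ h⟩
    · refine ⟨0, 0, mem_IM.1 (IM K u Y E).zero_mem, mem_IM.1 (IM K u Y E).zero_mem, ?_,
        fun w => by simp, fun w => by simp, fun x _ _ w => by simp, fun x _ _ w => by simp, fun _ => ⟨rfl, rfl⟩⟩
      intro h5
      rw [add_zero]
      by_cases h6 : t ∈ ρ
      · exact hct _ (Finset.mem_insert_of_mem h6)
      · exact hc.zero fun h7 => hT ⟨h5, h6, h7⟩
  choose p q hpm hqm hpq hps hqt hpx hqx hpq0 using hsplit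
  let c : Finset (V ×ₗ Bool) → W (Oc G) → R := fun T =>
    if s ∈ T then (if t ∈ T then 0 else p (T.erase s)) else if t ∈ T then q (T.erase t) else c' T
  have cst : ∀ T : Finset (V ×ₗ Bool), s ∈ T → t ∈ T → c T = 0 := by
    intro T h5 h6
    show (if s ∈ T then (if t ∈ T then 0 else p (T.erase s)) else if t ∈ T then q (T.erase t) else c' T) = 0
    rw [if_pos h5, if_pos h6]
  have cs : ∀ T : Finset (V ×ₗ Bool), s ∉ T → t ∉ T → c (insert s T) = p T := by
    intro T h5 h6
    show (if s ∈ insert s T then (if t ∈ insert s T then 0 else p ((insert s T).erase s))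
      else if t ∈ insert s T then q ((insert s T).erase t) else c' (insert s T)) = _
    rw [if_pos (Finset.mem_insert_self _ _), if_neg, Finset.erase_insert h5]
    rw [Finset.mem_insert, not_or]
    exact ⟨hst.symm, h6⟩
  have ct : ∀ T : Finset (V ×ₗ Bool), s ∉ T → t ∉ T → c (insert t T) = q T := by
    intro T h5 h6
    show (if s ∈ insert t T then (if t ∈ insert t T then 0 else p ((insert t T).erase s))
      else if t ∈ insert t T then q ((insert t T).erase t) else c' (insert t T)) = _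
    rw [if_neg, if_pos (Finset.mem_insert_self _ _), Finset.erase_insert h6]
    rw [Finset.mem_insert, not_or]
    exact ⟨hst, h5⟩
  have cn : ∀ T : Finset (V ×ₗ Bool), s ∉ T → t ∉ T → c T = c' T := by
    intro T h5 h6
    show (if s ∈ T then (if t ∈ T then 0 else p (T.erase s)) else if t ∈ T then q (T.erase t) else c' T) = _
    rw [if_neg h5, if_neg h6]
  -- the two kinds of cells over `v`
  have hTs : ∀ ρ : Finset (V ×ₗ Bool), s ∉ ρ → t ∉ ρ → ¬ Ty G C Z i (insert s ρ) → p ρ = 0 ∧ q ρ = 0 := by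
    intro ρ h5 h6 h7
    refine hpq0 ρ fun h8 => h7 (h8.2.2.mono (Set.Subset.refl _) (fun x hx => Or.inr hx))
  have hTt : ∀ ρ : Finset (V ×ₗ Bool), s ∉ ρ → t ∉ ρ → ¬ Ty G C Z i (insert t ρ) → p ρ = 0 ∧ q ρ = 0 := by
    intro ρ h5 h6 h7
    rcases Nat.eq_zero_or_pos i with h0 | h0
    · refine hpq0 ρ fun h8 => ?_
      have := h8.2.2.2.2
      rw [Finset.card_insert_of_notMem h5] at this
      omega
    · obtain ⟨j, rfl⟩ : ∃ j, i = j + 1 := ⟨i - 1, by omega⟩
      refine hTs ρ h5 h6 fun h8 => h7 ?_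
      rw [ht]
      rw [hs] at h8
      exact (Ty_ins (by rw [← hs]; exact h5) (by rw [← ht]; exact h6) hvC (fun h => absurd h hvZ)).2
        ((Ty_ins (by rw [← hs]; exact h5) (by rw [← ht]; exact h6) hvC (fun h => absurd h hvZ)).1 h8)
  have hcch : ChZ K u Y E C Z i c := by
    refine ⟨fun T hT => ?_, fun T => ?_, fun T x hx hxZ w => ?_⟩
    · change ¬ Ty G C Z i T at hT
      by_cases h5 : s ∈ T
      · by_cases h6 : t ∈ T
        · exact cst T h5 h6
        · obtain ⟨ρ, hρ⟩ : ∃ ρ, ρ = T.erase s := ⟨_, rfl⟩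
          have hsρ : s ∉ ρ := by rw [hρ]; simp
          have htρ : t ∉ ρ := by rw [hρ]; simp [h6]
          have hTρ : T = insert s ρ := by rw [hρ, Finset.insert_erase h5]
          rw [hTρ, cs ρ hsρ htρ]
          rw [hTρ] at hT
          exact (hTs ρ hsρ htρ hT).1
      · by_cases h6 : t ∈ T
        · obtain ⟨ρ, hρ⟩ : ∃ ρ, ρ = T.erase t := ⟨_, rfl⟩
          have htρ : t ∉ ρ := by rw [hρ]; simp
          have hsρ : s ∉ ρ := by rw [hρ]; simp [h5]
          have hTρ : T = insert t ρ := by rw [hρ, Finset.insert_erase h6]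
          rw [hTρ, ct ρ hsρ htρ]
          rw [hTρ] at hT
          exact (hTt ρ hsρ htρ hT).2
        · rw [cn T h5 h6]
          exact hc.zero fun h7 => hT (h7.mono (Set.Subset.refl _) (fun x hx => Or.inr hx))
    · show InM K u Y E (if s ∈ T then (if t ∈ T then 0 else p (T.erase s)) else if t ∈ T then q (T.erase t) else c' T)
      split_ifs
      · exact mem_IM.1 (IM K u Y E).zero_mem
      · exact hpm _
      · exact hqm _
      · exact hc.mem _
    · by_cases h5 : s ∈ T
      · by_cases h6 : t ∈ T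
        · rw [cst T h5 h6]; simp
        · obtain ⟨ρ, hρ⟩ : ∃ ρ, ρ = T.erase s := ⟨_, rfl⟩
          have hsρ : s ∉ ρ := by rw [hρ]; simp
          have htρ : t ∉ ρ := by rw [hρ]; simp [h6]
          have hTρ : T = insert s ρ := by rw [hρ, Finset.insert_erase h5]
          rw [hTρ, cs ρ hsρ htρ]
          rw [hTρ] at hx
          rcases Finset.mem_insert.1 hx with rfl | hx
          · exact hps ρ w
          · exact hpx ρ x hx hxZ w
      · by_cases h6 : t ∈ T
        · obtain ⟨ρ, hρ⟩ : ∃ ρ, ρ = T.erase t := ⟨_, rfl⟩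
          have htρ : t ∉ ρ := by rw [hρ]; simp
          have hsρ : s ∉ ρ := by rw [hρ]; simp [h5]
          have hTρ : T = insert t ρ := by rw [hρ, Finset.insert_erase h6]
          rw [hTρ, ct ρ hsρ htρ]
          rw [hTρ] at hx
          rcases Finset.mem_insert.1 hx with rfl | hx
          · exact hqt ρ w
          · exact hqx ρ x hx hxZ w
        · have hxv : (ofLex x).1 ≠ v := ne_fst (fun h => h5 (by rw [hs, ← h]; exact hx))
            (fun h => h6 (by rw [ht, ← h]; exact hx))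
          rw [cn T h5 h6]
          exact hc.anti T x hx (by
            rintro (h7 | h7)
            · exact hxv h7
            · exact hxZ h7) w
  -- the boundary of `c`
  have hsum : ∀ ρ : Finset (V ×ₗ Bool), s ∉ ρ → t ∉ ρ →
      bdf (Oc G) c (insert s ρ) + bdf (Oc G) c (insert t ρ) = 0 := by
    intro ρ h5 h6
    have e1 := hbT (insert s ρ)
    rw [bdf_apply, sum_s hst h6, hct _ (by simp), smul_zero, zero_add] at e1
    rw [bdf_apply, bdf_apply, sum_s hst h6, sum_t hst h5, cst _ (by simp) (by simp), cst _ (by simp) (by simp),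
      smul_zero, smul_zero, zero_add, zero_add, ← Finset.sum_add_distrib, ← e1]
    refine Finset.sum_congr rfl fun x hx => ?_
    obtain ⟨hxρ, hxs, hxt⟩ := mem_B hx
    have h7 : s ∉ insert x ρ := by simp [hxs.symm, h5]
    have h8 : t ∉ insert x ρ := by simp [hxt.symm, h6]
    rw [hsgx ρ x h5 h6 hxs hxt, Finset.insert_comm x s, Finset.insert_comm x t, cs _ h7 h8, ct _ h7 h8,
      hpq (insert x ρ) h7, smul_add]
  have hzero : ∀ ρ : Finset (V ×ₗ Bool), s ∉ ρ → t ∉ ρ → bdf (Oc G) c (insert s ρ) = 0 ∧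
      bdf (Oc G) c (insert t ρ) = 0 := by
    intro ρ h5 h6
    have h7 := hsum ρ h5 h6
    have h9 : bdf (Oc G) c (insert s ρ) = 0 := by
      refine I _ (hcch.bd_mem _) (fun w => hcch.bd_anti _ (Finset.mem_insert_self _ _) (by rw [hsv]; exact hvZ) w)
        (fun w => ?_)
      rw [eq_neg_of_add_eq_zero_left h7, Pi.neg_apply, Pi.neg_apply,
        hcch.bd_anti _ (Finset.mem_insert_self _ _) (by rw [htv]; exact hvZ) w]
    exact ⟨h9, by rw [h9, zero_add] at h7; exact h7⟩
  have hbc' : bdf (Oc G) c = 0 := by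
    funext T
    show bdf (Oc G) c T = 0
    by_cases h5 : s ∈ T
    · by_cases h6 : t ∈ T
      · rw [bdf_apply]
        exact Finset.sum_eq_zero fun x _ => by
          rw [cst _ (Finset.mem_insert_of_mem h5) (Finset.mem_insert_of_mem h6), smul_zero]
      · have h7 := (hzero (T.erase s) (by simp) (by simp [h6])).1
        rwa [Finset.insert_erase h5] at h7
    · by_cases h6 : t ∈ T
      · have h7 := (hzero (T.erase t) (by simp [h5]) (by simp)).2
        rwa [Finset.insert_erase h6] at h7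
      · have e1 := hbT T
        rw [bdf_apply, sum_st hst h5 h6, hct _ (Finset.mem_insert_self _ _), smul_zero, zero_add, hpq T h5] at e1
        rw [bdf_apply, sum_st hst h5 h6, hsg T h5 h6, cs T h5 h6, ct T h5 h6, ← add_assoc, ← smul_add, ← e1]
        congr 1
        refine Finset.sum_congr rfl fun x hx => ?_
        obtain ⟨hxρ, hxs, hxt⟩ := mem_B hx
        rw [cn (insert x T) (by simp [hxs.symm, h5]) (by simp [hxt.symm, h6])]
  obtain ⟨e, he, hbe⟩ := H c hcch hbc'
  have hbeT : ∀ T, bdf (Oc G) e T = c T := fun T => by rw [hbe]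
  have hez : ∀ T : Finset (V ×ₗ Bool), s ∈ T → t ∈ T → e T = 0 := fun T h5 h6 =>
    he.zero (Ty_not (hs ▸ h5) (ht ▸ h6))
  -- the image in the chains with `v` in `Z`
  let φ : Finset (V ×ₗ Bool) → W (Oc G) → R := fun T =>
    if s ∈ T then (if t ∈ T then 0 else e T + e (insert t (T.erase s))) else if t ∈ T then 0 else e T
  have φst : ∀ T : Finset (V ×ₗ Bool), t ∈ T → φ T = 0 := by
    intro T h5
    show (if s ∈ T then (if t ∈ T then 0 else e T + e (insert t (T.erase s))) else if t ∈ T then 0 else e T) = 0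
    rw [if_pos h5, if_pos h5, ite_self]
  have φs : ∀ T : Finset (V ×ₗ Bool), s ∉ T → t ∉ T → φ (insert s T) = e (insert s T) + e (insert t T) := by
    intro T h5 h6
    show (if s ∈ insert s T then (if t ∈ insert s T then 0 else e (insert s T) + e (insert t ((insert s T).erase s)))
      else if t ∈ insert s T then 0 else e (insert s T)) = _
    rw [if_pos (Finset.mem_insert_self _ _), if_neg, Finset.erase_insert h5]
    rw [Finset.mem_insert, not_or]
    exact ⟨hst.symm, h6⟩
  have φn : ∀ T : Finset (V ×ₗ Bool), s ∉ T → t ∉ T → φ T = e T := by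
    intro T h5 h6
    show (if s ∈ T then (if t ∈ T then 0 else e T + e (insert t (T.erase s))) else if t ∈ T then 0 else e T) = _
    rw [if_neg h5, if_neg h6]
  have hφ : ChZ K u Y E C (insert v Z) (i + 1) φ := by
    refine ⟨fun T hT => ?_, fun T => ?_, fun T x hx hxZ w => ?_⟩
    · by_cases h6 : t ∈ T
      · exact φst T h6
      · by_cases h5 : s ∈ T
        · obtain ⟨ρ, hρ⟩ : ∃ ρ, ρ = T.erase s := ⟨_, rfl⟩
          have hsρ : s ∉ ρ := by rw [hρ]; simp
          have htρ : t ∉ ρ := by rw [hρ]; simp [h6]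
          have hTρ : T = insert s ρ := by rw [hρ, Finset.insert_erase h5]
          rw [hTρ, φs ρ hsρ htρ]
          have h7 : ¬ Ty G (C ∩ G.neighborSet v) Z i ρ := by
            intro h8
            apply hT
            rw [hTρ, hs]
            rw [hs] at hsρ
            rw [ht] at htρ
            refine (Ty_ins hsρ htρ hvC (fun _ => rfl)).2 ⟨h8.1, fun x hx => ⟨(h8.2.1 x hx).1, ?_⟩, h8.2.2⟩
            rintro (h9 | h9)
            · exact absurd h9 (ne_fst (fun h => hsρ (h ▸ hx)) (fun h => htρ (h ▸ hx)))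
            · exact (h8.2.1 x hx).2 h9
          rw [he.zero, he.zero, add_zero]
          · rw [ht]
            rw [hs] at hsρ
            rw [ht] at htρ
            exact fun h8 => h7 ((Ty_ins hsρ htρ hvC (fun h => absurd h hvZ)).1 h8)
          · rw [hs]
            rw [hs] at hsρ
            rw [ht] at htρ
            exact fun h8 => h7 ((Ty_ins hsρ htρ hvC (fun h => absurd h hvZ)).1 h8)
        · rw [φn T h5 h6]
          refine he.zero fun h7 => hT ⟨h7.1, fun x hx => ⟨(h7.2.1 x hx).1, ?_⟩, h7.2.2⟩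
          rintro (h9 | h9)
          · exact absurd h9 (ne_fst (fun h => h5 (by rw [hs, ← h]; exact hx)) (fun h => h6 (by rw [ht, ← h]; exact hx)))
          · exact (h7.2.1 x hx).2 h9
    · show InM K u Y E (if s ∈ T then (if t ∈ T then 0 else e T + e (insert t (T.erase s))) else
        if t ∈ T then 0 else e T)
      split_ifs
      · exact mem_IM.1 (IM K u Y E).zero_mem
      · exact mem_IM.1 ((IM K u Y E).add_mem (mem_IM.2 (he.mem _)) (mem_IM.2 (he.mem _)))
      · exact mem_IM.1 (IM K u Y E).zero_mem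
      · exact he.mem _
    · have hxv : (ofLex x).1 ≠ v := fun h => hxZ (Or.inl h)
      have hxZ' : (ofLex x).1 ∉ Z := fun h => hxZ (Or.inr h)
      have hxs : x ≠ s := fun h => hxv (by rw [h, hsv])
      by_cases h6 : t ∈ T
      · rw [φst T h6]; simp
      · by_cases h5 : s ∈ T
        · obtain ⟨ρ, hρ⟩ : ∃ ρ, ρ = T.erase s := ⟨_, rfl⟩
          have hsρ : s ∉ ρ := by rw [hρ]; simp
          have htρ : t ∉ ρ := by rw [hρ]; simp [h6]
          have hTρ : T = insert s ρ := by rw [hρ, Finset.insert_erase h5]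
          have hxρ : x ∈ ρ := by rw [hρ]; exact Finset.mem_erase.2 ⟨hxs, hx⟩
          rw [hTρ, φs ρ hsρ htρ, Pi.add_apply, Pi.add_apply,
            he.anti (insert s ρ) x (Finset.mem_insert_of_mem hxρ) hxZ' w,
            he.anti (insert t ρ) x (Finset.mem_insert_of_mem hxρ) hxZ' w]
          abel
        · rw [φn T h5 h6]
          exact he.anti T x hx hxZ' w
  refine ⟨φ, hφ, ?_⟩
  funext T
  show bdf (Oc G) φ T = c' T
  by_cases h6 : t ∈ T
  · rw [bdf_apply, hct T h6]
    exact Finset.sum_eq_zero fun x _ => by rw [φst _ (Finset.mem_insert_of_mem h6), smul_zero]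
  · by_cases h5 : s ∈ T
    · obtain ⟨ρ, hρ⟩ : ∃ ρ, ρ = T.erase s := ⟨_, rfl⟩
      have hsρ : s ∉ ρ := by rw [hρ]; simp
      have htρ : t ∉ ρ := by rw [hρ]; simp [h6]
      have hTρ : T = insert s ρ := by rw [hρ, Finset.insert_erase h5]
      have e1 := hbeT (insert s ρ)
      have e2 := hbeT (insert t ρ)
      rw [bdf_apply, sum_s hst htρ, hez _ (by simp) (by simp), smul_zero, zero_add, cs ρ hsρ htρ] at e1
      rw [bdf_apply, sum_t hst hsρ, hez _ (by simp) (by simp), smul_zero, zero_add, ct ρ hsρ htρ] at e2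
      rw [hTρ, bdf_apply, sum_s hst htρ, φst _ (by simp), smul_zero, zero_add, hpq ρ hsρ, ← e1, ← e2,
        ← Finset.sum_add_distrib]
      refine Finset.sum_congr rfl fun x hx => ?_
      obtain ⟨hxρ, hxs, hxt⟩ := mem_B hx
      rw [Finset.insert_comm x s, φs (insert x ρ) (by simp [hxs.symm, hsρ]) (by simp [hxt.symm, htρ]),
        hsgx ρ x hsρ htρ hxs hxt, smul_add, Finset.insert_comm t x]
    · have e1 := hbeT T
      rw [bdf_apply, sum_st hst h5 h6, hsg T h5 h6, ← add_assoc, ← smul_add, cn T h5 h6] at e1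
      rw [bdf_apply, sum_st hst h5 h6, φs T h5 h6, φst _ (Finset.mem_insert_self _ _), smul_zero, zero_add]
      rw [← e1]
      congr 1
      refine Finset.sum_congr rfl fun x hx => ?_
      obtain ⟨hxρ, hxs, hxt⟩ := mem_B hx
      rw [φn (insert x T) (by simp [hxs.symm, h5]) (by simp [hxt.symm, h6])]

end Pool.Agent.H6.RA
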