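import Pool.Agent.H7.L.N496_CV_Stm3
import Pool.Agent.H7.L.N496_CV_L2Def

/-!
# Project RA (helper6): `L²`-Betti numbers of all subgroups of right-angled Artin groups. Definitions.

`G` is a finite graph, `L` its flag complex. `W (Oc G)` is the graph product of infinite dihedral groups over `G`. It is
commensurable to the right-angled Artin group `RAAG G`, which it contains.
-/

set_option autoImplicit false

noncomputable section

namespace Pool.Agent.H6.RA

open Pool.Agent.W907.SG Pool.Agent.W461.SGN Pool.Agent.N496.CV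

/-- two non-adjacent copies `(v, false)`, `(v, true)` of each vertex `v`; copies of adjacent vertices are adjacent -/
def Oc {V : Type} (G : SimpleGraph V) : SimpleGraph (V ×ₗ Bool) where
  Adj x y := G.Adj (ofLex x).1 (ofLex y).1
  symm := ⟨fun _ _ h => h.symm⟩
  loopless := ⟨fun _ h => G.loopless.irrefl _ h⟩

/-- the vertices over `C` -/
def up {V : Type} (C : Set V) : Set (V ×ₗ Bool) := {x | (ofLex x).1 ∈ C}

/-- the common neighbours of the elements of `τ` (all the vertices if `τ` is empty) -/
def lkS {V : Type} (G : SimpleGraph V) (τ : Finset V) : Set V := {v | ∀ u ∈ τ, G.Adj u v}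

section

variable {V : Type} [Fintype V] [LinearOrder V]

/-- the simplicial boundary -/
def bq (a : Finset V → ℚ) (T : Finset V) : ℚ := ∑ v ∈ Tᶜ, (sg v T : ℚ) * a (insert v T)

/-- `a` is a rational chain of the full subcomplex on `C` of the flag complex, supported on the simplices with `i`
vertices (the empty simplex included) -/
def IsQ (G : SimpleGraph V) (C : Set V) (i : ℕ) (a : Finset V → ℚ) : Prop :=
  ∀ T : Finset V, ¬ (G.IsClique (T : Set V) ∧ (T : Set V) ⊆ C ∧ T.card = i) → a T = 0

/-- the reduced rational homology of the full subcomplex on `C` vanishes in degree `i - 1` -/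
def Ac (G : SimpleGraph V) (C : Set V) (i : ℕ) : Prop :=
  ∀ a : Finset V → ℚ, IsQ G C i a → bq a = 0 → ∃ b : Finset V → ℚ, IsQ G C (i + 1) b ∧ bq b = a

end

section

variable {V : Type} [Fintype V] [LinearOrder V] {G : SimpleGraph V} {R : Type} [Ring R]

/-- mixed chains: over the vertices in `Z` only the copy `(v, false)` is used, without a condition of antisymmetry -/
structure ChZ (K : Subgroup (W (Oc G))) (u : K →* R) (Y : Set (W (Oc G))) (E : Subgroup (W (Oc G) × ℤˣ)) (C Z : Set V)
    (i : ℕ) (c : Finset (V ×ₗ Bool) → W (Oc G) → R) : Prop where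
  supp : ∀ T : Finset (V ×ₗ Bool), ¬ ((Oc G).IsClique (T : Set (V ×ₗ Bool)) ∧ (∀ x ∈ T, (ofLex x).1 ∈ C ∧
    ((ofLex x).1 ∈ Z → (ofLex x).2 = false)) ∧ T.card = i) → c T = 0
  mem : ∀ T, InM K u Y E (c T)
  anti : ∀ T, ∀ x ∈ T, (ofLex x).1 ∉ Z → ∀ w, c T (w * (cox (Oc G)).simple x) = - c T w

/-- the `i`-th homology of the mixed chains vanishes -/
def HvZ (K : Subgroup (W (Oc G))) (u : K →* R) (Y : Set (W (Oc G))) (E : Subgroup (W (Oc G) × ℤˣ)) (C Z : Set V)
    (i : ℕ) : Prop :=
  ∀ c, ChZ K u Y E C Z i c → bdf (Oc G) c = 0 → ∃ e, ChZ K u Y E C Z (i + 1) e ∧ bdf (Oc G) e = c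

end

/-- the right-angled Artin group of `G` -/
def RAAG {V : Type} (G : SimpleGraph V) : Type :=
  PresentedGroup {r : FreeGroup V | ∃ a b, G.Adj a b ∧ r = FreeGroup.of a * FreeGroup.of b * (FreeGroup.of a)⁻¹ * (FreeGroup.of b)⁻¹}

instance {V : Type} (G : SimpleGraph V) : Group (RAAG G) := by unfold RAAG; infer_instance

/-- the generators of the right-angled Artin group -/
def gen {V : Type} (G : SimpleGraph V) (v : V) : RAAG G := PresentedGroup.of v

/-- the generators `(v, false)` and `(v, true)` of the graph product of infinite dihedral groups -/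
def sV {V : Type} (G : SimpleGraph V) (b : Bool) (v : V) : W (Oc G) := (cox (Oc G)).simple (toLex (v, b))

end Pool.Agent.H6.RA
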