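import Pool.Agent.H6.RA.Defs

/-!
# Project RA (helper6): the conjugates of the products of infinite dihedral groups which a subgroup meets trivially
-/

set_option autoImplicit false

noncomputable section

namespace Pool.Agent.H6.RA

open Pool.Agent.W907.SG Pool.Agent.W461.SGN Pool.Agent.N496.CV

/-- the subgroup `D_τ` of `W (Oc G)` generated by the two copies of each element of `τ`; it is a product of infinite
dihedral groups if `τ` is a clique -/
def DT {V : Type} (G : SimpleGraph V) (τ : Set V) : Subgroup (W (Oc G)) :=
  Subgroup.closure ((cox (Oc G)).simple '' up τ)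

/-- the image of `f : K → W (Oc G)` meets some conjugate `w D_τ w⁻¹` trivially -/
def TrivAt {V K : Type} [Group K] {G : SimpleGraph V} (f : K →* W (Oc G)) (τ : Set V) : Prop :=
  ∃ w : W (Oc G), ∀ k : K, w⁻¹ * f k * w ∈ DT G τ → k = 1

end Pool.Agent.H6.RA
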