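import Pool.Agent.H6.RA.Stm
import Pool.Agent.H7.L.N496_CV_P_LEN

/-! EMB (helper48): the right-angled Artin group embeds in the graph product of infinite dihedral groups. -/

set_option autoImplicit false

noncomputable section

namespace Pool.Agent.H6.RA.EM

open Pool.Agent.W907.SG Pool.Agent.W461.SGN Pool.Agent.N496.CV

/-! ### Reduced words in right-angled Coxeter groups -/

section cox

variable {V : Type} (G : SimpleGraph V)

/-- `x` can be moved to the right end (the head of the list) of a position of the word -/
def Bad (x : V) (L : List V) : Prop := ∃ A B, L = A ++ x :: B ∧ ∀ y ∈ A, G.Adj y x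

/-- no letter cancels (words are written from the right to the left) -/
def NC : List V → Prop
  | [] => True
  | x :: L => NC L ∧ ¬ Bad G x L

/-- the value of a word -/
def pr : List V → W G
  | [] => 1
  | x :: L => pr L * (cox G).simple x

theorem bad_of_desc {l : W G → ℕ}
    (hst : ∀ w s t, s ≠ t → l (w * (cox G).simple s) + 1 = l w → l (w * (cox G).simple t) + 1 = l w →
      G.Adj s t ∧ l (w * (cox G).simple s * (cox G).simple t) + 1 = l (w * (cox G).simple s))
    (L : List V) (hL : ∀ A B, L = A ++ B → l (pr G B) = B.length) (x : V)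
    (hx : l (pr G L * (cox G).simple x) + 1 = l (pr G L)) : Bad G x L := by
  induction L with
  | nil =>
    have h0 := hL [] [] rfl
    rw [h0] at hx
    simp at hx
  | cons y L ih =>
    have h1 : l (pr G (y :: L)) = L.length + 1 := by simpa using hL [] (y :: L) rfl
    have h2 : l (pr G L) = L.length := hL [y] L rfl
    have e : pr G (y :: L) * (cox G).simple y = pr G L := by
      show pr G L * (cox G).simple y * (cox G).simple y = pr G L
      rw [mul_assoc, simple_mul_self, mul_one]
    by_cases hxy : y = x
    · subst hxy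
      exact ⟨[], L, rfl, by simp⟩
    · obtain ⟨ha, hb⟩ := hst (pr G (y :: L)) y x hxy (by rw [e, h1, h2]) hx
      rw [e] at hb
      obtain ⟨A, B, hAB, hA⟩ := ih (fun A B h => hL (y :: A) B (by rw [h]; rfl)) hb
      refine ⟨y :: A, B, by rw [hAB]; rfl, ?_⟩
      intro z hz
      rcases List.mem_cons.1 hz with rfl | hz
      · exact ha
      · exact hA z hz

theorem len_of_NC {l : W G → ℕ} (h1 : l 1 = 0)
    (h3 : ∀ w t, l (w * (cox G).simple t) = l w + 1 ∨ l (w * (cox G).simple t) + 1 = l w)
    (hst : ∀ w s t, s ≠ t → l (w * (cox G).simple s) + 1 = l w → l (w * (cox G).simple t) + 1 = l w →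
      G.Adj s t ∧ l (w * (cox G).simple s * (cox G).simple t) + 1 = l (w * (cox G).simple s))
    (L : List V) (hL : NC G L) : ∀ A B, L = A ++ B → l (pr G B) = B.length := by
  induction L with
  | nil =>
    intro A B hAB
    obtain ⟨rfl, rfl⟩ := List.append_eq_nil_iff.1 hAB.symm
    exact h1
  | cons x L ih =>
    intro A B hAB
    have ihL := ih hL.1
    cases A with
    | nil =>
      have hB : B = x :: L := hAB.symm
      subst hB
      have h0 : l (pr G L) = L.length := ihL [] L rfl
      rcases h3 (pr G L) x with h | h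
      · show l (pr G L * (cox G).simple x) = _
        rw [h, h0]; rfl
      · exact absurd (bad_of_desc G hst L ihL x h) hL.2
    | cons a A =>
      have : L = A ++ B := by
        have := hAB
        simp only [List.cons_append, List.cons.injEq] at this
        exact this.2
      exact ihL A B this

/-- words without cancellation are reduced -/
theorem eq_nil_of_NC (L : List V) (hL : NC G L) (h : pr G L = 1) : L = [] := by
  obtain ⟨l, h1, _, h3, _, h5⟩ := len V G
  have := len_of_NC G h1 h3 h5 L hL [] L rfl
  rw [h, h1] at this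
  exact List.length_eq_zero_iff.1 this.symm

end cox

/-! ### Words in right-angled Artin groups -/

section raag

variable {V : Type} (G : SimpleGraph V)

/-- the letter `x` meets its inverse -/
def Bad' (v : V) (b : Bool) (L : List (V × Bool)) : Prop :=
  ∃ A B, L = A ++ (v, b) :: B ∧ ∀ y ∈ A, G.Adj y.1 v

/-- no letter cancels -/
def NC' : List (V × Bool) → Prop
  | [] => True
  | x :: L => NC' L ∧ ¬ Bad' G x.1 (!x.2) L

/-- the letters -/
def lt (x : V × Bool) : RAAG G := if x.2 then gen G x.1 else (gen G x.1)⁻¹

/-- the value of a word -/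
def vl : List (V × Bool) → RAAG G
  | [] => 1
  | x :: L => vl L * lt G x

theorem vl_append (A B : List (V × Bool)) : vl G (A ++ B) = vl G B * vl G A := by
  induction A with
  | nil => simp [vl]
  | cons a A ih =>
    show vl G (A ++ B) * lt G a = vl G B * (vl G A * lt G a)
    rw [ih, mul_assoc]

theorem gen_comm {a b : V} (h : G.Adj a b) : Commute (gen G a) (gen G b) := by
  have h1 : (PresentedGroup.mk {r : FreeGroup V | ∃ a b, G.Adj a b ∧
      r = FreeGroup.of a * FreeGroup.of b * (FreeGroup.of a)⁻¹ * (FreeGroup.of b)⁻¹})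
      (FreeGroup.of a * FreeGroup.of b * (FreeGroup.of a)⁻¹ * (FreeGroup.of b)⁻¹) = 1 :=
    PresentedGroup.one_of_mem ⟨a, b, h, rfl⟩
  rw [map_mul, map_mul, map_mul, map_inv, map_inv] at h1
  have h2 : gen G a * gen G b * (gen G a)⁻¹ * (gen G b)⁻¹ = 1 := h1
  have h3 : gen G a * gen G b = gen G b * gen G a := by
    have := mul_inv_eq_one.1 h2
    have h4 := mul_inv_eq_iff_eq_mul.1 this
    exact h4
  exact h3

theorem lt_comm {x y : V × Bool} (h : G.Adj x.1 y.1) : Commute (lt G x) (lt G y) := by
  have hc := gen_comm G h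
  unfold lt
  split_ifs
  · exact hc
  · exact hc.inv_right
  · exact hc.inv_left
  · exact hc.inv_inv

theorem vl_comm (x : V × Bool) (A : List (V × Bool)) (hA : ∀ y ∈ A, G.Adj y.1 x.1) :
    Commute (vl G A) (lt G x) := by
  induction A with
  | nil => exact Commute.one_left _
  | cons a A ih =>
    exact (ih fun y hy => hA y (List.mem_cons_of_mem _ hy)).mul_left (lt_comm G (hA a List.mem_cons_self))

theorem lt_cancel (v : V) (b : Bool) : lt G (v, !b) * lt G (v, b) = 1 := by
  cases b <;> simp [lt]

theorem shorter (L : List (V × Bool)) (hL : ¬ NC' G L) :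
    ∃ L' : List (V × Bool), L'.length < L.length ∧ vl G L' = vl G L := by
  induction L with
  | nil => exact absurd trivial hL
  | cons x L ih =>
    by_cases h1 : NC' G L
    · have h2 : Bad' G x.1 (!x.2) L := by
        by_contra h2
        exact hL ⟨h1, h2⟩
      obtain ⟨A, B, hAB, hA⟩ := h2
      refine ⟨A ++ B, by rw [hAB]; simp, ?_⟩
      show vl G (A ++ B) = vl G L * lt G x
      have h3 : vl G (A ++ (x.1, !x.2) :: B) = vl G B * lt G (x.1, !x.2) * vl G A := by
        rw [vl_append]; rfl
      rw [hAB, h3, vl_append]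
      have h4 : vl G A * lt G x = lt G x * vl G A := vl_comm G x A hA
      rw [mul_assoc, h4, mul_assoc, ← mul_assoc (lt G (x.1, !x.2)), show lt G x = lt G (x.1, x.2) from rfl,
        lt_cancel, one_mul]
    · obtain ⟨L', h2, h3⟩ := ih h1
      refine ⟨x :: L', by simp; omega, ?_⟩
      show vl G L' * lt G x = vl G L * lt G x
      rw [h3]

theorem vl_surj (g : RAAG G) : ∃ L, vl G L = g := by
  have hg : (g : PresentedGroup {r : FreeGroup V | ∃ a b, G.Adj a b ∧
      r = FreeGroup.of a * FreeGroup.of b * (FreeGroup.of a)⁻¹ * (FreeGroup.of b)⁻¹}) ∈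
      Subgroup.closure (Set.range (PresentedGroup.of)) := by
    rw [PresentedGroup.closure_range_of]; exact Subgroup.mem_top _
  refine Subgroup.closure_induction_right (p := fun x _ => ∃ L, vl G L = x) ⟨[], rfl⟩ ?_ ?_ hg
  · rintro x _ _ ⟨v, rfl⟩ ⟨L, hL⟩
    refine ⟨(v, true) :: L, ?_⟩
    show vl G L * lt G (v, true) = x * _
    rw [hL]
    rfl
  · rintro x _ _ ⟨v, rfl⟩ ⟨L, hL⟩
    refine ⟨(v, false) :: L, ?_⟩
    show vl G L * lt G (v, false) = x * _
    rw [hL]
    rfl

theorem exists_NC (g : RAAG G) : ∃ L, NC' G L ∧ vl G L = g := by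
  classical
  have hex : ∃ n, ∃ L, vl G L = g ∧ L.length = n := by
    obtain ⟨L, hL⟩ := vl_surj G g
    exact ⟨_, L, hL, rfl⟩
  obtain ⟨L, hL, hn⟩ := Nat.find_spec hex
  refine ⟨L, ?_, hL⟩
  by_contra hcon
  obtain ⟨L', h1, h2⟩ := shorter G L hcon
  exact Nat.find_min hex (m := L'.length) (by omega) ⟨L', h2.trans hL, rfl⟩

/-! ### The map -/

/-- the image word -/
def ex : List (V × Bool) → List (V ×ₗ Bool)
  | [] => []
  | x :: L => toLex (x.1, x.2) :: toLex (x.1, !x.2) :: toLex (x.1, x.2) :: toLex (x.1, !x.2) :: ex L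

theorem oc_adj {x y : V ×ₗ Bool} : (Oc G).Adj x y ↔ G.Adj (ofLex x).1 (ofLex y).1 := Iff.rfl

theorem bad_ex (v : V) (b : Bool) (L : List (V × Bool)) (h : Bad (Oc G) (toLex (v, b)) (ex L)) :
    Bad' G v b L := by
  induction L with
  | nil =>
    obtain ⟨A, B, h1, _⟩ := h
    exact absurd h1 (by simp [ex])
  | cons x L ih =>
    obtain ⟨A, B, h1, h2⟩ := h
    obtain ⟨u, c⟩ := x
    have h1' : toLex (u, c) :: toLex (u, !c) :: toLex (u, c) :: toLex (u, !c) :: ex L =
        A ++ toLex (v, b) :: B := h1
    cases A with
    | nil =>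
      simp only [List.nil_append, List.cons.injEq] at h1'
      have h3 : (u, c) = (v, b) := toLex.injective h1'.1
      refine ⟨[], L, ?_, by simp⟩
      rw [h3]; rfl
    | cons a A =>
      simp only [List.cons_append, List.cons.injEq] at h1'
      have ha : G.Adj u v := by
        have := h2 a List.mem_cons_self
        rw [← h1'.1] at this
        exact this
      have hne : u ≠ v := ha.ne
      have key : ∀ (c' : Bool), toLex (u, c') ≠ toLex (v, b) := fun c' he => by
        have := toLex.injective he
        exact hne (Prod.ext_iff.1 this).1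
      cases A with
      | nil =>
        simp only [List.nil_append, List.cons.injEq] at h1'
        exact absurd h1'.2.1 (key _)
      | cons a2 A =>
        simp only [List.cons_append, List.cons.injEq] at h1'
        cases A with
        | nil =>
          simp only [List.nil_append, List.cons.injEq] at h1'
          exact absurd h1'.2.2.1 (key _)
        | cons a3 A =>
          simp only [List.cons_append, List.cons.injEq] at h1'
          cases A with
          | nil =>
            simp only [List.nil_append, List.cons.injEq] at h1'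
            exact absurd h1'.2.2.2.1 (key _)
          | cons a4 A =>
            simp only [List.cons_append, List.cons.injEq] at h1'
            obtain ⟨A', B', h4, h5⟩ := ih ⟨A, B, h1'.2.2.2.2, fun y hy => h2 y (by simp [hy])⟩
            refine ⟨(u, c) :: A', B', by rw [h4]; rfl, ?_⟩
            intro y hy
            rcases List.mem_cons.1 hy with rfl | hy
            · exact ha
            · exact h5 y hy

theorem not_bad_cons (v : V) (b : Bool) (M : List (V ×ₗ Bool)) :
    ¬ Bad (Oc G) (toLex (v, !b)) (toLex (v, b) :: M) := by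
  rintro ⟨A, B, h1, h2⟩
  cases A with
  | nil =>
    simp only [List.nil_append, List.cons.injEq] at h1
    have h3 : (v, b) = (v, !b) := toLex.injective h1.1
    have h4 : b = !b := (Prod.ext_iff.1 h3).2
    cases b <;> simp at h4
  | cons a A =>
    simp only [List.cons_append, List.cons.injEq] at h1
    have h3 := h2 a List.mem_cons_self
    rw [← h1.1, oc_adj] at h3
    exact G.loopless.irrefl _ h3

theorem NC_ex (L : List (V × Bool)) (h : NC' G L) : NC (Oc G) (ex L) := by
  induction L with
  | nil => exact trivial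
  | cons x L ih =>
    obtain ⟨v, b⟩ := x
    obtain ⟨h1, h2⟩ := h
    have e1 : NC (Oc G) (ex L) := ih h1
    have e2 : ¬ Bad (Oc G) (toLex (v, !b)) (ex L) := fun hb => h2 (bad_ex G v (!b) L hb)
    have n1 : ∀ M : List (V ×ₗ Bool), ¬ Bad (Oc G) (toLex (v, b)) (toLex (v, !b) :: M) := fun M => by
      have := not_bad_cons G v (!b) M
      rwa [Bool.not_not] at this
    exact ⟨⟨⟨⟨e1, e2⟩, n1 _⟩, not_bad_cons G v b _⟩, n1 _⟩

theorem sV_def (b : Bool) (v : V) : sV G b v = (cox (Oc G)).simple (toLex (v, b)) := rfl

theorem sV_self (b : Bool) (v : V) : sV G b v * sV G b v = 1 := simple_mul_self (Oc G) _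

theorem sV_comm (b c : Bool) {v w : V} (h : G.Adj v w) : Commute (sV G b v) (sV G c w) :=
  simple_comm (Oc G) _ _ h

/-- the image of the generator -/
def im (v : V) : W (Oc G) := (sV G false v * sV G true v) ^ 2

theorem im_comm {v w : V} (h : G.Adj v w) : Commute (im G v) (im G w) := by
  unfold im
  refine Commute.pow_pow ?_ 2 2
  exact ((sV_comm G false false h).mul_right (sV_comm G false true h)).mul_left
    ((sV_comm G true false h).mul_right (sV_comm G true true h))

theorem im_inv (v : V) : (im G v)⁻¹ = (sV G true v * sV G false v) ^ 2 := by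
  unfold im
  rw [inv_eq_iff_mul_eq_one]
  have h1 : sV G false v * sV G true v * (sV G true v * sV G false v) = 1 := by
    rw [mul_assoc, ← mul_assoc (sV G true v), sV_self, one_mul, sV_self]
  rw [pow_two, pow_two]
  rw [mul_assoc, ← mul_assoc (sV G false v * sV G true v) (sV G true v * sV G false v), h1, one_mul, h1]

/-- the embedding -/
def phi : RAAG G →* W (Oc G) :=
  (PresentedGroup.toGroup (f := im G) (rels := {r : FreeGroup V | ∃ a b, G.Adj a b ∧
      r = FreeGroup.of a * FreeGroup.of b * (FreeGroup.of a)⁻¹ * (FreeGroup.of b)⁻¹}) (by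
    rintro r ⟨a, b, h, rfl⟩
    simp only [map_mul, map_inv, FreeGroup.lift_apply_of]
    rw [mul_inv_eq_one, mul_inv_eq_iff_eq_mul]
    exact im_comm G h) : PresentedGroup _ →* W (Oc G))

theorem phi_gen (v : V) : phi G (gen G v) = im G v :=
  PresentedGroup.toGroup.of _

theorem pr_ex (L : List (V × Bool)) : pr (Oc G) (ex L) = phi G (vl G L) := by
  induction L with
  | nil => exact (map_one (phi G)).symm
  | cons x L ih =>
    obtain ⟨v, b⟩ := x
    show pr (Oc G) (ex L) * sV G (!b) v * sV G b v * sV G (!b) v * sV G b v = phi G (vl G L * lt G (v, b))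
    rw [map_mul, ← ih]
    have e : phi G (lt G (v, b)) = sV G (!b) v * sV G b v * (sV G (!b) v * sV G b v) := by
      cases b
      · simp only [lt, Bool.false_eq_true, if_false, Bool.not_false]
        rw [map_inv, phi_gen, im_inv, pow_two]
      · simp only [lt, if_true, Bool.not_true]
        rw [phi_gen, im, pow_two]
    rw [e]
    simp only [mul_assoc]

theorem phi_inj : Function.Injective (phi G) := by
  rw [injective_iff_map_eq_one]
  intro g hg
  obtain ⟨L, hL, rfl⟩ := exists_NC G g
  rw [← pr_ex] at hg
  have h1 := eq_nil_of_NC (Oc G) (ex L) (NC_ex G L hL) hg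
  cases L with
  | nil => rfl
  | cons x L => exact absurd h1 (by simp [ex])

theorem phi_th (g : RAAG G) : th (Oc G) (phi G g) = 1 := by
  obtain ⟨L, rfl⟩ := vl_surj G g
  have hgen : ∀ v, th (Oc G) (phi G (gen G v)) = 1 := by
    intro v
    rw [phi_gen, im, map_pow]
    funext u
    rw [Pi.pow_apply, Pi.one_apply, Int.units_sq]
  induction L with
  | nil =>
    show th (Oc G) (phi G 1) = 1
    rw [map_one, map_one]
  | cons x L ih =>
    show th (Oc G) (phi G (vl G L * lt G x)) = 1
    rw [map_mul, map_mul, ih, one_mul]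
    unfold lt
    split_ifs
    · exact hgen _
    · rw [map_inv, map_inv, hgen, inv_one]

end raag

end Pool.Agent.H6.RA.EM

namespace Pool.Agent.H6.RA

theorem emb : S_EMB := by
  intro V _ G
  refine ⟨EM.phi G, EM.phi_inj G, fun v => EM.phi_gen G v, ?_⟩
  rintro _ ⟨g, rfl⟩
  exact MonoidHom.mem_ker.2 (EM.phi_th G g)

end Pool.Agent.H6.RA
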