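import Pool.Agent.H6.RA.MAIN1

/-!
# Project RA (helper6): the `L²`-Betti numbers of a group which is isomorphic to a subgroup of the kernel
-/

set_option autoImplicit false
set_option linter.unusedSectionVars false

noncomputable section

namespace Pool.Agent.H6.RA

open Pool.Agent.W907.SG Pool.Agent.W461.SGN Pool.Agent.N496.LT Pool.Agent.Helper655.VN Pool.Agent.RK
open Pool.Agent.N496.CV
open scoped ENNReal InnerProductSpace

attribute [local instance] VN831.bcFunctor_additive VN831.viaAdd VN831.viaMod V7N.bcF_additive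
  V7N.rmAdd V7N.rmMod

theorem dimL_congr {R : Type} [Ring R] (tr : R → ℝ) {M M' : Type} [AddCommGroup M] [Module R M]
    [AddCommGroup M'] [Module R M'] (f : M ≃ₗ[R] M') : dimL tr M = dimL tr M' := by
  unfold dimL
  refine iSup_congr fun k => iSup_congr fun e => iSup_congr fun he => ?_
  refine iSup_congr_Prop ⟨?_, ?_⟩ (fun _ => rfl)
  · rintro ⟨g, hg⟩
    exact ⟨f.toLinearMap ∘ₗ g, f.injective.comp hg⟩
  · rintro ⟨g, hg⟩
    exact ⟨f.symm.toLinearMap ∘ₗ g, f.symm.injective.comp hg⟩

theorem isVN_comp {K K' N H : Type} [Group K] [Group K'] [Ring N] [NormedAddCommGroup H] [InnerProductSpace ℂ H]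
    [CompleteSpace H] {c : K' →* N} {tr : N → ℝ} {e : K' → H} {π : N →+* (H →L[ℂ] H)} (h : IsVN c tr e π)
    (f : K ≃* K') : IsVN (c.comp f.toMonoidHom) tr (fun k => e (f k)) π where
  orth := h.orth.comp _ f.injective
  dense := by
    have : Set.range (fun k => e (f k)) = Set.range e := by
      ext x
      constructor
      · rintro ⟨k, rfl⟩
        exact ⟨f k, rfl⟩
      · rintro ⟨k, rfl⟩
        exact ⟨f.symm k, by simp⟩
    rw [this]
    exact h.dense
  inj := h.inj
  range T := by
    rw [h.range T]
    constructor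
    · intro h1 g R hR ξ
      refine h1 (f g) R (fun k => ?_) ξ
      have := hR (f.symm k)
      simpa using this
    · intro h1 g R hR ξ
      refine h1 (f.symm g) R (fun k => ?_) ξ
      have := hR (f k)
      simpa using this
  left g k := by
    show π (c (f g)) (e (f k)) = e (f (g * k))
    rw [h.left, map_mul]
  trace x := by
    show tr x = _
    rw [h.trace x, map_one]

/-- the `L²`-Betti numbers of a group `L` which is isomorphic to a subgroup `K` of the kernel -/
theorem has_iso {V : Type} [Fintype V] [LinearOrder V] (G : SimpleGraph V) (K : Subgroup (W G)) (n : ℕ)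
    (hK : K ≤ (th G).ker) (L : Type) [Group L] (f : L ≃* K) :
    HasL2Betti L (n + 1) (VN831.l2Betti K (n + 1)) := by
  classical
  obtain ⟨ε, h1, h2, h3, h4⟩ := res (dac len) CB.conv V G
  let C : V7N.FreeRes (th G).ker := ⟨(davis G).toFree.rank, (davis G).toFree.d, ε, h1, h2, h3, h4⟩
  let i : K →* (th G).ker := Subgroup.inclusion hK
  have hi : Function.Injective i := Subgroup.inclusion_injective hK
  let j := Pool.Agent.Helper277.VN5.jN K
  let cW : (th G).ker →* NG (W G) := (canL : W G →* NG (W G)).comp (th G).ker.subtype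
  have hc : ∀ k : K, j (canL k) = cW (i k) := fun k => Pool.Agent.Helper277.VN5.jN_canL K k
  have hind : VN831.CosetIndep j cW i.range := by
    intro s hs x hx g hg
    let x' : W G → NG K := fun w => if h : w ∈ (th G).ker then x ⟨w, h⟩ else 0
    have hx' : ∀ g : (th G).ker, x' g = x g := fun g => dif_pos g.2
    have h5 := Pool.Agent.Helper277.VN5.jN_indep K (s.map (Function.Embedding.subtype _)) x' ?_ ?_ (g : W G)
      (Finset.mem_map_of_mem _ hg)
    · rw [← hx' g]
      exact h5
    · intro y hy y' hy' hne hmem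
      obtain ⟨a, ha, rfl⟩ := Finset.mem_map.1 hy
      obtain ⟨a', ha', rfl⟩ := Finset.mem_map.1 hy'
      refine hs a ha a' ha' (fun h => hne (by rw [h])) ⟨⟨_, hmem⟩, ?_⟩
      exact Subtype.ext rfl
    · rw [Finset.sum_map, ← hx]
      refine Finset.sum_congr rfl fun g _ => ?_
      show j (x' g) * _ = _
      rw [hx' g]
      rfl
  obtain ⟨f1⟩ := V7N.v7_succ C n i hi (canL : K →* NG K) cW j hc hind
  have hr : (i.comp f.toMonoidHom).range = i.range := by
    ext x
    constructor
    · rintro ⟨k, rfl⟩
      exact ⟨f k, rfl⟩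
    · rintro ⟨k, rfl⟩
      exact ⟨f.symm k, by simp⟩
  obtain ⟨f2⟩ := V7N.v7_succ C n (i.comp f.toMonoidHom) (hi.comp f.injective)
    ((canL : K →* NG K).comp f.toMonoidHom) cW j (fun k => hc (f k)) (by rw [hr]; exact hind)
  refine HasL2Betti.mk (NG K) (EllTwo K) ((canL : K →* NG K).comp f.toMonoidHom) (fun x => (tr x).re)
    (fun k => dl (f k)) _ (isVN_comp (isVN_NG K) f) ?_
  have h5 : dimL (fun x : NG K => (tr x).re) (homR ((canL : K →* NG K).comp f.toMonoidHom) (n + 1)) =
      dimL (fun x : NG K => (tr x).re) (homR (canL : K →* NG K) (n + 1)) :=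
    dimL_congr _ (f2.trans f1.symm)
  rw [h5]
  rfl

end Pool.Agent.H6.RA
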