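import Pool.Agent.H6.RA.Stm2
import Pool.Agent.H6.RA.MAIN1

/-!
# Project RA (helper6): back to functions on the Coxeter group
-/

set_option autoImplicit false
set_option linter.unusedSectionVars false

noncomputable section

namespace Pool.Agent.H6.RA

open Pool.Agent.W907.SG Pool.Agent.W461.SGN Pool.Agent.N496.LT Pool.Agent.Helper655.VN Pool.Agent.RK
open Pool.Agent.N496.CV
open Pool.Agent.N496.CV.FinAux (cell cell_deg exists_cell cell_inj sum_cell d_apply evM_apply)

attribute [local instance] VN831.bcFunctor_additive VN831.viaAdd VN831.viaMod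

theorem mulD_eq {X : Type} [Fintype X] [LinearOrder X] (O : SimpleGraph X) {U : Type} [Ring U]
    (u : (th O).ker →* U) (w : (davis O).ι → (th O).ker → U) (hw : ∀ i g, w i g = w i 1 * u g⁻¹)
    (j : (davis O).ι) (g : (th O).ker) :
    mulD w j g = (∑ i, w i 1 * V7N.evM u ((davis O).D i j)) * u g⁻¹ := by
  rw [Finset.sum_mul]
  unfold mulD
  refine Finset.sum_congr rfl fun i _ => ?_
  rw [evM_apply, Finsupp.sum, Finsupp.sum, Finset.mul_sum, Finset.sum_mul]
  refine Finset.sum_congr rfl fun γ _ => ?_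
  rw [hw i (g * γ⁻¹), mul_inv_rev, inv_inv, map_mul, mul_smul_comm, smul_mul_assoc, mul_assoc]

theorem rev6 (hT : S_TORS) : S_REV := by
  classical
  intro X _ _ O K _ e U _ ι u n hloc hu h0 c hc hbc
  obtain ⟨ε, h1, h2, h3, h4⟩ := res (dac len) CB.conv X O
  obtain ⟨C, hC⟩ : ∃ C : V7N.FreeRes (th O).ker, C = ⟨(davis O).toFree.rank, (davis O).toFree.d, ε, h1, h2, h3, h4⟩ :=
    ⟨_, rfl⟩
  obtain ⟨Ψ, p1, p2, p3, p4, p5, p6⟩ := CB.conv X O (th O).ker U u le_rfl
  obtain ⟨v, hv, rfl⟩ := p2 (n + 1) c hc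
  have hΨ0 : Ψ 0 = 0 := by
    have := p4 0 0
    rw [add_zero] at this
    exact (left_eq_add.1 this)
  have hmul : mulD v = 0 := p3 (by rw [p5 (n + 1) v hv, hbc, hΨ0])
  have hve : ∀ i g, v i g = v i 1 * u g⁻¹ := fun i g => hv.eqK i g 1 g (by simp)
  -- the coefficients
  obtain ⟨s, hs, hx⟩ := common_denominator hloc (fun a b ha hb => Pool.Agent.RK.Nz.nz_mul a b ha hb)
    (Finset.univ : Finset (Fin ((davis O).toFree.rank (n + 1)))) (fun k => v (cell (davis O) (n + 1) k) 1)
  choose x hx using fun k => hx k (Finset.mem_univ k)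
  have hev : ∀ a, V7N.evM u a = ι (V7N.evM ((canL : K →* NG K).comp e.toMonoidHom) a) := by
    intro a
    rw [evM_apply, evM_apply, Finsupp.sum, Finsupp.sum, map_sum]
    refine Finset.sum_congr rfl fun γ _ => ?_
    rw [map_zsmul, hu]
    rfl
  have hDdeg : ∀ i j, (davis O).deg i ≠ (davis O).deg j + 1 → (davis O).D i j = 0 := by
    intro i j hij
    by_contra h
    have := (davis O).D_deg i j h
    omega
  have hcyc : ∀ l, ∑ k, x k * V7N.evM ((canL : K →* NG K).comp e.toMonoidHom) ((davis O).toFree.d n k l) = 0 := by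
    intro l
    apply hloc.inj
    rw [map_zero, map_sum]
    have h5 : ∑ k, v (cell (davis O) (n + 1) k) 1 *
        V7N.evM u ((davis O).D (cell (davis O) (n + 1) k) (cell (davis O) n l)) = 0 := by
      rw [sum_cell (davis O) (n + 1) (fun i => v i 1 * V7N.evM u ((davis O).D i (cell (davis O) n l)))]
      · have h6 := mulD_eq O u v hve (cell (davis O) n l) 1
        rw [hmul, inv_one, map_one, mul_one] at h6
        exact h6.symm
      · intro i hi
        rw [hv.deg i hi, Pi.zero_apply, zero_mul]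
    have h6 : ∀ k, ι (x k * V7N.evM ((canL : K →* NG K).comp e.toMonoidHom) ((davis O).toFree.d n k l)) =
        ι s * (v (cell (davis O) (n + 1) k) 1 *
          V7N.evM u ((davis O).D (cell (davis O) (n + 1) k) (cell (davis O) n l))) := by
      intro k
      rw [map_mul, ← hev, ← hx k, mul_assoc, d_apply]
    rw [Finset.sum_congr rfl fun k _ => h6 k, ← Finset.mul_sum, h5, mul_zero]
  have hcyc' := hT K (th O).ker e C n h0
  rw [hC] at hcyc'
  obtain ⟨s', hs', y, hy⟩ := hcyc' x hcyc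
  obtain ⟨t, ht⟩ := hloc.unit (s' * s) (Pool.Agent.RK.Nz.nz_mul s' s hs' hs)
  obtain ⟨v', hv'⟩ : ∃ v' : (davis O).ι → (th O).ker → U, v' = fun i g =>
    if h : ∃ k, cell (davis O) (n + 2) k = i then ((t⁻¹ : Uˣ) : U) * ι (y h.choose) * u g⁻¹ else 0 := ⟨_, rfl⟩
  have hv1 : ∀ k g, v' (cell (davis O) (n + 2) k) g = ((t⁻¹ : Uˣ) : U) * ι (y k) * u g⁻¹ := by
    intro k g
    have h : ∃ k', cell (davis O) (n + 2) k' = cell (davis O) (n + 2) k := ⟨k, rfl⟩
    rw [hv']
    have h5 : (if h : ∃ k', cell (davis O) (n + 2) k' = cell (davis O) (n + 2) k then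
      ((t⁻¹ : Uˣ) : U) * ι (y h.choose) * u g⁻¹ else 0) = ((t⁻¹ : Uˣ) : U) * ι (y h.choose) * u g⁻¹ := dif_pos h
    have h6 : h.choose = k := cell_inj (davis O) _ h.choose_spec
    exact h5.trans (by rw [h6])
  have hv0 : ∀ i, (davis O).deg i ≠ n + 2 → ∀ g, v' i g = 0 := by
    intro i hi g
    rw [hv']
    refine dif_neg ?_
    rintro ⟨k, rfl⟩
    exact hi (cell_deg _ _ k)
  have hve' : ∀ i g, v' i g = v' i 1 * u g⁻¹ := by
    intro i g
    by_cases hi : (davis O).deg i = n + 2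
    · obtain ⟨k, rfl⟩ := exists_cell _ hi
      rw [hv1, hv1, inv_one, map_one, mul_one]
    · rw [hv0 i hi, hv0 i hi, zero_mul]
  have hFV : FV (th O).ker u (n + 2) v' := by
    refine ⟨fun i hi => funext fun g => hv0 i hi g, fun i h g g' hg => ?_, ⟨{1}, fun i g _ => ⟨g, 1, by simp, by simp⟩⟩⟩
    have h5 : g' = h * g := Subtype.ext hg
    rw [hve' i g', hve' i g, h5, mul_inv_rev, map_mul, mul_assoc]
  refine ⟨Ψ v', p1 (n + 2) v' hFV, ?_⟩
  rw [← p5 (n + 2) v' hFV]
  congr 1
  funext j g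
  rw [mulD_eq O u v' hve' j g, hve j g]
  congr 1
  by_cases hj : (davis O).deg j = n + 1
  · obtain ⟨k, rfl⟩ := exists_cell _ hj
    rw [← sum_cell (davis O) (n + 2) (fun i => v' i 1 * V7N.evM u ((davis O).D i (cell (davis O) (n + 1) k)))]
    · have h5 : ∀ m, v' (cell (davis O) (n + 2) m) 1 *
          V7N.evM u ((davis O).D (cell (davis O) (n + 2) m) (cell (davis O) (n + 1) k)) =
          ((t⁻¹ : Uˣ) : U) * ι (y m * V7N.evM ((canL : K →* NG K).comp e.toMonoidHom)
            ((davis O).toFree.d (n + 1) m k)) := by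
        intro m
        rw [hv1, inv_one, map_one, mul_one, hev, map_mul, mul_assoc]
        rfl
      rw [Finset.sum_congr rfl fun m _ => h5 m, ← Finset.mul_sum, ← map_sum, hy k, map_mul, ← hx k, ← mul_assoc (ι s'),
        ← map_mul, ← ht, ← mul_assoc, Units.inv_mul, one_mul]
    · intro i hi
      rw [hv0 i hi, zero_mul]
  · rw [hv.deg j hj, Pi.zero_apply]
    refine Finset.sum_eq_zero fun i _ => ?_
    by_cases hi : (davis O).deg i = n + 2
    · rw [hDdeg i j (by omega), map_zero, mul_zero]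
    · rw [hv0 i hi, zero_mul]

end Pool.Agent.H6.RA
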