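import Pool.Agent.H6.RA.Stm2
import Pool.Agent.H7.L.Helper970_V7_P_v7_succ
import Pool.Agent.H7.L.Helper831_VN_Bridge
import Pool.Agent.H7.L.RK_Nz

/-!
# Project RA: TORS (helper60)
-/

set_option autoImplicit false

noncomputable section

namespace Pool.Agent.H6.RA

open Pool.Agent.W907.SG Pool.Agent.W461.SGN Pool.Agent.N496.LT Pool.Agent.Helper655.VN Pool.Agent.RK
open Pool.Agent.N496.CV

attribute [local instance] VN831.bcFunctor_additive VN831.viaAdd VN831.viaMod

/-- the alternative for a row `z` modulo the rows of `A` -/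
theorem tors_abs {R : Type} [Ring R] [StarRing R] {τ : R →+ ℝ} (h : VN R τ) {a b : ℕ}
    (A : Matrix (Fin a) (Fin b) R) (z : Fin b → R) :
    (∃ s : R, Nz s ∧ ∃ y : Fin a → R, ∀ k, ∑ m, y m * A m k = s * z k) ∨
    ∃ f : R, f * f = f ∧ star f = f ∧ f ≠ 0 ∧
      ∀ x : R, (∃ y : Fin a → R, ∀ k, ∑ m, y m * A m k = (x * f) * z k) → x * f = 0 := by
  classical
  let A' : Matrix (Fin (a + 1)) (Fin b) R := Fin.snoc (α := fun _ => Fin b → R) (fun i => A i) (fun k => - z k)
  have hA'1 : ∀ (m : Fin a) k, A' m.castSucc k = A m k := fun m k => by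
    exact congrFun (Fin.snoc_castSucc (α := fun _ => Fin b → R) (fun k => - z k) (fun i => A i) m) k
  have hA'2 : ∀ k, A' (Fin.last a) k = - z k := fun k => by
    exact congrFun (Fin.snoc_last (α := fun _ => Fin b → R) (fun k => - z k) (fun i => A i)) k
  obtain ⟨p, hp⟩ := h.lp (a + 1) b A'
  let c : Fin (a + 1) → R := fun k => (1 - p) k (Fin.last a)
  have hq : (1 - p) * A' = 0 := by rw [Matrix.sub_mul, Matrix.one_mul, hp.mul, sub_self]
  have hcI : ∀ k : Fin (a + 1), ∀ l, ∑ m : Fin a, (1 - p) k m.castSucc * A m l = c k * z l := by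
    intro k l
    have h1 := congrFun (congrFun hq k) l
    rw [Matrix.mul_apply, Fin.sum_univ_castSucc, hA'2] at h1
    simp only [hA'1, Matrix.zero_apply] at h1
    have h2 : (1 - p) k (Fin.last a) * - z l = - (c k * z l) := mul_neg _ _
    rw [h2] at h1
    exact add_neg_eq_zero.1 h1
  have hI : ∀ x : R, (∃ y : Fin a → R, ∀ k, ∑ m, y m * A m k = x * z k) →
      ∃ w : Fin (a + 1) → R, x = ∑ k, w k * c k := by
    rintro x ⟨y, hy⟩
    let w : Fin (a + 1) → R := Fin.snoc (α := fun _ => R) y x
    have hw1 : ∀ m : Fin a, w m.castSucc = y m := fun m => by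
      show (Fin.snoc (α := fun _ => R) y x : Fin (a + 1) → R) m.castSucc = y m
      rw [Fin.snoc_castSucc]
    have hw2 : w (Fin.last a) = x := by
      show (Fin.snoc (α := fun _ => R) y x : Fin (a + 1) → R) (Fin.last a) = x
      rw [Fin.snoc_last]
    have hw : Matrix.vecMul w A' = 0 := by
      funext l
      show ∑ k, w k * A' k l = 0
      rw [Fin.sum_univ_castSucc, hw2, hA'2]
      simp only [hw1, hA'1]
      rw [hy l, mul_neg, add_neg_cancel]
    have hw0 := hp.min w hw
    refine ⟨w, ?_⟩
    have h1 : Matrix.vecMul w (1 - p) = w := by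
      rw [Matrix.vecMul_sub, Matrix.vecMul_one, hw0, sub_zero]
    have h2 := congrFun h1 (Fin.last a)
    rw [hw2] at h2
    exact h2.symm
  obtain ⟨r, hr⟩ := h.lp 1 (a + 1) (fun _ k => star (c k))
  have hr0 : r 0 0 * r 0 0 = r 0 0 := by
    have h1 := congrFun (congrFun hr.idem 0) 0
    rw [Matrix.mul_apply] at h1
    simpa using h1
  have hrs : star (r 0 0) = r 0 0 := by
    have h1 := congrFun (congrFun hr.star 0) 0
    rwa [Matrix.conjTranspose_apply] at h1
  have hcr : ∀ k, c k * r 0 0 = c k := by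
    intro k
    have h1 : ∑ i : Fin 1, r 0 i * star (c k) = star (c k) := congrFun (congrFun hr.mul 0) k
    have h2 : r 0 0 * star (c k) = star (c k) := by simpa using h1
    have h3 := congrArg star h2
    rw [star_mul, star_star, hrs] at h3
    exact h3
  have hmin : ∀ x : R, (∀ k, x * star (c k) = 0) → x * r 0 0 = 0 := by
    intro x hx
    have h1 := hr.min (fun _ => x) (by
      funext k
      show ∑ i : Fin 1, x * star (c k) = 0
      simp [hx k])
    have h2 := congrFun h1 0
    have h3 : ∑ i : Fin 1, x * r i 0 = 0 := h2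
    simpa using h3
  by_cases hr1 : r 0 0 = 1
  · left
    refine ⟨∑ k, star (c k) * c k, ?_, fun m => ∑ k, star (c k) * (1 - p) k m.castSucc, ?_⟩
    · intro x hx
      have h1 : ∑ k, τ (star (c k * star x) * (c k * star x)) = 0 := by
        rw [← map_sum]
        have h2 : ∑ k, star (c k * star x) * (c k * star x) = x * (∑ k, star (c k) * c k) * star x := by
          rw [Finset.mul_sum, Finset.sum_mul]
          refine Finset.sum_congr rfl fun k _ => ?_
          rw [star_mul, star_star]
          simp only [mul_assoc]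
        rw [h2, hx, zero_mul, map_zero]
      have h3 := (Finset.sum_eq_zero_iff_of_nonneg fun k _ => h.nonneg (c k * star x)).1 h1
      have h4 : x * r 0 0 = 0 := hmin x fun k => by
        have h5 := h.faithful _ (h3 k (Finset.mem_univ k))
        have h6 := congrArg star h5
        rw [star_mul, star_star, star_zero] at h6
        exact h6
      rwa [hr1, mul_one] at h4
    · intro l
      rw [Finset.sum_mul]
      simp only [Finset.sum_mul]
      rw [Finset.sum_comm]
      refine Finset.sum_congr rfl fun k _ => ?_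
      rw [mul_assoc, ← hcI k l, Finset.mul_sum]
      exact Finset.sum_congr rfl fun m _ => mul_assoc _ _ _
  · right
    refine ⟨1 - r 0 0, ?_, ?_, sub_ne_zero.2 (Ne.symm hr1), ?_⟩
    · rw [sub_mul, one_mul, mul_sub, mul_one, hr0, sub_self, sub_zero]
    · rw [star_sub, star_one, hrs]
    · intro x hx
      obtain ⟨w, hw⟩ := hI _ hx
      have h1 : x * (1 - r 0 0) = x * (1 - r 0 0) * (1 - r 0 0) := by
        rw [mul_assoc]
        congr 1
        rw [sub_mul, one_mul, mul_sub, mul_one, hr0, sub_self, sub_zero]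
      rw [h1, hw, Finset.sum_mul]
      refine Finset.sum_eq_zero fun k _ => ?_
      rw [mul_assoc, mul_sub, mul_one, hcr, sub_self, mul_zero]


theorem sr_top {K Γ : Type} [Group K] [Group Γ] (cW : Γ →* NG K) (x : NG K) :
    (show VN831.Via (RingHom.id (NG K)) from x) ∈ VN831.SR (RingHom.id (NG K)) cW := by
  have h1 : (show VN831.Via (RingHom.id (NG K)) from x) =
      x • (show VN831.Via (RingHom.id (NG K)) from cW 1) := by
    rw [VN831.Via.smul_def, map_one]
    exact (mul_one x).symm
  rw [h1]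
  exact Submodule.smul_mem _ _ (Submodule.subset_span ⟨1, rfl⟩)

theorem tors : S_TORS := by
  classical
  intro K Γ _ _ e C n h0 z hz
  set cW : Γ →* NG K := (canL : K →* NG K).comp e.toMonoidHom with hcW
  have hrange : (e.symm.toMonoidHom : K →* Γ).range = ⊤ := by
    rw [MonoidHom.range_eq_top]
    exact e.symm.surjective
  have hind : VN831.CosetIndep (RingHom.id (NG K)) cW (e.symm.toMonoidHom : K →* Γ).range := by
    rw [hrange]
    intro s hs x hx g hg
    have hsub : s = {g} := by
      rw [Finset.eq_singleton_iff_unique_mem]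
      refine ⟨hg, fun h hh => ?_⟩
      by_contra hne
      exact hs h hh g hg hne (Subgroup.mem_top _)
    rw [hsub, Finset.sum_singleton] at hx
    exact VN831.canL_mul_eq_zero _ (e g) hx
  obtain ⟨f⟩ := V7N.v7_succ C n (e.symm.toMonoidHom : K →* Γ) e.symm.injective (canL : K →* NG K) cW
    (RingHom.id (NG K)) (fun k => by
      show canL k = canL (e (e.symm k))
      rw [e.apply_symm_apply]) hind
  have f' : VN831.homN K (n + 1) ≃ₗ[NG K] VN831.HR (RingHom.id (NG K)) cW ((C.d (n + 1)).map (V7N.evM cW))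
    ((C.d n).map (V7N.evM cW)) := f
  have h1 : VN831.luckDim K (VN831.HR (RingHom.id (NG K)) cW ((C.d (n + 1)).map (V7N.evM cW))
    ((C.d n).map (V7N.evM cW))) = 0 := by
    rw [← VN831.luckDim_congr f']
    exact h0
  rcases tors_abs (vn_NG (G := K)) ((C.d (n + 1)).map (V7N.evM cW)) z with h2 | ⟨p, hp1, hp2, hp3, hp4⟩
  · exact h2
  exfalso
  -- the class of `z`
  have hzm : (z : Fin (C.r (n + 1)) → VN831.Via (RingHom.id (NG K))) ∈
      VN831.ZR (RingHom.id (NG K)) cW ((C.d n).map (V7N.evM cW)) := by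
    refine ⟨fun k _ => sr_top cW (z k), ?_⟩
    funext l
    exact hz l
  let zc : VN831.ZR (RingHom.id (NG K)) cW ((C.d n).map (V7N.evM cW)) := ⟨z, hzm⟩
  let M := VN831.HR (RingHom.id (NG K)) cW ((C.d (n + 1)).map (V7N.evM cW)) ((C.d n).map (V7N.evM cW))
  let e1 : Matrix (Fin 1) (Fin 1) (NG K) := fun _ _ => p
  have he1 : e1 * e1 = e1 := by
    funext i j
    rw [Matrix.mul_apply]
    show ∑ k : Fin 1, p * p = p
    simp [hp1]
  let F : VN831.rowMod e1 →ₗ[NG K] M :=
    { toFun := fun v => (v.1 0 : NG K) • (Submodule.Quotient.mk zc : M)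
      map_add' := fun v w => by
        show ((v.1 + w.1) 0 : NG K) • (Submodule.Quotient.mk zc : M) = _
        rw [Pi.add_apply, add_smul]
      map_smul' := fun s v => by
        show ((s • v.1) 0 : NG K) • (Submodule.Quotient.mk zc : M) = _
        rw [Pi.smul_apply, smul_eq_mul, mul_smul]
        rfl }
  have hF : Function.Injective F := by
    rw [injective_iff_map_eq_zero]
    intro v hv
    have hv1 : (v.1 0 : NG K) * p = v.1 0 := by
      have h3 : Matrix.vecMul v.1 e1 = v.1 := v.2
      have h4 := congrFun h3 0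
      have h5 : ∑ i : Fin 1, v.1 i * p = v.1 0 := h4
      simpa using h5
    have hv2 : (Submodule.Quotient.mk ((v.1 0 : NG K) • zc) : M) = 0 := hv
    rw [Submodule.Quotient.mk_eq_zero] at hv2
    obtain ⟨y, -, hy⟩ := hv2
    have h3 : (v.1 0 : NG K) * p = 0 := by
      refine hp4 _ ⟨y, fun k => ?_⟩
      rw [hv1]
      exact congrFun hy k
    rw [hv1] at h3
    apply Subtype.ext
    funext i
    rw [Subsingleton.elim i 0]
    exact h3
  have hpos : 0 < (tr p).re := by
    have h3 : (tau K) p = (tr p).re := tau_apply p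
    have h4 : 0 ≤ (tau K) (star p * p) := (vn_NG (G := K)).nonneg p
    have h5 : (tau K) (star p * p) ≠ 0 := fun h => hp3 ((vn_NG (G := K)).faithful p h)
    rw [hp2, hp1, h3] at h4 h5
    exact lt_of_le_of_ne h4 (Ne.symm h5)
  have h6 : ENNReal.ofReal (∑ i, (tr (e1 i i)).re) ≤ VN831.luckDim K M := by
    unfold VN831.luckDim
    exact le_iSup_of_le 1 (le_iSup_of_le e1 (le_iSup_of_le he1 (le_iSup_of_le ⟨F, hF⟩ le_rfl)))
  rw [h1] at h6
  have h7 : ENNReal.ofReal (∑ i : Fin 1, (tr (e1 i i)).re) = ENNReal.ofReal (tr p).re := by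
    simp [e1]
  rw [h7] at h6
  have h8 := ENNReal.ofReal_pos.2 hpos
  exact absurd h6 (not_le.2 h8)

end Pool.Agent.H6.RA
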