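import Pool.Agent.H6.RA.IND2
import Pool.Agent.H6.RA.ISO
import Pool.Agent.H6.RA.EMB
import Pool.Agent.H6.RA.CONV
import Pool.Agent.H6.RA.REV6
import Pool.Agent.H6.RA.TORS

/-!
# Project RA (helper6): the theorem
-/

set_option autoImplicit false
set_option linter.unusedSectionVars false

noncomputable section

namespace Pool.Agent.H6.RA

open Pool.Agent.W907.SG Pool.Agent.W461.SGN Pool.Agent.N496.LT Pool.Agent.Helper655.VN Pool.Agent.RK
open Pool.Agent.N496.CV

attribute [local instance] VN831.bcFunctor_additive VN831.viaAdd VN831.viaMod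

/-- all the groups which embed in the kernel -/
theorem fin2 {V : Type} [Fintype V] [LinearOrder V] (G : SimpleGraph V) (i : ℕ) (hi : 0 < i) (L : Type) [Group L]
    (f : L →* W (Oc G)) (hf : Function.Injective f) (hf2 : f.range ≤ (th (Oc G)).ker)
    (hAc : ∀ τ : Finset V, G.IsClique (τ : Set V) → TrivAt f (τ : Set V) → Ac G (lkS G τ) i) : HasL2Betti L i 0 := by
  have h0 := main0' G i hi f.range hf2 (fun τ hτ hY => hAc τ hτ (by
    obtain ⟨w, hw⟩ := hY
    refine ⟨w, fun k hk => ?_⟩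
    have h1 : w⁻¹ * f k * w = 1 := hw _ hk ⟨k, by group⟩
    apply hf
    rw [map_one]
    have h2 : f k = w * (w⁻¹ * f k * w) * w⁻¹ := by group
    rw [h2, h1, mul_one, mul_inv_cancel]))
  obtain ⟨n, rfl⟩ : ∃ n, i = n + 1 := ⟨i - 1, by omega⟩
  have h1 := has_iso (Oc G) f.range n hf2 L (MonoidHom.ofInjective hf)
  rwa [h0] at h1

/-- all the subgroups of the right-angled Artin group -/
theorem fin3 {V : Type} [Fintype V] [LinearOrder V] (G : SimpleGraph V) (i : ℕ) (hi : 0 < i)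
    (hAc : ∀ τ : Finset V, G.IsClique (τ : Set V) → Ac G (lkS G τ) i) (K : Subgroup (RAAG G)) : HasL2Betti K i 0 := by
  obtain ⟨φ, hφ, _, hr⟩ := emb V G
  refine fin2 G i hi K (φ.comp K.subtype) (hφ.comp K.subtype_injective) ?_ (fun τ hτ _ => hAc τ hτ)
  rintro _ ⟨k, rfl⟩
  exact hr ⟨k.1, rfl⟩

end Pool.Agent.H6.RA
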