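import Pool.Agent.H6.RA.Stm

/-!
# Project RA (helper6): the induction
-/

set_option autoImplicit false

noncomputable section

namespace Pool.Agent.H6.RA

open Pool.Agent.W907.SG Pool.Agent.W461.SGN Pool.Agent.N496.CV

section

variable {V : Type} [Fintype V] [LinearOrder V] {G : SimpleGraph V} {R : Type} [Ring R]
  {K : Subgroup (W (Oc G))} {u : K →* R} {Y : Set (W (Oc G))} {E : Subgroup (W (Oc G) × ℤˣ)} {C Z Z' : Set V} {i : ℕ}
  {c : Finset (V ×ₗ Bool) → W (Oc G) → R}

theorem ChZ.congr (h : ChZ K u Y E C Z i c) (hZ : ∀ v ∈ C, v ∈ Z ↔ v ∈ Z') : ChZ K u Y E C Z' i c where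
  supp T hT := h.supp T fun hT' => hT ⟨hT'.1, fun x hx => ⟨(hT'.2.1 x hx).1, fun hz =>
    (hT'.2.1 x hx).2 ((hZ _ (hT'.2.1 x hx).1).2 hz)⟩, hT'.2.2⟩
  mem := h.mem
  anti T x hx hz w := by
    by_cases hc : (ofLex x).1 ∈ C
    · exact h.anti T x hx (fun h' => hz ((hZ _ hc).1 h')) w
    · have : c T = 0 := h.supp T fun hT' => hc (hT'.2.1 x hx).1
      rw [this]
      simp

theorem HvZ.congr (h : HvZ K u Y E C Z i) (hZ : ∀ v ∈ C, v ∈ Z ↔ v ∈ Z') : HvZ K u Y E C Z' i := by
  intro c hc hc0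
  obtain ⟨e, he, he0⟩ := h c (hc.congr fun v hv => (hZ v hv).symm) hc0
  exact ⟨e, he.congr hZ, he0⟩

end

theorem lkS_empty {V : Type} (G : SimpleGraph V) : lkS G ∅ = Set.univ := by
  ext v
  simp [lkS]

theorem lkS_insert {V : Type} [DecidableEq V] (G : SimpleGraph V) (v : V) (τ : Finset V) :
    lkS G (insert v τ) = G.neighborSet v ∩ lkS G τ := by
  ext x
  simp [lkS]

theorem ind (hB : S_BASE) (hS : S_STEP) (V : Type) [Fintype V] [LinearOrder V] (G : SimpleGraph V) (R : Type) [Ring R]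
    (K : Subgroup (W (Oc G))) (u : K →* R) (i : ℕ) (hN : ∀ n : ℕ, 0 < n → IsUnit (n : R)) (hR : Rg K u) :
    ∀ (n : ℕ) (C : Set V), C.ncard ≤ n →
      (∀ τ : Finset V, G.IsClique (τ : Set V) → (τ : Set V) ⊆ C → Ac G (C ∩ lkS G τ) i) →
      ∀ (m : ℕ) (Z : Set V), (C \ Z).ncard ≤ m → ∀ (Y : Set (W (Oc G))) (E : Subgroup (W (Oc G) × ℤˣ)),
      Good K (up C) Y E → HvZ K u Y E C Z i := by
  classical
  intro n
  induction n with
  | zero =>
    intro C hC hAc m Z hZ Y E hG
    have hC0 : C = ∅ := (Set.ncard_eq_zero (Set.toFinite _)).1 (Nat.le_zero.1 hC)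
    subst hC0
    have h1 := hAc ∅ (by simp) (by simp)
    rw [Set.empty_inter] at h1
    exact (hB V G R K u Y E ∅ i hN h1).congr (by simp)
  | succ n ih =>
    intro C hC hAc m
    induction m with
    | zero =>
      intro Z hZ Y E hG
      have hCZ : C \ Z = ∅ := (Set.ncard_eq_zero (Set.toFinite _)).1 (Nat.le_zero.1 hZ)
      have h1 := hAc ∅ (by simp) (by simp)
      rw [lkS_empty, Set.inter_univ] at h1
      refine (hB V G R K u Y E C i hN h1).congr fun v hv => ⟨fun _ => ?_, fun _ => hv⟩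
      by_contra h2
      exact Set.notMem_empty v (hCZ ▸ (⟨hv, h2⟩ : v ∈ C \ Z))
    | succ m ihm =>
      intro Z hZ Y E hG
      by_cases hne : C \ Z = ∅
      · exact ihm Z (by rw [hne]; simp) Y E hG
      obtain ⟨v, hv⟩ := Set.nonempty_iff_ne_empty.2 hne
      refine hS V G R K u Y E C Z i v hR hG hv.1 hv.2 ?_ ?_
      · refine ihm (insert v Z) ?_ Y E hG
        have h1 : C \ insert v Z ⊂ C \ Z := by
          refine ⟨fun x hx => ⟨hx.1, fun h => hx.2 (Set.mem_insert_of_mem _ h)⟩, fun h => ?_⟩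
          exact (h hv).2 (Set.mem_insert _ _)
        have h2 := Set.ncard_lt_ncard h1 (Set.toFinite _)
        omega
      · intro Y' E' hG'
        have h1 : C ∩ G.neighborSet v ⊂ C := by
          refine ⟨Set.inter_subset_left, fun h => ?_⟩
          exact G.loopless.irrefl v (h hv.1).2
        have h2 := Set.ncard_lt_ncard h1 (Set.toFinite _)
        refine ih (C ∩ G.neighborSet v) (by omega) ?_ _ Z le_rfl Y' E' hG'
        intro τ hτ hτC
        have h3 := hAc (insert v τ) ?_ ?_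
        · rw [lkS_insert, ← Set.inter_assoc] at h3
          exact h3
        · rw [Finset.coe_insert]
          refine hτ.insert fun b hb _ => (hτC hb).2
        · rw [Finset.coe_insert]
          exact Set.insert_subset hv.1 fun x hx => (hτC hx).1

end Pool.Agent.H6.RA
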