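import Pool.Agent.H6.RA.Defs2
import Pool.Agent.H6.RA.IND
import Pool.Agent.H6.RA.MAIN1
import Pool.Agent.H6.RA.BASE

/-!
# Project RA (helper6): the induction, with the conditions on the links which are necessary for the subgroup
-/

set_option autoImplicit false

noncomputable section

namespace Pool.Agent.H6.RA

open Pool.Agent.W907.SG Pool.Agent.W461.SGN Pool.Agent.N496.LT Pool.Agent.Helper655.VN Pool.Agent.RK
open Pool.Agent.N496.CV
open Pool.Agent.N496.CV.PSUS (IM mem_IM bdf_apply)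

attribute [local instance] VN831.bcFunctor_additive VN831.viaAdd VN831.viaMod

section

variable {V : Type}

/-- the same with trivial signs -/
def ET (G : SimpleGraph V) (τ : Set V) : Subgroup (W (Oc G) × ℤˣ) := (DT G τ).map (MonoidHom.inl _ _)

/-- the elements `w` for which `K` meets `w D_τ w⁻¹` trivially -/
def YT {G : SimpleGraph V} (K : Subgroup (W (Oc G))) (τ : Set V) : Set (W (Oc G)) :=
  {w | ∀ g ∈ DT G τ, w * g * w⁻¹ ∈ K → g = 1}

theorem mem_YT {G : SimpleGraph V} {K : Subgroup (W (Oc G))} {τ : Set V} {w : W (Oc G)} :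
    w ∈ YT K τ ↔ ∀ p ∈ ET G τ, w * p.1 * w⁻¹ ∈ K → p = 1 := by
  constructor
  · rintro h p ⟨g, hg, rfl⟩ hK
    have h1 : g = 1 := h g hg hK
    rw [h1, map_one]
  · intro h g hg hK
    exact congrArg Prod.fst (h (g, 1) ⟨g, hg, rfl⟩ hK)

theorem up_insert (v : V) (τ : Set V) :
    up (insert v τ) = insert (toLex (v, false)) (insert (toLex (v, true)) (up τ)) := by
  ext x
  constructor
  · rintro (h | h)
    · rcases eq_or h with h | h
      · exact Or.inl h
      · exact Or.inr (Or.inl h)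
    · exact Or.inr (Or.inr h)
  · rintro (h | h | h)
    · exact Or.inl (by rw [h]; rfl)
    · exact Or.inl (by rw [h]; rfl)
    · exact Or.inr h

theorem ET_empty (G : SimpleGraph V) : ET G ∅ = ⊥ := by
  have h : up (∅ : Set V) = ∅ := by
    ext x
    exact Iff.rfl
  unfold ET DT
  rw [h, Set.image_empty, Subgroup.closure_empty, Subgroup.map_bot]

theorem YT_empty {G : SimpleGraph V} (K : Subgroup (W (Oc G))) : YT K ∅ = Set.univ := by
  ext w
  rw [mem_YT, ET_empty]
  constructor
  · intro _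
    trivial
  · intro _ p hp _
    exact Subgroup.mem_bot.1 hp

theorem ET_insert (G : SimpleGraph V) (v : V) (τ : Set V) :
    ET G (insert v τ) = addD (ET G τ) (toLex (v, false)) (toLex (v, true)) := by
  unfold ET DT addD
  rw [up_insert, Set.image_insert_eq, Set.image_insert_eq, MonoidHom.map_closure, MonoidHom.map_closure,
    Set.image_insert_eq, Set.image_insert_eq, ← Subgroup.closure_union]
  congr 1
  ext x
  simp only [Set.mem_insert_iff, Set.mem_union, Set.mem_singleton_iff]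
  constructor
  · rintro (h | h | h)
    · exact Or.inr (Or.inl h)
    · exact Or.inr (Or.inr h)
    · exact Or.inl h
  · rintro (h | h | h)
    · exact Or.inr (Or.inr h)
    · exact Or.inl h
    · exact Or.inr (Or.inl h)

theorem YT_insert {G : SimpleGraph V} (K : Subgroup (W (Oc G))) (v : V) (τ : Set V) :
    fr K (YT K τ) (addD (ET G τ) (toLex (v, false)) (toLex (v, true))) = YT K (insert v τ) := by
  ext w
  rw [mem_YT, ET_insert]
  constructor
  · exact fun h => h.2
  · intro h
    refine ⟨mem_YT.2 fun p hp => h p ?_, h⟩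
    exact Subgroup.mem_sup_left hp

end

theorem hvz_empty {V : Type} [Fintype V] [LinearOrder V] {G : SimpleGraph V} {R : Type} [Ring R]
    {K : Subgroup (W (Oc G))} {u : K →* R} {E : Subgroup (W (Oc G) × ℤˣ)} {C Z : Set V} {i : ℕ} :
    HvZ K u ∅ E C Z i := by
  intro c hc _
  refine ⟨0, ⟨fun _ _ => rfl, fun _ => mem_IM.1 (IM K u ∅ E).zero_mem, fun _ _ _ _ w => by simp⟩, ?_⟩
  funext T w
  have h1 : c T w = 0 := by
    by_contra h
    exact (hc.mem T).supp w h
  rw [h1]
  show bdf (Oc G) 0 T w = 0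
  unfold bdf
  exact Finset.sum_eq_zero fun x _ => by simp

theorem ind2 {V : Type} [Fintype V] [LinearOrder V] (G : SimpleGraph V) (R : Type) [Ring R]
    (K : Subgroup (W (Oc G))) (u : K →* R) (i : ℕ) (hN : ∀ n : ℕ, 0 < n → IsUnit (n : R)) (hR : Rg K u)
    (hAc : ∀ τ : Finset V, G.IsClique (τ : Set V) → (YT K (τ : Set V)).Nonempty → Ac G (lkS G τ) i) :
    ∀ (n : ℕ) (τ : Finset V), G.IsClique (τ : Set V) → (lkS G τ).ncard ≤ n →
      Good K (up (lkS G τ)) (YT K (τ : Set V)) (ET G (τ : Set V)) →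
      ∀ (m : ℕ) (Z : Set V), (lkS G τ \ Z).ncard ≤ m →
      HvZ K u (YT K (τ : Set V)) (ET G (τ : Set V)) (lkS G τ) Z i := by
  classical
  intro n
  induction n with
  | zero =>
    intro τ hτ hC hG m Z hZ
    rcases Set.eq_empty_or_nonempty (YT K (τ : Set V)) with hY | hY
    · rw [hY]
      exact hvz_empty
    have h1 := hAc τ hτ hY
    have hC0 : lkS G τ = ∅ := (Set.ncard_eq_zero (Set.toFinite _)).1 (Nat.le_zero.1 hC)
    rw [hC0] at h1 ⊢
    exact (base V G R K u _ _ ∅ i hN h1).congr (by simp)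
  | succ n ih =>
    intro τ hτ hC hG m
    rcases Set.eq_empty_or_nonempty (YT K (τ : Set V)) with hY | hY
    · intro Z hZ
      rw [hY]
      exact hvz_empty
    have hAc1 := hAc τ hτ hY
    induction m with
    | zero =>
      intro Z hZ
      have hCZ : lkS G τ \ Z = ∅ := (Set.ncard_eq_zero (Set.toFinite _)).1 (Nat.le_zero.1 hZ)
      refine (base V G R K u _ _ _ i hN hAc1).congr fun v hv => ⟨fun _ => ?_, fun _ => hv⟩
      by_contra h2
      exact Set.notMem_empty v (hCZ ▸ (⟨hv, h2⟩ : v ∈ lkS G τ \ Z))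
    | succ m ihm =>
      intro Z hZ
      by_cases hne : lkS G τ \ Z = ∅
      · exact ihm Z (by rw [hne]; simp)
      obtain ⟨v, hv⟩ := Set.nonempty_iff_ne_empty.2 hne
      have hlk : lkS G (insert v τ) = lkS G τ ∩ G.neighborSet v := by
        rw [lkS_insert, Set.inter_comm]
      refine step2 (Pool.Agent.N496.CV.inj PSPEC.spec) (Pool.Agent.N496.CV.finp PSPEC.spec)
        (Pool.Agent.N496.CV.freep PSPEC.spec) Pool.Agent.N496.CV.gdd V G R K u _ _ _ Z i v hR hG hv.1 hv.2 ?_ ?_
      · refine ihm (insert v Z) ?_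
        have h1 : lkS G τ \ insert v Z ⊂ lkS G τ \ Z := by
          refine ⟨fun x hx => ⟨hx.1, fun h => hx.2 (Set.mem_insert_of_mem _ h)⟩, fun h => ?_⟩
          exact (h hv).2 (Set.mem_insert _ _)
        have h2 := Set.ncard_lt_ncard h1 (Set.toFinite _)
        omega
      · have h1 : lkS G τ ∩ G.neighborSet v ⊂ lkS G τ := by
          refine ⟨Set.inter_subset_left, fun h => ?_⟩
          exact G.loopless.irrefl v (h hv.1).2
        have h2 := Set.ncard_lt_ncard h1 (Set.toFinite _)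
        have hG' := Pool.Agent.N496.CV.gdd (V ×ₗ Bool) (Oc G) K (up (lkS G τ)) (up (lkS G τ ∩ G.neighborSet v)) _ _
          (toLex (v, false)) (toLex (v, true)) hG hv.1 hv.1 (fun x hx => hx.1) (fun x hx => ⟨hx.2, hx.2⟩)
        rw [YT_insert, ← ET_insert, ← Finset.coe_insert, ← hlk] at hG'
        rw [YT_insert, ← ET_insert, ← Finset.coe_insert, ← hlk]
        refine ih (insert v τ) ?_ (by rw [hlk]; omega) hG' _ Z le_rfl
        rw [Finset.coe_insert]
        exact hτ.insert fun b hb _ => (hv.1 b hb).symm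

/-- the refined vanishing theorem -/
theorem main0' {V : Type} [Fintype V] [LinearOrder V] (G : SimpleGraph V) (i : ℕ) (hi : 0 < i)
    (K : Subgroup (W (Oc G))) (hK : K ≤ (th (Oc G)).ker)
    (hAc : ∀ τ : Finset V, G.IsClique (τ : Set V) → (YT K (τ : Set V)).Nonempty → Ac G (lkS G τ) i) :
    VN831.l2Betti K i = 0 := by
  obtain ⟨n, rfl⟩ : ∃ n, i = n + 1 := ⟨i - 1, by omega⟩
  refine asm (Oc G) n K hK fun U _ u hRg hN => ?_
  have h1 := ind2 G U K u (n + 1) hN hRg hAc _ ∅ (by simp) le_rfl (by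
    rw [Finset.coe_empty, YT_empty, ET_empty]
    exact good_univ K _) _ ∅ le_rfl
  rw [Finset.coe_empty, YT_empty, ET_empty, lkS_empty] at h1
  intro c hc hc0
  have hc' : ChZ K u Set.univ ⊥ Set.univ ∅ (n + 1) c :=
    ⟨fun T hT => hc.supp T fun hT' => hT ⟨hT'.1, fun x _ => ⟨trivial, fun h => absurd h (Set.notMem_empty _)⟩,
      hT'.2.2⟩, hc.mem, fun T t ht _ w => hc.anti T t ht w⟩
  obtain ⟨e, he, he0⟩ := h1 c hc' hc0
  exact ⟨e, ⟨fun T hT => he.supp T fun hT' => hT ⟨hT'.1, Set.subset_univ _, hT'.2.2⟩, he.mem, fun T t ht w =>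
      he.anti T t ht (Set.notMem_empty _) w⟩, he0⟩

end Pool.Agent.H6.RA
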