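import Pool.Agent.H6.RA.Defs

/-!
# Project RA (helper6): statements
-/

set_option autoImplicit false

noncomputable section

namespace Pool.Agent.H6.RA

open Pool.Agent.W907.SG Pool.Agent.W461.SGN Pool.Agent.N496.CV

/-- **BASE** If all the vertices are in `Z = C` the mixed chains are the simplicial chains of the full subcomplex on `C`
with coefficients in `M = {f | InM K u Y E f}`. Proof. (1) Linear algebra over `ℚ`: from `Ac G C i` (exactness of
`C_{i+1} → C_i → C_{i-1}`, finite-dimensional spaces) there are rational matrices `h`, `k` (indexed by finsets; `h S T` for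
`|S| = i+1`, `|T| = i`; `k T P` for `|T| = i`, `|P| = i - 1`, supported on the cliques in `C`) with `a = bq (h a) + k (bq a)` for
all `a` with `IsQ G C i a` (generalized inverse `k` of `bq` on `C_i`; `id - k bq` maps to the cycles, lift it through `bq`;
for `i = 0` the boundary is zero). Clear denominators: `N • a = ...` with integer matrices, `N > 0`. (2) Apply the integer
matrices to the chain `c` (values in the additive group `M`; the identity `N δ_{T,T'} = ∑ ...` of integer matrices gives it for
all coefficients); `bdf c = 0` gives `N • c = bdf (h c)`, and multiply by the inverse of `N` in `R` (on the right, it is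
central; `PSUS.mem_sc`). (3) Translation: the cells are `T = image (v ↦ toLex (v, false)) σ`, `sg (toLex (v, false)) T = sg v σ`. -/
def S_BASE : Prop := ∀ (V : Type) [Fintype V] [LinearOrder V] (G : SimpleGraph V) (R : Type) [Ring R]
  (K : Subgroup (W (Oc G))) (u : K →* R) (Y : Set (W (Oc G))) (E : Subgroup (W (Oc G) × ℤˣ)) (C : Set V) (i : ℕ),
  (∀ n : ℕ, 0 < n → IsUnit (n : R)) → Ac G C i → HvZ K u Y E C C i

/-- **STEP** removing a vertex from `Z` (helper6). -/
def S_STEP : Prop := ∀ (V : Type) [Fintype V] [LinearOrder V] (G : SimpleGraph V) (R : Type) [Ring R]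
  (K : Subgroup (W (Oc G))) (u : K →* R) (Y : Set (W (Oc G))) (E : Subgroup (W (Oc G) × ℤˣ)) (C Z : Set V) (i : ℕ) (v : V),
  Rg K u → Good K (up C) Y E → v ∈ C → v ∉ Z → HvZ K u Y E C (insert v Z) i →
  (∀ (Y' : Set (W (Oc G))) (E' : Subgroup (W (Oc G) × ℤˣ)), Good K (up (C ∩ G.neighborSet v)) Y' E' →
    HvZ K u Y' E' (C ∩ G.neighborSet v) Z i) →
  HvZ K u Y E C Z i

/-- **MAIN1** (helper6) -/
def S_MAIN1 : Prop := ∀ (V : Type) [Fintype V] [LinearOrder V] (G : SimpleGraph V) (i : ℕ), 0 < i →
  (∀ τ : Finset V, G.IsClique (τ : Set V) → Ac G (lkS G τ) i) →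
  ∀ K : Subgroup (W (Oc G)), K ≤ (th (Oc G)).ker → HasL2Betti K i 0

/-- **EMB** The right-angled Artin group embeds in the kernel of `W (Oc G) → (ℤ/2)^(V × 2)`, `v ↦ (s_v t_v)²`. Proof, for
example: (1) `W (Oc G)` acts on the set `RAAG G`: every `g` is uniquely `v^n g'` where `g'` has no reduced word beginning with
`v^{±1}` (normal forms for right-angled Artin groups, e.g. library `R_pool_sql_team_seeded_35f281b4/K7/H20/AW/RG.lean`,
`R_pool_sql_team_seeded_1acbe0a2/Y66/HC/Raag.lean`, `..._3997aac3/Q18/HC`), `s_v (v^n g') = v^{-n} g'`,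
`t_v (v^n g') = v^{1-n} g'`; the relations hold, `s_v t_v` acts as the left multiplication by `v^{-1}`, so `v ↦ s_v t_v` is
injective; and the endomorphism `v ↦ v²` of `RAAG G` is injective (reduced words go to reduced words, or Magnus
representation). (2) Or directly: reduced words of `RAAG G` go to reduced words of the Coxeter group (`CV.LEN`, `CV.len`). -/
def S_EMB : Prop := ∀ (V : Type) [Finite V] (G : SimpleGraph V),
  ∃ φ : RAAG G →* W (Oc G), Function.Injective φ ∧ (∀ v, φ (gen G v) = (sV G false v * sV G true v) ^ 2) ∧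
    φ.range ≤ (th (Oc G)).ker

/-- **CONV** the converse of MAIN1. Proof. Let `a` be a rational (multiply: integral) cycle of degree `i` of the full subcomplex
on `C = lkS G τ` which is not a boundary. Let `W' ≤ W (Oc G)` be the special subgroup generated by the copies of `C` and
`K = ker th ⊓ W'`, of finite index in `W'`. Let `b = VN831.l2Betti K i` (`CV.hasL2Betti`); suppose `b = 0`. (1) Reverse of `CV.FINAL`: for every cycle `v` over
`NG K` (`FV K canL (i) v`, `mulD v = 0`) there are `s : NG K`, `Nz s` and `e`, `FV K canL (i+1) e`, `mulD e = s v` (see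
`N496_CV_P_FINAL.lean`; Lueck's dimension is zero iff every element is killed by some `s` that is not a zero divisor). Over the
localisation `U` (`LocEx.loc_exists`) every cycle `c` (`IsCh (Oc G) univ (InM K u univ ⊥) i c`) that comes from `NG K` is a boundary
(`CONV`). (2) For `v ∈ C`: every `m ∈ M = InM K u univ ⊥` with support in `W'` is `p + q`, `p (· s_v) = - p`, `q (· t_v) = - q`,
because `K` meets every conjugate `w ⟨s_v t_v⟩ w⁻¹`, `w ∈ W'` (`FINP` with `fr = ∅` on `W'`); inductively `m = ∑ m_ε` over the
`ε : σ → Bool`, `m_ε` antiinvariant under `(v, ε v)`, `v ∈ σ`, natural in `σ` (compatible with the inclusion of faces: sum over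
`ε v` of `m_ε` is `m_{ε|σ \ v}`). So `c (T) = a (pr T) m_T` is a cycle. (3) If `c = bdf e`: push forward by the retraction
`W (Oc G) → W'` (sum over the fibres, finite because the support is finite modulo `K`; the cells with a vertex outside `C` give `0` by
antisymmetry), then `a m = bq (e')`, `e' (σ) = ∑_{T over σ} e T`; evaluate at a point `w` with `m w` a unit (`m` = indicator of `K`
twisted by `u`): `a` is a boundary over `U`, hence over `ℚ` (`Ac` fails, linear algebra: a linear functional on the rational
chains which vanishes on the boundaries and not at `a`). -/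
def S_CONV : Prop := ∀ (V : Type) [Fintype V] [LinearOrder V] (G : SimpleGraph V) (i : ℕ) (τ : Finset V), 0 < i →
  G.IsClique (τ : Set V) → ¬ Ac G (lkS G τ) i →
  ∃ K : Subgroup (W (Oc G)), K ≤ (th (Oc G)).ker ∧ ∃ b, b ≠ 0 ∧ HasL2Betti K i b

end Pool.Agent.H6.RA
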