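import Pool.Agent.H6.RA.Stm

/-!
# Project RA (helper6): the converse, statements
-/

set_option autoImplicit false

noncomputable section

namespace Pool.Agent.H6.RA

open Pool.Agent.W907.SG Pool.Agent.W461.SGN Pool.Agent.N496.LT Pool.Agent.Helper655.VN Pool.Agent.RK
open Pool.Agent.N496.CV

attribute [local instance] VN831.bcFunctor_additive VN831.viaAdd VN831.viaMod

/-- **TORS** If the `L²`-Betti number vanishes the homology of a finite complex is torsion. Proof. (1) `V7N.v7_succ C n i hi c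
cW j hc hind` (in `Pool.Agent.H7.L.Helper970_V7_P_v7_succ`) with `i = e.symm : K →* Γ`, `c = canL`, `R = W = NG K`,
`j = RingHom.id`, `cW = canL ∘ e` (then `i.range = ⊤` and `hind` is trivial: `s` has at most one element,
`x * canL g = 0 → x = 0`, see `VN831.setup_top`, `VN831.canL_mul_eq_zero`) gives `homN K (n+1) ≃ₗ HR ..`, whose elements are
the classes of the `z` with `z B = 0` modulo the `y A` (`SR` is everything). So `luckDim (HR ..) = 0` (`VN831.luckDim_congr`).
(2) Suppose that `s z` is no boundary for every `Nz s`. Let `A'` be the matrix `A` with the row `- z` added, `p` its left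
support projection (`VN.lp`, `vn_NG`; `IsLP`: `w A' = 0 ↔ w p = 0`), `q = 1 - p`, `c_k = q_{k,last}`. Then
`I = {x | ∃ y, y A = x z} = {∑ w_k c_k}`. Let `r` be the left support projection of the row `(star c_k)`: `c_k r = c_k`. If
`r = 1` then `x ↦ (x star c_k)_k` is injective and `s = ∑ star c_k * c_k ∈ I` is `Nz` (if `x s = 0` then
`0 = ∑ τ (x star c_k c_k star x)`, all terms are `≥ 0`, so `c_k star x = 0` by `VN.faithful`, `x star c_k = 0`, `x = 0`), a
contradiction. So `f = 1 - r ≠ 0` is a projection, `c_k f = 0`, and `x f ∈ I` implies `x f = x f f = 0`. (3) So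
`rowMod !![f] → HR`, `v ↦ v 0 • [z]` is injective and `luckDim ≥ tr f > 0` (`tr f = τ (star f * f) > 0` by `VN.faithful`),
compare `VN831.le_luckDim`. -/
def S_TORS : Prop := ∀ (K Γ : Type) [Group K] [Group Γ] (e : Γ ≃* K) (C : V7N.FreeRes Γ) (n : ℕ),
  VN831.l2Betti K (n + 1) = 0 → ∀ z : Fin (C.r (n + 1)) → NG K,
  (∀ l, ∑ k, z k * V7N.evM ((canL : K →* NG K).comp e.toMonoidHom) (C.d n k l) = 0) →
  ∃ s : NG K, Nz s ∧ ∃ y : Fin (C.r (n + 2)) → NG K,
    ∀ k, ∑ m, y m * V7N.evM ((canL : K →* NG K).comp e.toMonoidHom) (C.d (n + 1) m k) = s * z k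

/-- **REV** Back to functions on `W O`. Proof. `RES` (`res (dac len) CB.conv`, see `MAIN1.lean`) gives the free resolution
`C = ⟨(davis O).toFree.rank, (davis O).toFree.d, ε, ..⟩` (as in `N496_CV_P_FINAL.lean`, `final`). `CONV` (`CB.conv`) gives `Ψ` for
`K = (th O).ker`. A cycle is `Ψ v`, `FV (th O).ker u (n+1) v`, `mulD v = 0`. With `K = (th O).ker`: `v i g = v i 1 * u g⁻¹`,
`mulD v j g = (∑ i, v i 1 * V7N.evM u (D i j)) * u g⁻¹`. Common left denominator (`common_denominator` in `MAIN1.lean`)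
`ι s * v i 1 = ι (x i)`, so `x` is a cycle over `NG K`, `TORS` gives `s'`, `y` with `y A = s' x`; take `v' m g = (ι (s' * s))⁻¹
* ι (y m) * u g⁻¹` and `Ψ v'`. (Cells: `FinAux.cell`, `cell_inj`, `sum_cell`, `d_apply` in `P_FINAL`.) -/
def S_REV : Prop := ∀ (X : Type) [Fintype X] [LinearOrder X] (O : SimpleGraph X) (K : Type) [Group K]
  (e : (th O).ker ≃* K) (U : Type) [Ring U] (ι : NG K →+* U) (u : (th O).ker →* U) (n : ℕ), Loc ι →
  (∀ h, u h = ι (canL (e h))) → VN831.l2Betti K (n + 1) = 0 →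
  Hv O Set.univ (InM (th O).ker u Set.univ ⊥) (n + 1)

/-- **DEC** (helper6) For the whole kernel the complex is `C(L; M)`. -/
def S_DEC : Prop := ∀ (V : Type) [Fintype V] [LinearOrder V] (G : SimpleGraph V) (R : Type) [Ring R]
  (u : (th (Oc G)).ker →* R) (i : ℕ), Rg (th (Oc G)).ker u → (∀ n : ℕ, 0 < n → IsUnit (n : R)) → (0 : R) ≠ 1 →
  Hv (Oc G) Set.univ (InM (th (Oc G)).ker u Set.univ ⊥) i → Ac G Set.univ i

/-- **SPE** special subgroups. Proof. `F : W (Oc (G.induce C)) →* W (Oc G)`, `(v, b) ↦ (v.1, b)` and `R : W (Oc G) →* W (Oc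
(G.induce C))`, `(v, b) ↦ (v, b)` if `v ∈ C`, `↦ 1` otherwise (`(cox G).toCoxeterSystem.lift ⟨_, liftable ..⟩`, see `th`,
`P_SPEC.lean`), `R ∘ F = id`, so `F` is injective; `th (Oc G) (F w) (u, b) = th _ w (⟨u, _⟩, b)` if `u ∈ C`, `1` otherwise. Take
`K = (th _).ker.map F`, `Subgroup.equivMapOfInjective`. -/
def S_SPE : Prop := ∀ (V : Type) (G : SimpleGraph V) (C : Set V),
  ∃ K : Subgroup (W (Oc G)), K ≤ (th (Oc G)).ker ∧ Nonempty ((th (Oc (G.induce C))).ker ≃* K)

/-- **ACI** the full subcomplex. Proof. `a ↦ (σ ↦ a (σ.map (Function.Embedding.subtype _)))` is a bijection of the chains of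
the full subcomplex on `C` and the chains of `G.induce C`, compatible with `bq` (the embedding is monotone, so the signs `sg`
agree; in `bq a T`, `T ⊆ C`, the terms with `v ∉ C` are zero). -/
def S_ACI : Prop := ∀ (V : Type) [Fintype V] [LinearOrder V] (G : SimpleGraph V) (C : Set V) [Fintype C] (i : ℕ),
  Ac (G.induce C) Set.univ i → Ac G C i

end Pool.Agent.H6.RA
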